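import Mathlib
import Pool.Agent.H534R2.FODefs

/-!
# Definitions: cuts of walks, forbidden digraphs, definability and hardness of reachability
-/

namespace Pool.Agent.W987

open Relation Pool.Agent.H534R2

/-- `p 0, …, p l` is a walk without repetitions and without shortcuts: no arc leads from a vertex
of the walk to a later vertex which is not the next one. -/
def NoShortcut {V : Type} (E : V → V → Prop) (p : ℕ → V) (l : ℕ) : Prop :=
  (∀ i, i < l → E (p i) (p (i + 1))) ∧ (∀ i j, i + 1 < j → j ≤ l → ¬ E (p i) (p j)) ∧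
    ∀ i j, i < j → j ≤ l → p i ≠ p j

/-- The step `i` of the walk `p` is a `w`-cut: it has `w` vertices on both sides, and no arc goes
from the `w` vertices after it to the `w` vertices before it. -/
def IsCut {V : Type} (E : V → V → Prop) (w : ℕ) (p : ℕ → V) (l i : ℕ) : Prop :=
  w ≤ i + 1 ∧ i + w ≤ l ∧
    ∀ a b, a ≤ i → i < a + w → i < b → b ≤ i + w → ¬ E (p b) (p a)

/-- The walk `p` has `t` `w`-cuts whose windows of `2 w` vertices are pairwise disjoint and
non-adjacent. -/
def HasCuts {V : Type} (E : V → V → Prop) (w : ℕ) (p : ℕ → V) (l t : ℕ) : Prop :=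
  ∃ c : Fin t → ℕ, (∀ k, IsCut E w p l (c k)) ∧
    ∀ k k', k < k' → ∀ a b, a ≤ c k + w → c k < a + w → b ≤ c k' + w → c k' < b + w →
      a < b ∧ ¬ E (p a) (p b) ∧ ¬ E (p b) (p a)

/-- `t` disjoint, pairwise non-adjacent directed paths with `k` vertices whose non-consecutive
vertices are non-adjacent. -/
def HasPaths {V : Type} (E : V → V → Prop) (k t : ℕ) : Prop :=
  ∃ f : Fin t × Fin k → V, Function.Injective f ∧
    (∀ x y, x.1 = y.1 → x.2.val + 1 = y.2.val → E (f x) (f y)) ∧
    ∀ x y, x ≠ y → ¬ (x.1 = y.1 ∧ (x.2.val + 1 = y.2.val ∨ y.2.val + 1 = x.2.val)) →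
      ¬ E (f x) (f y)

/-- The digraph `H` is isomorphic to an induced subdigraph of `E` (loops are ignored). -/
def Contains {V : Type} (E : V → V → Prop) {m : ℕ} (H : Fin m → Fin m → Prop) : Prop :=
  ∃ f : Fin m → V, Function.Injective f ∧ ∀ a b, a ≠ b → (H a b ↔ E (f a) (f b))

/-- Any two different arcs of `H` (loops are ignored) have no common end. -/
def DisjointArcs {m : ℕ} (H : Fin m → Fin m → Prop) : Prop :=
  ∀ a b c d, a ≠ b → c ≠ d → H a b → H c d →
    (a = c ∧ b = d) ∨ (a ≠ c ∧ a ≠ d ∧ b ≠ c ∧ b ≠ d)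

/-- One formula of `FO(STC)` expresses directed reachability in all digraphs with property `C`. -/
def Definable (C : ∀ V : Type, (V → V → Prop) → Prop) : Prop :=
  ∃ φ : Fm 2, ∀ (V : Type) (E : V → V → Prop), C V E →
    ∀ s d : V, φ.Holds E ![s, d] ↔ ReflTransGen E s d

/-- The formula contains no quantifier and no closure operator. -/
def QF : {n : ℕ} → Fm n → Prop
  | _, .eq _ _ => True
  | _, .edge _ _ => True
  | _, .neg φ => QF φ
  | _, .and φ ψ => QF φ ∧ QF ψ
  | _, .ex _ => False
  | _, .stc _ _ _ => False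

/-- The digraph that the formulas `ψ` define on `c + 1` copies of `V × V`. -/
def interp {c : ℕ} (ψ : Fin (c + 1) → Fin (c + 1) → Fm 4) {V : Type} (E : V → V → Prop)
    (x y : Fin (c + 1) × V × V) : Prop :=
  (ψ x.1 y.1).Holds E ![x.2.1, x.2.2, y.2.1, y.2.2]

/-- There is a quantifier-free interpretation which turns every digraph into a digraph with the
property `C` and preserves directed reachability. -/
def Hard (C : ∀ V : Type, (V → V → Prop) → Prop) : Prop :=
  ∃ (c : ℕ) (ψ : Fin (c + 1) → Fin (c + 1) → Fm 4), (∀ i j, QF (ψ i j)) ∧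
    ∀ (V : Type) (E : V → V → Prop), C _ (interp ψ E) ∧
      ∀ s t : V, ReflTransGen E s t ↔ ReflTransGen (interp ψ E) (0, s, s) (0, t, t)

end Pool.Agent.W987
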