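import Mathlib
import Pool.Agent.W987.FPDefs

/-!
# Definitions: merging directed paths, acyclic digraphs, first-order interpretations with order
-/

namespace Pool.Agent.W987

open Relation Pool.Agent.H534R2

/-- Two infinite directed paths that merge in `0`: the vertices are the integers, and every arc
leads one step towards `0`. -/
def Merge (x y : ℤ) : Prop := (x = y + 1 ∧ 0 ≤ y) ∨ (x = y - 1 ∧ y ≤ 0)

/-- Two infinite directed paths that start in `0`: the arcs of `Merge` reversed. -/
def Branch (x y : ℤ) : Prop := Merge y x

/-- Two directed paths with `k` arcs, which form an induced subdigraph, merge in the vertex `w`: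
an induced copy of the part `-k, …, k` of `Merge` with `w` in the place of `0`. -/
def MergeAt {V : Type} (E : V → V → Prop) (k : ℕ) (w : V) : Prop :=
  ∃ f : ℤ → V, f 0 = w ∧ ∀ x y : ℤ, |x| ≤ k → |y| ≤ k → x ≠ y →
    f x ≠ f y ∧ (Merge x y ↔ E (f x) (f y))

/-- There is no closed directed walk. -/
def Acyclic {V : Type} (E : V → V → Prop) : Prop := ∀ v, ¬ TransGen E v v

/-- No vertex from which `d` can be reached lies on a closed directed walk, and every directed walk
that ends in `d` passes through at most `m` vertices in which two directed paths with `k` arcs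
merge. -/
def FewMerges {V : Type} (E : V → V → Prop) (k m : ℕ) (d : V) : Prop :=
  (∀ v, ReflTransGen E v d → ¬ TransGen E v v) ∧
    ¬ ∃ c : ℕ → V, (∀ i ≤ m, MergeAt E k (c i)) ∧ (∀ i < m, TransGen E (c i) (c (i + 1))) ∧
      ReflTransGen E (c m) d

/-- The mirror condition for walks that start in `s`. -/
def FewBranches {V : Type} (E : V → V → Prop) (k m : ℕ) (s : V) : Prop :=
  FewMerges (fun x y => E y x) k m s

/-- First-order formulas over one binary relation (the arcs) and a linear order, with free
variables `Fin n`. `ex φ` quantifies the variable `0` of `φ`. -/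
inductive OFm : ℕ → Type
  | eq {n : ℕ} (i j : Fin n) : OFm n
  | lt {n : ℕ} (i j : Fin n) : OFm n
  | edge {n : ℕ} (i j : Fin n) : OFm n
  | neg {n : ℕ} (φ : OFm n) : OFm n
  | and {n : ℕ} (φ ψ : OFm n) : OFm n
  | ex {n : ℕ} (φ : OFm (n + 1)) : OFm n

/-- Truth of a formula in the digraph `E` on `0, …, N - 1` with the usual order. -/
def OFm.Holds {N : ℕ} (E : Fin N → Fin N → Prop) : {n : ℕ} → OFm n → (Fin n → Fin N) → Prop
  | _, .eq i j, ν => ν i = ν j
  | _, .lt i j, ν => ν i < ν j
  | _, .edge i j, ν => E (ν i) (ν j)
  | _, .neg φ, ν => ¬ φ.Holds E ν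
  | _, .and φ ψ, ν => φ.Holds E ν ∧ ψ.Holds E ν
  | _, .ex φ, ν => ∃ a : Fin N, φ.Holds E (Fin.cons a ν)

/-- The digraph which the formulas `ψ` define on the triples of vertices with tags from `T`. -/
def ointerp {T : Type} (ψ : T → T → OFm 6) {N : ℕ} (E : Fin N → Fin N → Prop)
    (x y : T × Fin N × Fin N × Fin N) : Prop :=
  (ψ x.1 y.1).Holds E ![x.2.1, x.2.2.1, x.2.2.2, y.2.1, y.2.2.1, y.2.2.2]

/-- Reachability in the digraphs with property `C` is hard: there is a first-order interpretation
which turns every nonempty finite ordered digraph `E` into a digraph with property `C`, whose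
vertices are the triples of vertices of `E` with one of finitely many tags, such that `t` can be
reached from `s` if and only if the triple `(max, t, max)` with tag `b` can be reached from the
triple `(min, s, min)` with tag `a`. -/
def OHard (C : ∀ V : Type, (V → V → Prop) → Prop) : Prop :=
  ∃ (T : Type) (_ : Finite T) (ψ : T → T → OFm 6) (a b : T), ∀ (N : ℕ)
    (E : Fin (N + 1) → Fin (N + 1) → Prop), C _ (ointerp ψ E) ∧
      ∀ s t : Fin (N + 1), ReflTransGen E s t ↔
        ReflTransGen (ointerp ψ E) (a, 0, s, 0) (b, Fin.last N, t, Fin.last N)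

end Pool.Agent.W987
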