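import Mathlib
import Pool.Agent.H534R2.HFree
import Pool.Agent.W987.DagDefs

/-!
# The gadget: acyclic digraphs of lanes with long subdivisions
-/

namespace Pool.Agent.W987

open Relation Pool.Agent.H534R2

/-! ### Definability with order -/

/-- a query on ordered digraphs -/
abbrev OQry (n : ℕ) := ∀ (N : ℕ), (Fin N → Fin N → Prop) → (Fin n → Fin N) → Prop

/-- first-order definable -/
def ODfn {n : ℕ} (Q : OQry n) : Prop :=
  ∃ φ : OFm n, ∀ (N : ℕ) (E : Fin N → Fin N → Prop) (ν : Fin n → Fin N), φ.Holds E ν ↔ Q N E ν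

theorem ODfn.congr {n : ℕ} {Q Q' : OQry n} (h : ODfn Q) (hh : ∀ N E ν, Q N E ν ↔ Q' N E ν) :
    ODfn Q' := by
  obtain ⟨φ, hφ⟩ := h
  exact ⟨φ, fun N E ν => (hφ N E ν).trans (hh N E ν)⟩

theorem ODfn.eq {n : ℕ} (i j : Fin n) : ODfn (fun _ _ ν => ν i = ν j) :=
  ⟨.eq i j, fun _ _ _ => Iff.rfl⟩

theorem ODfn.lt {n : ℕ} (i j : Fin n) : ODfn (fun _ _ ν => ν i < ν j) :=
  ⟨.lt i j, fun _ _ _ => Iff.rfl⟩

theorem ODfn.edge {n : ℕ} (i j : Fin n) : ODfn (fun _ E ν => E (ν i) (ν j)) :=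
  ⟨.edge i j, fun _ _ _ => Iff.rfl⟩

theorem ODfn.neg {n : ℕ} {Q : OQry n} (h : ODfn Q) : ODfn (fun N E ν => ¬ Q N E ν) := by
  obtain ⟨φ, hφ⟩ := h
  exact ⟨.neg φ, fun N E ν => by simp [OFm.Holds, hφ]⟩

theorem ODfn.and {n : ℕ} {Q Q' : OQry n} (h : ODfn Q) (h' : ODfn Q') :
    ODfn (fun N E ν => Q N E ν ∧ Q' N E ν) := by
  obtain ⟨φ, hφ⟩ := h
  obtain ⟨ψ, hψ⟩ := h'
  exact ⟨.and φ ψ, fun N E ν => by simp [OFm.Holds, hφ, hψ]⟩

theorem ODfn.or {n : ℕ} {Q Q' : OQry n} (h : ODfn Q) (h' : ODfn Q') :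
    ODfn (fun N E ν => Q N E ν ∨ Q' N E ν) :=
  ((h.neg.and h'.neg).neg).congr (fun N E ν => by tauto)

theorem ODfn.ex {n : ℕ} {Q : OQry (n + 1)} (h : ODfn Q) :
    ODfn (fun N E ν => ∃ a : Fin N, Q N E (Fin.cons a ν)) := by
  obtain ⟨φ, hφ⟩ := h
  exact ⟨.ex φ, fun N E ν => by simp [OFm.Holds, hφ]⟩

theorem ODfn.const (p : Prop) : ODfn (n := 6) (fun _ _ _ => p) := by
  by_cases h : p
  · exact (ODfn.eq 0 0).congr (fun N E ν => by simp [h])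
  · exact (ODfn.eq 0 0).neg.congr (fun N E ν => by simp [h])

theorem ODfn.succ {n : ℕ} (i j : Fin n) : ODfn (fun _ _ ν => (ν j).val = (ν i).val + 1) := by
  have h1 : ODfn (n := n + 1) (fun _ _ ν => ν i.succ < ν 0 ∧ ν 0 < ν j.succ) :=
    (ODfn.lt _ _).and (ODfn.lt _ _)
  refine ((ODfn.lt i j).and h1.ex.neg).congr (fun N E ν => ?_)
  simp only [Fin.cons_zero, Fin.cons_succ]
  constructor
  · rintro ⟨h2, h3⟩
    by_contra h4
    have h5 : (ν i).val < (ν j).val := h2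
    have h6 := (ν j).2
    exact h3 ⟨⟨(ν i).val + 1, by omega⟩, by simp [Fin.lt_def], by simp [Fin.lt_def]; omega⟩
  · intro h2
    refine ⟨by rw [Fin.lt_def]; omega, ?_⟩
    rintro ⟨a, h3, h4⟩
    rw [Fin.lt_def] at h3 h4
    omega

theorem ODfn.zero {n : ℕ} (i : Fin n) : ODfn (fun _ _ ν => (ν i).val = 0) := by
  have h1 : ODfn (n := n + 1) (fun _ _ ν => ν 0 < ν i.succ) := ODfn.lt _ _
  refine h1.ex.neg.congr (fun N E ν => ?_)
  simp only [Fin.cons_zero, Fin.cons_succ]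
  constructor
  · intro h2
    by_contra h3
    have := (ν i).2
    exact h2 ⟨⟨0, by omega⟩, by simp only [Fin.lt_def]; omega⟩
  · rintro h2 ⟨a, h3⟩
    rw [Fin.lt_def] at h3
    omega

theorem ODfn.max {n : ℕ} (i : Fin n) : ODfn (fun N _ ν => (ν i).val + 1 = N) := by
  have h1 : ODfn (n := n + 1) (fun _ _ ν => ν i.succ < ν 0) := ODfn.lt _ _
  refine h1.ex.neg.congr (fun N E ν => ?_)
  simp only [Fin.cons_zero, Fin.cons_succ]
  constructor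
  · intro h2
    by_contra h3
    have := (ν i).2
    exact h2 ⟨⟨(ν i).val + 1, by omega⟩, by simp [Fin.lt_def]⟩
  · rintro h2 ⟨a, h3⟩
    rw [Fin.lt_def] at h3
    have := a.2
    omega

/-! ### The gadget -/

/-- tags: collecting (`false`) or distributing (`true`) part of a lane; lane (`false`) or crossing
(`true`); position on the subdivided arc -/
abbrev Tg (L : ℕ) := Bool × Bool × Fin L

/-- vertices of the gadget -/
abbrev Vx (L N : ℕ) := Tg L × Fin N × Fin N × Fin N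

/-- The arcs of the gadget. The lane of the vertex `u` at time `i` has `2 N` nodes, `v` runs through
`0, …, N - 1` twice. The arcs between the nodes and the arcs that cross from the lane of `u` at time
`i` to the lane of `v` at time `i + 1` are subdivided. With `sc` there are also the arcs from the
last vertex before a node to the first vertex after it. -/
inductive Arc (sc : Prop) {L N : ℕ} (E : Fin N → Fin N → Prop) : Vx L N → Vx L N → Prop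
  | chain (p κ : Bool) (hp : κ = true → p = true) (j j' : Fin L) (hj : 1 ≤ j.val)
      (hj' : j'.val = j.val + 1) (τ : Fin N × Fin N × Fin N) :
      Arc sc E ((p, κ, j), τ) ((p, κ, j'), τ)
  | first (p κ : Bool) (hp : κ = true → p = true) (j j' : Fin L) (hj : j.val = 0)
      (hj' : j'.val = 1) (τ : Fin N × Fin N × Fin N) :
      Arc sc E ((p, false, j), τ) ((p, κ, j'), τ)
  | next (p : Bool) (j j' : Fin L) (hj : j.val + 1 = L) (hj' : j'.val = 0 ∨ sc ∧ j'.val = 1)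
      (i u v v' : Fin N) (hv : v'.val = v.val + 1) :
      Arc sc E ((p, false, j), i, u, v) ((p, false, j'), i, u, v')
  | turn (j j' : Fin L) (hj : j.val + 1 = L) (hj' : j'.val = 0 ∨ sc ∧ j'.val = 1)
      (i u v v' : Fin N) (hv : v.val + 1 = N) (hv' : v'.val = 0) :
      Arc sc E ((false, false, j), i, u, v) ((true, false, j'), i, u, v')
  | cross (j j' : Fin L) (hj : j.val + 1 = L) (hj' : j'.val = 0) (i i' u v : Fin N)
      (hi : i'.val = i.val + 1) (h : E u v ∨ u = v) :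
      Arc sc E ((true, true, j), i, u, v) ((false, false, j'), i', v, u)

/-- the arcs of the gadget as formulas -/
def RA (sc : Prop) (L : ℕ) (x y : Tg L) : OQry 6 := fun N E ν =>
  ((x.1 = y.1 ∧ x.2.1 = y.2.1 ∧ (x.2.1 = true → x.1 = true) ∧ 1 ≤ x.2.2.val ∧
    y.2.2.val = x.2.2.val + 1) ∧ ν 0 = ν 3 ∧ ν 1 = ν 4 ∧ ν 2 = ν 5) ∨
  ((x.1 = y.1 ∧ x.2.1 = false ∧ (y.2.1 = true → x.1 = true) ∧ x.2.2.val = 0 ∧ y.2.2.val = 1) ∧
    ν 0 = ν 3 ∧ ν 1 = ν 4 ∧ ν 2 = ν 5) ∨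
  ((x.1 = y.1 ∧ x.2.1 = false ∧ y.2.1 = false ∧ x.2.2.val + 1 = L ∧
    (y.2.2.val = 0 ∨ sc ∧ y.2.2.val = 1)) ∧ ν 0 = ν 3 ∧ ν 1 = ν 4 ∧ (ν 5).val = (ν 2).val + 1) ∨
  ((x.1 = false ∧ y.1 = true ∧ x.2.1 = false ∧ y.2.1 = false ∧ x.2.2.val + 1 = L ∧
    (y.2.2.val = 0 ∨ sc ∧ y.2.2.val = 1)) ∧ ν 0 = ν 3 ∧ ν 1 = ν 4 ∧ (ν 2).val + 1 = N ∧
      (ν 5).val = 0) ∨
  ((x.1 = true ∧ x.2.1 = true ∧ y.1 = false ∧ y.2.1 = false ∧ x.2.2.val + 1 = L ∧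
    y.2.2.val = 0) ∧ (ν 3).val = (ν 0).val + 1 ∧ ν 2 = ν 4 ∧ ν 1 = ν 5 ∧
      (E (ν 1) (ν 2) ∨ ν 1 = ν 2))

theorem RA_dfn (sc : Prop) (L : ℕ) (x y : Tg L) : ODfn (RA sc L x y) :=
  ((ODfn.const _).and ((ODfn.eq 0 3).and ((ODfn.eq 1 4).and (ODfn.eq 2 5)))).or
  (((ODfn.const _).and ((ODfn.eq 0 3).and ((ODfn.eq 1 4).and (ODfn.eq 2 5)))).or
  (((ODfn.const _).and ((ODfn.eq 0 3).and ((ODfn.eq 1 4).and (ODfn.succ 2 5)))).or
  (((ODfn.const _).and ((ODfn.eq 0 3).and ((ODfn.eq 1 4).and ((ODfn.max 2).and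
    (ODfn.zero 5))))).or
  ((ODfn.const _).and ((ODfn.succ 0 3).and ((ODfn.eq 2 4).and ((ODfn.eq 1 5).and
    ((ODfn.edge 1 2).or (ODfn.eq 1 2)))))))))

theorem arc_iff (sc : Prop) {L N : ℕ} (E : Fin N → Fin N → Prop) (x y : Vx L N) :
    Arc sc E x y ↔
      RA sc L x.1 y.1 N E ![x.2.1, x.2.2.1, x.2.2.2, y.2.1, y.2.2.1, y.2.2.2] := by
  constructor
  · intro h
    cases h with
    | chain p κ hp j j' hj hj' τ => exact Or.inl ⟨⟨rfl, rfl, hp, hj, hj'⟩, rfl, rfl, rfl⟩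
    | first p κ hp j j' hj hj' τ =>
      exact Or.inr (Or.inl ⟨⟨rfl, rfl, hp, hj, hj'⟩, rfl, rfl, rfl⟩)
    | next p j j' hj hj' i u v v' hv =>
      exact Or.inr (Or.inr (Or.inl ⟨⟨rfl, rfl, rfl, hj, hj'⟩, rfl, rfl, hv⟩))
    | turn j j' hj hj' i u v v' hv hv' =>
      exact Or.inr (Or.inr (Or.inr (Or.inl ⟨⟨rfl, rfl, rfl, rfl, hj, hj'⟩, rfl, rfl, hv, hv'⟩)))
    | cross j j' hj hj' i i' u v hi h =>
      exact Or.inr (Or.inr (Or.inr (Or.inr ⟨⟨rfl, rfl, rfl, rfl, hj, hj'⟩, hi, rfl, rfl, h⟩)))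
  · obtain ⟨⟨p, κ, j⟩, i, u, v⟩ := x
    obtain ⟨⟨p', κ', j'⟩, i', u', v'⟩ := y
    intro h
    change ((p = p' ∧ κ = κ' ∧ (κ = true → p = true) ∧ 1 ≤ j.val ∧ j'.val = j.val + 1) ∧
        i = i' ∧ u = u' ∧ v = v') ∨
      ((p = p' ∧ κ = false ∧ (κ' = true → p = true) ∧ j.val = 0 ∧ j'.val = 1) ∧
        i = i' ∧ u = u' ∧ v = v') ∨
      ((p = p' ∧ κ = false ∧ κ' = false ∧ j.val + 1 = L ∧ (j'.val = 0 ∨ sc ∧ j'.val = 1)) ∧
        i = i' ∧ u = u' ∧ v'.val = v.val + 1) ∨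
      ((p = false ∧ p' = true ∧ κ = false ∧ κ' = false ∧ j.val + 1 = L ∧
        (j'.val = 0 ∨ sc ∧ j'.val = 1)) ∧ i = i' ∧ u = u' ∧ v.val + 1 = N ∧ v'.val = 0) ∨
      ((p = true ∧ κ = true ∧ p' = false ∧ κ' = false ∧ j.val + 1 = L ∧ j'.val = 0) ∧
        i'.val = i.val + 1 ∧ v = u' ∧ u = v' ∧ (E u v ∨ u = v)) at h
    rcases h with ⟨⟨rfl, rfl, hp, hj, hj'⟩, rfl, rfl, rfl⟩ | ⟨⟨rfl, rfl, hp, hj, hj'⟩, rfl, rfl, rfl⟩ |
      ⟨⟨rfl, rfl, rfl, hj, hj'⟩, rfl, rfl, hv⟩ | ⟨⟨rfl, rfl, rfl, rfl, hj, hj'⟩, rfl, rfl, hv, hv'⟩ |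
      ⟨⟨rfl, rfl, rfl, rfl, hj, hj'⟩, hi, rfl, rfl, h⟩
    · exact .chain p κ hp j j' hj hj' _
    · exact .first p κ' hp j j' hj hj' _
    · exact .next p j j' hj hj' i u v v' hv
    · exact .turn j j' hj hj' i u v v' hv hv'
    · exact .cross j j' hj hj' i i' u v hi h

theorem ohard_of {C : ∀ V : Type, (V → V → Prop) → Prop} (sc : Prop) (L : ℕ) (hL : 2 ≤ L)
    (hC : ∀ (N : ℕ) (E : Fin (N + 1) → Fin (N + 1) → Prop), C _ (Arc (L := L) sc E))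
    (hr : ∀ (N : ℕ) (E : Fin (N + 1) → Fin (N + 1) → Prop) (s t : Fin (N + 1)),
      ReflTransGen E s t ↔ ReflTransGen (Arc (L := L) sc E)
        ((false, false, ⟨0, by omega⟩), 0, s, 0)
        ((true, false, ⟨0, by omega⟩), Fin.last N, t, Fin.last N)) : OHard C := by
  choose φ hφ using RA_dfn sc L
  refine ⟨Tg L, inferInstance, φ, (false, false, ⟨0, by omega⟩), (true, false, ⟨0, by omega⟩),
    fun N E => ?_⟩
  have he : ointerp φ E = Arc (L := L) sc E := by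
    funext x y
    apply propext
    unfold ointerp
    rw [hφ, arc_iff]
  rw [he]
  exact ⟨hC N E, hr N E⟩

end Pool.Agent.W987
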