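import Mathlib
import Pool.Agent.W987.DagGad

/-!
# The gadget is acyclic and preserves reachability
-/

namespace Pool.Agent.W987

open Relation Pool.Agent.H534R2

variable {sc : Prop} {L N : ℕ}

/-- number of the node before the vertex on its lane, over all times -/
def slot (x : Vx L N) : ℕ := (2 * x.2.1.val + (if x.1.1 then 1 else 0)) * N + x.2.2.2.val

/-- a number that increases along the arcs -/
def rnk (x : Vx L N) : ℕ := slot x * L + x.1.2.2.val

theorem rnk_lt {E : Fin N → Fin N → Prop} {x y : Vx L N} (h : Arc sc E x y) : rnk x < rnk y := by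
  cases h with
  | chain p κ hp j j' hj hj' τ => simp only [rnk, slot]; omega
  | first p κ hp j j' hj hj' τ => simp only [rnk, slot]; omega
  | next p j j' hj hj' i u v v' hv =>
    simp only [rnk, slot]
    rw [hv, show ((2 * i.val + if p then 1 else 0) * N + (v.val + 1)) * L =
      ((2 * i.val + if p then 1 else 0) * N + v.val) * L + L by ring]
    omega
  | turn j j' hj hj' i u v v' hv hv' =>
    simp only [rnk, slot, hv']
    have h1 : ((2 * i.val + 1) * N + 0) * L = ((2 * i.val + 0) * N + v.val) * L + L := by
      have e1 : (2 * i.val + 1) * N = 2 * i.val * N + N := by ring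
      have e2 : (2 * i.val + 0) * N = 2 * i.val * N := by ring
      have e3 : (2 * i.val + 1) * N + 0 = ((2 * i.val + 0) * N + v.val) + 1 := by omega
      rw [e3]
      ring
    simp only [if_true, Bool.false_eq_true, if_false]
    rw [h1]
    omega
  | cross j j' hj hj' i i' u v hi h =>
    simp only [rnk, slot, hi, if_true, Bool.false_eq_true, if_false]
    have hv := v.2
    have h1 : (2 * (i.val + 1) + 0) * N + u.val ≥ ((2 * i.val + 1) * N + v.val) + 1 := by
      have : (2 * (i.val + 1) + 0) * N = (2 * i.val + 1) * N + N := by ring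
      omega
    have h2 : ((2 * (i.val + 1) + 0) * N + u.val) * L ≥ (((2 * i.val + 1) * N + v.val) + 1) * L :=
      Nat.mul_le_mul_right L h1
    have h3 : (((2 * i.val + 1) * N + v.val) + 1) * L = ((2 * i.val + 1) * N + v.val) * L + L := by
      ring
    omega

theorem arc_acyclic (E : Fin N → Fin N → Prop) : Acyclic (Arc (L := L) sc E) := by
  have key : ∀ x y, TransGen (Arc (L := L) sc E) x y → rnk x < rnk y := by
    intro x y h
    induction h with
    | single h => exact rnk_lt h
    | tail _ h ih => exact ih.trans (rnk_lt h)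
  exact fun v h => lt_irrefl _ (key v v h)

/-! ### Reachability -/

section reach

/-- a node -/
def nd (hL : 2 ≤ L) (p : Bool) (i u v : Fin N) : Vx L N := ((p, false, ⟨0, by omega⟩), i, u, v)

/-- the last vertex of a subdivided arc -/
def lst (hL : 2 ≤ L) (p κ : Bool) (i u v : Fin N) : Vx L N :=
  ((p, κ, ⟨L - 1, by omega⟩), i, u, v)

variable (hL : 2 ≤ L) (E : Fin N → Fin N → Prop)

theorem run (p κ : Bool) (hp : κ = true → p = true) (i u v : Fin N) :
    ReflTransGen (Arc sc E) (nd hL p i u v) (lst hL p κ i u v) := by
  have key : ∀ j : ℕ, ∀ hj : j + 1 < L, ReflTransGen (Arc sc E) (nd hL p i u v)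
      ((p, κ, ⟨j + 1, hj⟩), i, u, v) := by
    intro j
    induction j with
    | zero => exact fun hj => .single (.first p κ hp _ _ rfl rfl _)
    | succ j ih =>
      exact fun hj => (ih (by omega)).tail (.chain p κ hp _ _ (by simp) rfl _)
  have := key (L - 2) (by omega)
  have he : (⟨L - 2 + 1, by omega⟩ : Fin L) = ⟨L - 1, by omega⟩ := Fin.ext (by simp only; omega)
  rwa [he] at this

theorem lane_run (p : Bool) (i u : Fin N) : ∀ (n : ℕ) (v v' : Fin N), v'.val = v.val + n →
    ReflTransGen (Arc sc E) (nd hL p i u v) (nd hL p i u v') := by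
  intro n
  induction n with
  | zero =>
    intro v v' h
    rw [show v' = v from Fin.ext h]
  | succ n ih =>
    intro v v' h
    have hv' := v'.2
    have h1 := ih v ⟨v.val + n, by omega⟩ rfl
    refine h1.trans ((run hL E p false (by simp) i u _).tail ?_)
    exact .next p _ _ (by simp only; omega) (Or.inl rfl) i u _ _ (by simp only; omega)

theorem to_distribute (i u w v : Fin N) :
    ReflTransGen (Arc sc E) (nd hL false i u w) (nd hL true i u v) := by
  have hw := w.2
  have h1 := lane_run hL E (sc := sc) false i u (N - 1 - w.val) w ⟨N - 1, by omega⟩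
    (by simp only; omega)
  have h2 := run hL E (sc := sc) false false (by simp) i u ⟨N - 1, by omega⟩
  have h3 : Arc sc E (lst hL false false i u ⟨N - 1, by omega⟩) (nd hL true i u ⟨0, by omega⟩) :=
    .turn _ _ (by simp only; omega) (Or.inl rfl) i u _ _ (by simp only; omega) rfl
  have h4 := lane_run hL E (sc := sc) true i u v.val ⟨0, by omega⟩ v (by simp)
  exact ((h1.trans h2).tail h3).trans h4

theorem cross_run (i i' u v : Fin N) (hi : i'.val = i.val + 1) (h : E u v ∨ u = v) :
    ReflTransGen (Arc sc E) (nd hL true i u v) (nd hL false i' v u) :=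
  (run hL E true true (fun _ => rfl) i u v).tail
    (.cross _ _ (by simp only; omega) rfl i i' u v hi h)

end reach

theorem gadget_reach (hL : 2 ≤ L) {N : ℕ} (E : Fin (N + 1) → Fin (N + 1) → Prop)
    (s t : Fin (N + 1)) : ReflTransGen E s t ↔
      ReflTransGen (Arc (L := L) sc E) (nd hL false 0 s 0)
        (nd hL true (Fin.last N) t (Fin.last N)) := by
  constructor
  · intro h
    obtain ⟨p, l, hg, h0, hl⟩ := exists_geo h
    have hlN : l ≤ N := by
      have hinj : Function.Injective (fun i : Fin (l + 1) => p i.val) := by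
        intro a b hab
        rcases lt_trichotomy a.val b.val with h' | h' | h'
        · exact absurd hab (hg.inj _ _ h' (by omega))
        · exact Fin.ext h'
        · exact absurd hab.symm (hg.inj _ _ h' (by omega))
      have := Fintype.card_le_of_injective _ hinj
      simp only [Fintype.card_fin] at this
      omega
    let q : ℕ → Fin (N + 1) := fun k => if k ≤ l then p k else t
    have hq : ∀ k, E (q k) (q (k + 1)) ∨ q k = q (k + 1) := by
      intro k
      rcases Nat.lt_trichotomy k l with h' | h' | h'
      · left
        simp only [q, h'.le, show k + 1 ≤ l from h', if_true]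
        exact hg.arc k h'
      · right
        subst h'
        simp [q, hl]
      · right
        simp only [q, show ¬ k ≤ l by omega, show ¬ k + 1 ≤ l by omega, if_false]
    have key : ∀ k, ∀ hk : k < N + 1, ∀ v, ReflTransGen (Arc (L := L) sc E) (nd hL false 0 s 0)
        (nd hL true ⟨k, hk⟩ (q k) v) := by
      intro k
      induction k with
      | zero =>
        intro hk v
        have : q 0 = s := by simp [q, h0]
        rw [this]
        exact to_distribute hL E _ _ _ _
      | succ k ih =>
        intro hk v
        refine ((ih (by omega) (q (k + 1))).trans (cross_run hL E _ ⟨k + 1, hk⟩ _ _ rfl (hq k))).trans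
          (to_distribute hL E _ _ _ _)
    have h1 := key N (by omega) (Fin.last N)
    have h2 : q N = t := by
      simp only [q]
      split_ifs with h'
      · exact (congrArg p (show N = l by omega)).trans hl
      · rfl
    rw [h2] at h1
    exact h1
  · intro h
    have key : ∀ x, ReflTransGen (Arc (L := L) sc E) (nd hL false 0 s 0) x →
        ReflTransGen E s x.2.2.1 := by
      intro x hx
      induction hx with
      | refl => exact .refl
      | @tail y z _ hyz ih =>
        cases hyz with
        | chain p κ hp j j' hj hj' τ => exact ih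
        | first p κ hp j j' hj hj' τ => exact ih
        | next p j j' hj hj' i u v v' hv => exact ih
        | turn j j' hj hj' i u v v' hv hv' => exact ih
        | cross j j' hj hj' i i' u v hi h =>
          rcases h with h | rfl
          · exact ReflTransGen.tail ih h
          · exact ih
    exact key _ h

/-! ### The gadget with short subdivisions and additional arcs -/

/-- in two merging directed paths, an arc leads from one of the ends before the merge to the vertex
after it -/
theorem no_Y {N : ℕ} {E : Fin N → Fin N → Prop} {a b c d : Vx 2 N}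
    (h1 : Arc True E a c) (h2 : Arc True E b c) (h3 : Arc True E c d) (hab : a ≠ b)
    (n1 : ¬ Arc True E a b) (n2 : ¬ Arc True E b a) : Arc True E a d ∨ Arc True E b d := by
  -- a node in a collecting part has one way out, which is reached by the additional arc
  have out : ∀ (j' : Fin 2) (hj' : j'.val = 0) (i u v' : Fin N) (d : Vx 2 N),
      Arc True E ((false, false, j'), i, u, v') d → ∀ (j : Fin 2) (v : Fin N), j.val + 1 = 2 →
      v'.val = v.val + 1 → Arc True E ((false, false, j), i, u, v) d := by
    intro j' hj' i u v' d hd j v hj hv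
    cases hd with
    | chain p κ hp j1 j2 h1 h2 τ => omega
    | first p κ hp j1 j2 h1 h2 τ =>
      rcases κ with _ | _
      · exact .next false _ _ hj (Or.inr ⟨trivial, h2⟩) i u v v' hv
      · exact absurd (hp rfl) (by simp)
    | next p j1 j2 h1 h2 i u v v' hv => omega
    | turn j1 j2 h1 h2 i u v v' hv hv' => omega
  cases h1 with
  | chain p κ hp j j' hj hj' τ => omega
  | first p κ hp j j' hj hj' τ =>
    cases h2 with
    | chain p κ hp j1 j2 h1 h2 τ => omega
    | first p κ hp1 j1 j2 h1 h2 τ =>
      exact absurd (by rw [show j = j1 from Fin.ext (by omega)]) hab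
    | next p j1 j2 h1 h2 i u v v' hv =>
      exact absurd (.next p _ _ h1 (Or.inl hj) i u v v' hv) n2
    | turn j1 j2 h1 h2 i u v v' hv hv' =>
      exact absurd (.turn _ _ h1 (Or.inl hj) i u v v' hv hv') n2
    | cross j1 j2 h1 h2 i i' u v hi h => omega
  | next p j j' hj hj' i u v v' hv =>
    cases h2 with
    | chain p κ hp j1 j2 h1 h2 τ => omega
    | first p κ hp1 j1 j2 h1 h2 τ =>
      exact absurd (.next p _ _ hj (Or.inl h1) i u v v' hv) n1
    | next p j1 j2 h1 h2 i u v2 v' hv2 =>
      exact absurd (by rw [show j = j1 from Fin.ext (by omega),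
        show v = v2 from Fin.ext (by omega)]) hab
    | turn j1 j2 h1 h2 i u v2 v' hv2 hv' => omega
    | cross j1 j2 h1 h2 i1 i' u1 v1 hi h =>
      exact Or.inl (out _ h2 _ _ _ _ h3 _ _ hj hv)
  | turn j j' hj hj' i u v v' hv hv' =>
    cases h2 with
    | chain p κ hp j1 j2 h1 h2 τ => omega
    | first p κ hp1 j1 j2 h1 h2 τ =>
      exact absurd (.turn _ _ hj (Or.inl h1) i u v v' hv hv') n1
    | next p j1 j2 h1 h2 i u v2 v' hv2 => omega
    | turn j1 j2 h1 h2 i u v2 v' hv2 hv' =>
      exact absurd (by rw [show j = j1 from Fin.ext (by omega),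
        show v = v2 from Fin.ext (by omega)]) hab
  | cross j j' hj hj' i i' u v hi h =>
    cases h2 with
    | chain p κ hp j1 j2 h1 h2 τ => omega
    | first p κ hp1 j1 j2 h1 h2 τ => omega
    | next p j1 j2 h1 h2 i u v2 v' hv2 =>
      exact Or.inr (out _ hj' _ _ _ _ h3 _ _ h1 hv2)
    | cross j1 j2 h1 h2 i1 i' u1 v1 hi1 h =>
      exact absurd (by rw [show j = j1 from Fin.ext (by omega),
        show i = i1 from Fin.ext (by omega)]) hab

/-- in two branching directed paths, an arc leads from the vertex before the branching to one of the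
ends after it -/
theorem no_Y' {N : ℕ} {E : Fin N → Fin N → Prop} {a b c d : Vx 2 N}
    (h1 : Arc True E a c) (h2 : Arc True E c b) (h3 : Arc True E c d) (hbd : b ≠ d)
    (n1 : ¬ Arc True E b d) (n2 : ¬ Arc True E d b) : Arc True E a b ∨ Arc True E a d := by
  -- from the vertices before a node the vertex after it on the lane is reached
  have inn : ∀ (p : Bool) (j : Fin 2) (hj : j.val = 0) (i u v : Fin N) (a : Vx 2 N),
      Arc True E a ((p, false, j), i, u, v) → p = true → ∀ j' : Fin 2, j'.val = 1 →
      Arc True E a ((p, false, j'), i, u, v) := by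
    intro p j hj i u v a ha hp j' hj'
    cases ha with
    | chain p κ hp j1 j2 h1 h2 τ => omega
    | first p κ hp j1 j2 h1 h2 τ => omega
    | next p j1 j2 h1 h2 i u v v' hv => exact .next p _ _ h1 (Or.inr ⟨trivial, hj'⟩) i u _ _ hv
    | turn j1 j2 h1 h2 i u v v' hv hv' =>
      exact .turn _ _ h1 (Or.inr ⟨trivial, hj'⟩) i u _ _ hv hv'
    | cross j1 j2 h1 h2 i1 i' u1 v1 hi h => exact absurd hp (by simp)
  have two : ∀ (j j' : Fin 2), j ≠ j' → j.val = 0 ∧ j'.val = 1 ∨ j.val = 1 ∧ j'.val = 0 := by
    intro j j' h
    have : j.val ≠ j'.val := fun h' => h (Fin.ext h')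
    omega
  cases h2 with
  | chain p κ hp j j' hj hj' τ => omega
  | first p κ hp j j' hj hj' τ =>
    obtain ⟨i, u, v⟩ := τ
    cases h3 with
    | chain p κ hp j1 j2 h1 h2 τ => omega
    | first p κ1 hp1 j1 j2 h2 h3 τ =>
      rcases κ with _ | _ <;> rcases κ1 with _ | _
      · exact absurd (by rw [show j' = j2 from Fin.ext (by omega)]) hbd
      · exact Or.inl (inn _ _ hj _ _ _ _ h1 (hp1 rfl) _ hj')
      · exact Or.inr (inn _ _ hj _ _ _ _ h1 (hp rfl) _ h3)
      · exact absurd (by rw [show j' = j2 from Fin.ext (by omega)]) hbd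
    | next p j1 j2 h1 h2 i u v v' hv => omega
    | turn j1 j2 h1 h2 i u v v' hv hv' => omega
  | next p j j' hj hj' i u v v' hv =>
    cases h3 with
    | chain p κ hp j1 j2 h1 h2 τ => omega
    | first p κ1 hp1 j1 j2 h2 h3 τ => omega
    | next p j1 j2 h1 h2 i u v v2 hv2 =>
      have hv' : v' = v2 := Fin.ext (by omega)
      subst hv'
      rcases two j' j2 (fun h => hbd (by rw [h])) with h | h
      · exact absurd (.first p false (by simp) _ _ h.1 h.2 _) n1
      · exact absurd (.first p false (by simp) _ _ h.2 h.1 _) n2
    | turn j1 j2 h1 h2 i u v v' hv hv' => omega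
  | turn j j' hj hj' i u v v' hv hv' =>
    cases h3 with
    | chain p κ hp j1 j2 h1 h2 τ => omega
    | first p κ1 hp1 j1 j2 h2 h3 τ => omega
    | next p j1 j2 h1 h2 i u v v2 hv2 => omega
    | turn j1 j2 h1 h2 i u v v2 hv2 hv2' =>
      have hv' : v' = v2 := Fin.ext (by omega)
      subst hv'
      rcases two j' j2 (fun h => hbd (by rw [h])) with h | h
      · exact absurd (.first true false (by simp) _ _ h.1 h.2 _) n1
      · exact absurd (.first true false (by simp) _ _ h.2 h.1 _) n2
  | cross j j' hj hj' i i' u v hi h =>
    cases h3 with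
    | chain p κ hp j1 j2 h1 h2 τ => omega
    | cross j1 j2 h1 h2 i1 i' u1 v1 hi1 h =>
      exact absurd (by rw [show j' = j2 from Fin.ext (by omega),
        show _ = _ from Fin.ext (hi.trans hi1.symm)]) hbd

end Pool.Agent.W987
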