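import Mathlib
import Pool.Agent.W987.DagReach

/-!
# The neighbourhood of a node of the gadget with long subdivisions
-/

namespace Pool.Agent.W987

open Relation Pool.Agent.H534R2

variable {L N : ℕ}

/-- position on the lane -/
def pos (x : Vx L N) : ℕ := ((if x.1.1 then N else 0) + x.2.2.2.val) * L + x.1.2.2.val

/-- two directed lines with a common point: the integers `inl t`, and `inr r` with `r ≠ 0` -/
def XArc : ℤ ⊕ ℤ → ℤ ⊕ ℤ → Prop
  | .inl t, .inl t' => t' = t + 1
  | .inr r, .inr r' => r' = r + 1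
  | .inl t, .inr r => t = 0 ∧ r = 1
  | .inr r, .inl t => r = -1 ∧ t = 0

/-- the vertex `x` in the neighbourhood of the node `c` -/
def StarR (E : Fin N → Fin N → Prop) (c x : Vx L N) : ℤ ⊕ ℤ → Prop
  | .inl t => x.1.2.1 = false ∧ x.2.1 = c.2.1 ∧ x.2.2.1 = c.2.2.1 ∧ (pos x : ℤ) = pos c + t ∧
      t.natAbs < L
  | .inr r => x.1.1 = true ∧ x.1.2.1 = true ∧ r.natAbs < L ∧
      ((0 < r ∧ c.1.1 = true ∧ x.2 = c.2 ∧ (x.1.2.2.val : ℤ) = r) ∨
        (r < 0 ∧ c.1.1 = false ∧ (x.1.2.2.val : ℤ) = L + r ∧ c.2.1.val = x.2.1.val + 1 ∧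
          x.2.2.1 = c.2.2.2 ∧ x.2.2.2 = c.2.2.1 ∧ (E x.2.2.1 x.2.2.2 ∨ x.2.2.1 = x.2.2.2)))

/-- distance from the node -/
def dp : ℤ ⊕ ℤ → ℕ
  | .inl t => t.natAbs
  | .inr r => r.natAbs

theorem div_unique {a a' b b' : ℕ} (hb : b < L) (hb' : b' < L) (h : a * L + b = a' * L + b') :
    a = a' ∧ b = b' := by
  have key : ∀ a a' b b' : ℕ, b < L → a < a' → a * L + b ≠ a' * L + b' := by
    intro a a' b b' hb haa h
    have h1 : (a + 1) * L ≤ a' * L := Nat.mul_le_mul_right L haa
    have h2 : (a + 1) * L = a * L + L := by ring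
    omega
  rcases Nat.lt_trichotomy a a' with h' | h' | h'
  · exact absurd h (key _ _ _ _ hb h')
  · subst h'; exact ⟨rfl, by omega⟩
  · exact absurd h.symm (key _ _ _ _ hb' h')

theorem slot_unique {p p' : Bool} {v v' : Fin N}
    (h : (if p then N else 0) + v.val = (if p' then N else 0) + v'.val) : p = p' ∧ v = v' := by
  have hv := v.2
  have hv' := v'.2
  rcases p with _ | _ <;> rcases p' with _ | _ <;> simp at h
  · exact ⟨rfl, Fin.ext (by omega)⟩
  · omega
  · omega
  · exact ⟨rfl, Fin.ext (by omega)⟩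

theorem lane_arc (E : Fin N → Fin N → Prop) {p p' : Bool} {j j' : Fin L} {i u v v' : Fin N} :
    Arc False E ((p, false, j), i, u, v) ((p', false, j'), i, u, v') ↔
      pos (((p', false, j'), i, u, v') : Vx L N) = pos (((p, false, j), i, u, v) : Vx L N) + 1 := by
  simp only [pos]
  constructor
  · intro h
    cases h with
    | chain p κ hp j j' hj hj' τ => omega
    | first p κ hp j j' hj hj' τ => omega
    | next p j j' hj hj' i u v v' hv =>
      have h1 : ((if p then N else 0) + v'.val) * L = ((if p then N else 0) + v.val) * L + L := by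
        rw [hv]; ring
      rcases hj' with hj' | ⟨h, _⟩
      · omega
      · exact h.elim
    | turn j j' hj hj' i u v v' hv hv' =>
      simp only [if_true, Bool.false_eq_true, if_false]
      have h1 : (N + v'.val) * L = (0 + v.val) * L + L := by
        rw [hv', show N + 0 = (0 + v.val) + 1 by omega]; ring
      rcases hj' with hj' | ⟨h, _⟩
      · omega
      · exact h.elim
  · intro h
    have hj := j.2
    have hj' := j'.2
    rcases Nat.lt_or_ge (j.val + 1) L with h1 | h1
    · obtain ⟨h2, h3⟩ := div_unique (L := L)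
        (a' := (if p = true then N else 0) + v.val) (b' := j.val + 1) hj' h1 (h.trans (by omega))
      obtain ⟨rfl, rfl⟩ := slot_unique h2
      rcases Nat.eq_zero_or_pos j.val with h4 | h4
      · exact .first p' false (by simp) _ _ h4 (by omega) _
      · exact .chain p' false (by simp) _ _ h4 h3 _
    · have h2 : ((if p then N else 0) + v.val) * L + j.val + 1 =
          ((if p then N else 0) + v.val + 1) * L + 0 := by
        have : ((if p then N else 0) + v.val + 1) * L = ((if p then N else 0) + v.val) * L + L := by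
          ring
        omega
      obtain ⟨h3, h4⟩ := div_unique (L := L) hj' (by omega) (h.trans h2)
      have hv := v.2
      have hv' := v'.2
      rcases p with _ | _ <;> rcases p' with _ | _ <;> simp at h3
      · exact .next _ _ _ (by omega) (Or.inl h4) _ _ _ _ h3
      · exact .turn _ _ (by omega) (Or.inl h4) _ _ _ _ (by omega) (by omega)
      · omega
      · exact .next _ _ _ (by omega) (Or.inl h4) _ _ _ _ (by omega)

theorem lane_ext {p p' : Bool} {j j' : Fin L} {v v' : Fin N} (i u : Fin N)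
    (h : pos (((p, false, j), i, u, v) : Vx L N) = pos (((p', false, j'), i, u, v') : Vx L N)) :
    (((p, false, j), i, u, v) : Vx L N) = ((p', false, j'), i, u, v') := by
  simp only [pos] at h
  obtain ⟨h1, h2⟩ := div_unique (L := L) j.2 j'.2 h
  obtain ⟨rfl, rfl⟩ := slot_unique h1
  rw [Fin.ext h2]

/-- a vertex on the lane of `c` at a multiple of `L` and at distance less than `L` is `c` -/
theorem node_ext {p p' : Bool} {j j' : Fin L} {v v' : Fin N} (i u : Fin N) (hj : j.val = 0)
    (hj' : j'.val = 0) {t : ℤ} (ht : t.natAbs < L)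
    (h : (pos (((p, false, j), i, u, v) : Vx L N) : ℤ) =
      pos (((p', false, j'), i, u, v') : Vx L N) + t) : t = 0 ∧
    (((p, false, j), i, u, v) : Vx L N) = ((p', false, j'), i, u, v') := by
  have ht0 : t = 0 := by
    simp only [pos, hj, hj'] at h
    push_cast at h
    set A : ℤ := (if p then (N : ℤ) else 0) + v.val with hA
    set B : ℤ := (if p' then (N : ℤ) else 0) + v'.val with hB
    have h1 : t = (A - B) * L := by
      have : (A - B) * L = A * L - B * L := by ring
      omega
    have h2 : t.natAbs = (A - B).natAbs * L := by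
      rw [h1, Int.natAbs_mul, Int.natAbs_natCast]
    rcases Nat.eq_zero_or_pos (A - B).natAbs with h3 | h3
    · rw [h3, Nat.zero_mul] at h2
      exact Int.natAbs_eq_zero.1 h2
    · have : 1 * L ≤ (A - B).natAbs * L := Nat.mul_le_mul_right L h3
      omega
  subst ht0
  refine ⟨rfl, lane_ext i u ?_⟩
  omega

/-- the vertices next to `x` are in the neighbourhood of `c` as well -/
theorem star_step (hL : 2 ≤ L) {E : Fin N → Fin N → Prop} {c x y : Vx L N} {σ : ℤ ⊕ ℤ}
    (hc1 : c.1.2.1 = false) (hc2 : c.1.2.2.val = 0) (hx : StarR E c x σ) (hd : dp σ + 1 < L)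
    (h : Arc False E x y ∨ Arc False E y x) : ∃ σ', StarR E c y σ' ∧ dp σ' ≤ dp σ + 1 := by
  obtain ⟨⟨pc, κc, jc⟩, ic, uc, vc⟩ := c
  simp only at hc1 hc2
  subst hc1
  have lane : ∀ {p p' : Bool} {j j' : Fin L} {v v' : Fin N} {t : ℤ},
      (pos (((p, false, j), ic, uc, v) : Vx L N) : ℤ) =
        pos (((pc, false, jc), ic, uc, vc) : Vx L N) + t → t.natAbs + 1 < L →
      (Arc False E ((p, false, j), ic, uc, v) ((p', false, j'), ic, uc, v') ∨
        Arc False E ((p', false, j'), ic, uc, v') ((p, false, j), ic, uc, v)) →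
      ∃ σ', StarR E ((pc, false, jc), ic, uc, vc) ((p', false, j'), ic, uc, v') σ' ∧
        dp σ' ≤ t.natAbs + 1 := by
    intro p p' j j' v v' t ht hd h
    rw [lane_arc, lane_arc] at h
    rcases h with h | h
    · exact ⟨.inl (t + 1), ⟨rfl, rfl, rfl, by push_cast [h]; omega, by omega⟩,
        by simp only [dp]; omega⟩
    · exact ⟨.inl (t - 1), ⟨rfl, rfl, rfl, by push_cast [h] at ht ⊢; omega, by omega⟩,
        by simp only [dp]; omega⟩
  rcases σ with t | r
  · obtain ⟨⟨p, κ, j⟩, i, u, v⟩ := x
    obtain ⟨h1, h2, h3, h4, h5⟩ := hx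
    simp only at h1 h2 h3
    subst h1; subst h2; subst h3
    simp only [dp] at hd ⊢
    rcases h with h | h
    · cases h with
      | chain p κ hp j j' hj hj' τ =>
        exact lane h4 hd (Or.inl (.chain p false (by simp) _ _ hj hj' _))
      | first p κ hp j j' hj hj' τ =>
        rcases κ with _ | _
        · exact lane h4 hd (Or.inl (.first p false (by simp) _ _ hj hj' _))
        · obtain ⟨ht, he⟩ := node_ext i u hj hc2 h5 h4
          simp only [Prod.mk.injEq] at he
          obtain ⟨⟨rfl, _, rfl⟩, _, _, rfl⟩ := he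
          refine ⟨.inr 1, ⟨hp rfl, rfl, by simp; omega, Or.inl ⟨by norm_num, hp rfl, rfl, ?_⟩⟩, ?_⟩
          · simp only [hj']; norm_num
          · simp [dp]
      | next p j j' hj hj' i u v v' hv =>
        exact lane h4 hd (Or.inl (.next p _ _ hj hj' _ _ _ _ hv))
      | turn j j' hj hj' i u v v' hv hv' =>
        exact lane h4 hd (Or.inl (.turn _ _ hj hj' _ _ _ _ hv hv'))
    · cases h with
      | chain p κ hp j j' hj hj' τ =>
        exact lane h4 hd (Or.inr (.chain p false (by simp) _ _ hj hj' _))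
      | first p κ hp j j' hj hj' τ =>
        exact lane h4 hd (Or.inr (.first p false (by simp) _ _ hj hj' _))
      | next p j j' hj hj' i u v v' hv =>
        exact lane h4 hd (Or.inr (.next p _ _ hj hj' _ _ _ _ hv))
      | turn j j' hj hj' i u v v' hv hv' =>
        exact lane h4 hd (Or.inr (.turn _ _ hj hj' _ _ _ _ hv hv'))
      | cross j j' hj hj' i i' u v hi h =>
        obtain ⟨ht, he⟩ := node_ext _ _ hj' hc2 h5 h4
        simp only [Prod.mk.injEq] at he
        obtain ⟨⟨rfl, _, rfl⟩, _, _, rfl⟩ := he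
        refine ⟨.inr (-1), ⟨rfl, rfl, by simp; omega, Or.inr ⟨by norm_num, rfl, ?_, hi, rfl, rfl,
          h⟩⟩, ?_⟩
        · simp only; omega
        · simp [dp]
  · obtain ⟨⟨p, κ, j⟩, i, u, v⟩ := x
    obtain ⟨h1, h2, h3, h4⟩ := hx
    simp only at h1 h2
    subst h1; subst h2
    simp only [dp] at hd ⊢
    rcases h4 with ⟨h4, h5, h6, h7⟩ | ⟨h4, h5, h6, h7, h8, h9, h10⟩
    · simp only [Prod.mk.injEq] at h5 h6 h7
      subst h5
      obtain ⟨rfl, rfl, rfl⟩ := h6
      rcases h with h | h
      · cases h with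
        | chain p κ hp j j' hj hj' τ =>
          refine ⟨.inr (r + 1), ⟨rfl, rfl, by omega, Or.inl ⟨by omega, rfl, rfl, ?_⟩⟩, ?_⟩
          · simp only; omega
          · simp only [dp]; omega
        | cross j j' hj hj' i i' u v hi h => omega
      · cases h with
        | chain p κ hp j j' hj hj' τ =>
          refine ⟨.inr (r - 1), ⟨rfl, rfl, by omega, Or.inl ⟨by omega, rfl, rfl, ?_⟩⟩, ?_⟩
          · simp only; omega
          · simp only [dp]; omega
        | first p κ hp j j' hj hj' τ =>
          refine ⟨.inl 0, ⟨rfl, rfl, rfl, ?_, by simp; omega⟩, by simp [dp]⟩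
          rw [show j = jc from Fin.ext (by omega)]
          simp
    · simp only at h5 h6 h7 h8 h9 h10
      subst h5; subst h8; subst h9
      rcases h with h | h
      · cases h with
        | chain p κ hp j j' hj hj' τ =>
          have := j'.2
          refine ⟨.inr (r + 1), ⟨rfl, rfl, by omega, Or.inr ⟨by omega, rfl, ?_, h7, rfl, rfl,
            h10⟩⟩, ?_⟩
          · simp only; omega
          · simp only [dp]; omega
        | cross j j' hj hj' i i' u v hi h =>
          refine ⟨.inl 0, ⟨rfl, Fin.ext (by simp only; omega), rfl, ?_, by simp; omega⟩,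
            by simp [dp]⟩
          simp only [pos]
          rw [show j' = jc from Fin.ext (by omega)]
          simp
      · cases h with
        | chain p κ hp j j' hj hj' τ =>
          refine ⟨.inr (r - 1), ⟨rfl, rfl, by omega, Or.inr ⟨by omega, rfl, ?_, h7, rfl, rfl,
            h10⟩⟩, ?_⟩
          · simp only; omega
          · simp only [dp]; omega
        | first p κ hp j j' hj hj' τ => omega

theorem star_self {E : Fin N → Fin N → Prop} (hL : 2 ≤ L) {c : Vx L N} (hc1 : c.1.2.1 = false) :
    StarR E c c (.inl 0) := ⟨hc1, rfl, rfl, by simp, by simp; omega⟩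

theorem star_inj {E : Fin N → Fin N → Prop} {c x y : Vx L N} {σ : ℤ ⊕ ℤ}
    (hx : StarR E c x σ) (hy : StarR E c y σ) : x = y := by
  obtain ⟨⟨p, κ, j⟩, i, u, v⟩ := x
  obtain ⟨⟨p', κ', j'⟩, i', u', v'⟩ := y
  rcases σ with t | r
  · obtain ⟨h1, h2, h3, h4, h5⟩ := hx
    obtain ⟨h1', h2', h3', h4', h5'⟩ := hy
    simp only at h1 h2 h3 h1' h2' h3'
    subst h1; subst h2; subst h3; subst h1'; subst h2'; subst h3'
    exact lane_ext _ _ (by omega)
  · obtain ⟨h1, h2, h3, h4⟩ := hx
    obtain ⟨h1', h2', h3', h4'⟩ := hy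
    simp only at h1 h2 h1' h2'
    subst h1; subst h2; subst h1'; subst h2'
    rcases h4 with ⟨h4, h5, h6, h7⟩ | ⟨h4, h5, h6, h7, h8, h9, h10⟩ <;>
      rcases h4' with ⟨h4', h5', h6', h7'⟩ | ⟨h4', h5', h6', h7', h8', h9', h10'⟩
    · simp only at h6 h7 h6' h7'
      rw [h6, h6', show j = j' from Fin.ext (by omega)]
    · omega
    · omega
    · simp only at h6 h7 h8 h9 h6' h7' h8' h9'
      rw [h8, h8', h9, h9', show j = j' from Fin.ext (by omega),
        show i = i' from Fin.ext (by omega)]

theorem star_arc (hL : 2 ≤ L) {E : Fin N → Fin N → Prop} {c x y : Vx L N} {σ σ' : ℤ ⊕ ℤ}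
    (hc1 : c.1.2.1 = false) (hc2 : c.1.2.2.val = 0)
    (hx : StarR E c x σ) (hy : StarR E c y σ') : Arc False E x y ↔ XArc σ σ' := by
  have hxc : σ = .inl 0 → x = c := fun h => star_inj (h ▸ hx) (star_self hL hc1)
  have hyc : σ' = .inl 0 → y = c := fun h => star_inj (h ▸ hy) (star_self hL hc1)
  obtain ⟨⟨p, κ, j⟩, i, u, v⟩ := x
  obtain ⟨⟨p', κ', j'⟩, i', u', v'⟩ := y
  rcases σ with t | r <;> rcases σ' with t' | r'
  · obtain ⟨h1, h2, h3, h4, h5⟩ := hx
    obtain ⟨h1', h2', h3', h4', h5'⟩ := hy
    simp only at h1 h2 h3 h1' h2' h3'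
    subst h1; subst h2; subst h3; subst h1'; subst h2'; subst h3'
    rw [lane_arc]
    simp only [XArc]
    omega
  · obtain ⟨⟨pc, κc, jc⟩, ic, uc, vc⟩ := c
    simp only at hc1 hc2
    subst hc1
    obtain ⟨h1, h2, h3, h4, h5⟩ := hx
    obtain ⟨h1', h2', h3', h4'⟩ := hy
    simp only at h1 h2 h3 h1' h2'
    subst h1; subst h2; subst h3; subst h1'; subst h2'
    simp only [XArc]
    constructor
    · intro h
      cases h with
      | first p κ hp j j' hj hj' τ =>
        rcases h4' with ⟨h4', h5', h6', h7'⟩ | ⟨h4', h5', h6', h7', h8', h9', h10'⟩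
        · simp only [Prod.mk.injEq] at h5' h6' h7'
          obtain ⟨_, _, rfl⟩ := h6'
          subst h5'
          refine ⟨?_, by omega⟩
          rw [show j = jc from Fin.ext (by omega)] at h4
          omega
        · simp only at h7'
          omega
    · rintro ⟨ht, hr⟩
      have := hxc (by rw [ht])
      rw [this]
      rcases h4' with ⟨h4', h5', h6', h7'⟩ | ⟨h4', _⟩
      · simp only at h5' h6' h7'
        rw [h6', h5']
        exact .first true true (fun _ => rfl) _ _ hc2 (by omega) _
      · omega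
  · obtain ⟨⟨pc, κc, jc⟩, ic, uc, vc⟩ := c
    simp only at hc1 hc2
    subst hc1
    obtain ⟨h1, h2, h3, h4⟩ := hx
    obtain ⟨h1', h2', h3', h4', h5'⟩ := hy
    simp only at h1 h2 h1' h2' h3'
    subst h1; subst h2; subst h1'; subst h2'; subst h3'
    simp only [XArc]
    constructor
    · intro h
      cases h with
      | cross j j' hj hj' i i' u v hi h =>
        rcases h4 with ⟨h4, h5, h6, h7⟩ | ⟨h4, h5, h6, h7, h8, h9, h10⟩
        · simp only [Prod.mk.injEq] at h6
          obtain ⟨rfl, _⟩ := h6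
          omega
        · simp only at h5 h6 h7 h8 h9
          subst h5; subst h8
          refine ⟨by omega, ?_⟩
          simp only [pos] at h4'
          rw [show j' = jc from Fin.ext (by omega)] at h4'
          omega
    · rintro ⟨hr, ht⟩
      have := hyc (by rw [ht])
      rw [this]
      rcases h4 with ⟨h4, _⟩ | ⟨h4, h5, h6, h7, h8, h9, h10⟩
      · omega
      · simp only at h5 h6 h7 h8 h9 h10
        subst h5; subst h8; subst h9
        exact .cross _ _ (by omega) hc2 _ _ _ _ h7 h10
  · obtain ⟨h1, h2, h3, h4⟩ := hx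
    obtain ⟨h1', h2', h3', h4'⟩ := hy
    simp only at h1 h2 h1' h2'
    subst h1; subst h2; subst h1'; subst h2'
    simp only [XArc]
    constructor
    · intro h
      cases h with
      | chain p κ hp j j' hj hj' τ =>
        rcases h4 with ⟨h4, h5, h6, h7⟩ | ⟨h4, h5, h6, h7, h8, h9, h10⟩ <;>
          rcases h4' with ⟨h4', h5', h6', h7'⟩ | ⟨h4', h5', h6', h7', h8', h9', h10'⟩
        · simp only at h7 h7'; omega
        · rw [h5] at h5'; simp at h5'
        · rw [h5] at h5'; simp at h5'
        · simp only at h6 h6'; omega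
    · intro hr
      rcases h4 with ⟨h4, h5, h6, h7⟩ | ⟨h4, h5, h6, h7, h8, h9, h10⟩ <;>
        rcases h4' with ⟨h4', h5', h6', h7'⟩ | ⟨h4', h5', h6', h7', h8', h9', h10'⟩
      · simp only at h6 h7 h6' h7'
        rw [h6, h6']
        exact .chain true true (fun _ => rfl) _ _ (by omega) (by omega) _
      · rw [h5] at h5'; simp at h5'
      · rw [h5] at h5'; simp at h5'
      · simp only at h6 h7 h8 h9 h6' h7' h8' h9'
        rw [h8, h8', h9, h9', show i = i' from Fin.ext (by omega)]
        exact .chain true true (fun _ => rfl) _ _ (by omega) (by omega) _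

end Pool.Agent.W987
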