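import Mathlib
import Pool.Agent.H534R2.HFree
import Pool.Agent.W987.DagDefs

/-!
# Reachability in acyclic digraphs with few consecutive long merges
-/

namespace Pool.Agent.W987

open Relation Pool.Agent.H534R2

/-! ### A lemma on three levels of sets -/

/-- If the sets of the family `M0` are pairwise comparable up to passing to `M1`, and those of `M1`
up to passing to `M2`, then the sets of `M2` have a common element. -/
theorem two_step {P S : Type} [Finite P] [Nonempty P] (M0 M1 M2 : P → S → Prop)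
    (h01 : ∀ p b, M0 p b → M1 p b) (hne : ∀ p, ∃ b, M0 p b)
    (c0 : ∀ p q, (∀ b, M0 p b → M1 q b) ∨ (∀ b, M0 q b → M1 p b))
    (c1 : ∀ p q, (∀ b, M1 p b → M2 q b) ∨ (∀ b, M1 q b → M2 p b)) : ∃ b, ∀ p, M2 p b := by
  by_contra hcon
  push Not at hcon
  choose b hb using hne
  choose g hg using hcon
  -- `f p` misses the element `b p` even on the last level
  let f : P → P := fun p => g (b p)
  have hf : ∀ p, ¬ M2 (f p) (b p) := fun p => hg (b p)
  have h1 : ∀ p q, M1 q (b p) → ∀ c, M1 (f p) c → M2 q c := by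
    intro p q hX
    rcases c1 q (f p) with h | h
    · exact absurd (h _ hX) (hf p)
    · exact h
  have h2 : ∀ p q, M1 q (b p) ∨ M1 p (b q) := by
    intro p q
    rcases c0 p q with h | h
    · exact Or.inl (h _ (hb p))
    · exact Or.inr (h _ (hb q))
  have hself : ∀ p, M1 p (b p) := fun p => h01 _ _ (hb p)
  have h12 : ∀ p c, M1 p c → M2 p c := by
    intro p c hc
    rcases c1 p p with h | h <;> exact h _ hc
  obtain ⟨p0⟩ := ‹Nonempty P›
  let u : ℕ → P := fun n => f^[n] p0
  have hu : ∀ n, u (n + 1) = f (u n) := fun n => Function.iterate_succ_apply' f n p0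
  have key : ∀ d i, ¬ M1 (u (i + d + 1)) (b (u i)) := by
    intro d
    induction d using Nat.strong_induction_on with
    | _ d ih =>
      intro i h
      rcases d with _ | d
      · have := h12 _ _ h
        rw [Nat.add_zero, hu] at this
        exact hf _ this
      · have h3 := h1 _ _ h (b (u (i + d + 1)))
        rw [← hu] at h3
        have h4 : M1 (u (i + 1)) (b (u (i + d + 1))) := by
          rcases d with _ | d
          · exact hself _
          · rcases h2 (u (i + 1)) (u (i + (d + 1) + 1)) with h5 | h5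
            · rw [show i + (d + 1) + 1 = i + 1 + d + 1 by omega] at h5
              exact absurd h5 (ih d (by omega) (i + 1))
            · exact h5
        have h5 := h3 h4
        rw [show i + (d + 1) + 1 = (i + d + 1) + 1 by omega, hu] at h5
        exact hf _ h5
  obtain ⟨i, j, hij, he⟩ := Finite.exists_ne_map_eq_of_infinite u
  rcases lt_or_gt_of_ne hij with h | h
  · have := key (j - i - 1) i
    rw [show i + (j - i - 1) + 1 = j by omega, ← he] at this
    exact this (hself _)
  · have := key (i - j - 1) j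
    rw [show j + (i - j - 1) + 1 = i by omega, he] at this
    exact this (hself _)

/-! ### Bounded walks -/

section walks

variable {V : Type} {E : V → V → Prop}

/-- there is a walk with at most `r` arcs -/
def Wk (E : V → V → Prop) : ℕ → V → V → Prop
  | 0, x, y => x = y
  | r + 1, x, y => Wk E r x y ∨ ∃ z, Wk E r x z ∧ E z y

theorem Wk.refl (r : ℕ) (x : V) : Wk E r x x := by
  induction r with
  | zero => rfl
  | succ r ih => exact Or.inl ih

theorem Wk.mono {r s : ℕ} (h : r ≤ s) {x y : V} (hx : Wk E r x y) : Wk E s x y := by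
  induction s with
  | zero => rwa [Nat.le_zero.1 h] at hx
  | succ s ih =>
    rcases Nat.lt_or_ge r (s + 1) with h' | h'
    · exact Or.inl (ih (by omega))
    · rwa [show r = s + 1 by omega] at hx

theorem Wk.tail {r : ℕ} {x y z : V} (h : Wk E r x y) (h' : E y z) : Wk E (r + 1) x z :=
  Or.inr ⟨y, h, h'⟩

theorem Wk.trans {r s : ℕ} {x y z : V} (h : Wk E r x y) (h' : Wk E s y z) :
    Wk E (r + s) x z := by
  induction s generalizing z with
  | zero => rwa [show y = z from h'] at h
  | succ s ih =>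
    rcases h' with h' | ⟨w, h1, h2⟩
    · exact Wk.mono (by omega) (ih h')
    · exact (ih h1).tail h2

theorem Wk.head {r : ℕ} {x y z : V} (h : E x y) (h' : Wk E r y z) : Wk E (r + 1) x z := by
  have : Wk E 1 x y := Or.inr ⟨x, rfl, h⟩
  exact Wk.mono (by omega) (this.trans h')

theorem Wk.reach {r : ℕ} {x y : V} (h : Wk E r x y) : ReflTransGen E x y := by
  induction r generalizing y with
  | zero => rw [show x = y from h]
  | succ r ih =>
    rcases h with h | ⟨z, h1, h2⟩
    · exact ih h
    · exact (ih h1).tail h2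

theorem Wk.of_fun {p : ℕ → V} {l : ℕ} (hp : ∀ i, i < l → E (p i) (p (i + 1))) :
    ∀ i ≤ l, Wk E i (p 0) (p i) := by
  intro i
  induction i with
  | zero => exact fun _ => rfl
  | succ i ih => exact fun hi => (ih (by omega)).tail (hp i (by omega))

/-- a reachable vertex which is not within distance `k - 1` is reached through a vertex at distance
exactly `k` -/
theorem exists_at_distance {k : ℕ} (hk : 1 ≤ k) {s w : V} (h : ReflTransGen E s w)
    (hn : ¬ Wk E (k - 1) s w) :
    ∃ p, ReflTransGen E s p ∧ Wk E k p w ∧ ¬ Wk E (k - 1) p w := by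
  induction h using ReflTransGen.head_induction_on with
  | refl => exact absurd (Wk.refl _ _) hn
  | @head a c hac hcw ih =>
    by_cases h : Wk E (k - 1) c w
    · exact ⟨a, .refl, (Wk.head hac h).mono (by omega), hn⟩
    · obtain ⟨p, h1, h2⟩ := ih h
      exact ⟨p, h1.head hac, h2⟩

/-! ### Merging paths -/

/-- the vertices on the walks with at most `r` arcs from `p` to `b` -/
def Span (E : V → V → Prop) (r : ℕ) (p b z : V) : Prop :=
  ∃ i j, i + j ≤ r ∧ Wk E i p z ∧ Wk E j z b

/-- arcs between vertices that satisfy `A` -/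
def Rst (E : V → V → Prop) (A : V → Prop) (x y : V) : Prop := E x y ∧ A x ∧ A y

theorem span_reach {r : ℕ} {p b : V} (i : ℕ) : ∀ (j : ℕ) (z : V), i + j ≤ r → Wk E i p z →
    Wk E j z b → ReflTransGen (Rst E (Span E r p b)) p z := by
  induction i with
  | zero =>
    intro j z _ h _
    rw [show p = z from h]
  | succ i ih =>
    intro j z hij h hz
    rcases h with h | ⟨y, h1, h2⟩
    · exact ih j z (by omega) h hz
    · have hy : Wk E (j + 1) y b := Wk.head h2 hz
      exact (ih (j + 1) y (by omega) h1 hy).tail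
        ⟨h2, ⟨i, j + 1, by omega, h1, hy⟩, ⟨i + 1, j, hij, h1.tail h2, hz⟩⟩

/-- the last part of an induced path from `p` to `w` through `b` -/
theorem exists_leg {k r : ℕ} {w b p : V}
    (hac : ∀ v, ReflTransGen E v w → ¬ TransGen E v v) (hb : E b w) (h1 : Wk E r p b)
    (hp : ¬ Wk E (k - 1) p w) :
    ∃ x : ℕ → V, x 0 = w ∧ (∀ i j, i ≤ k → j ≤ k → i ≠ j → x i ≠ x j) ∧
      (∀ i j, i ≤ k → j ≤ k → (E (x i) (x j) ↔ i = j + 1)) ∧
      ∀ i, 1 ≤ i → i ≤ k → Span E r p b (x i) := by
  have hw : ¬ Span E r p b w := by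
    rintro ⟨i, j, _, _, h⟩
    exact hac w .refl (TransGen.tail' h.reach hb)
  let A : V → Prop := fun z => Span E r p b z ∨ z = w
  have hpw : ReflTransGen (Rst E A) p w := by
    have h2 := span_reach (r := r) (E := E) (p := p) (b := b) r 0 b (by omega) h1 rfl
    have h3 : ReflTransGen (Rst E A) p b := by
      have hle : Rst E (Span E r p b) ≤ Rst E A := fun x y h => ⟨h.1, Or.inl h.2.1, Or.inl h.2.2⟩
      exact ReflTransGen.mono hle _ _ h2
    exact h3.tail ⟨hb, Or.inl ⟨r, 0, by omega, h1, rfl⟩, Or.inr rfl⟩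
  obtain ⟨y, l, hg, h0, hl⟩ := exists_geo hpw
  have hA : ∀ i, i ≤ l → A (y i) := by
    intro i hi
    rcases Nat.lt_or_ge i l with h | h
    · exact (hg.arc i h).2.1
    · rw [show i = l by omega, hl]; exact Or.inr rfl
  have hkl : k ≤ l := by
    by_contra hkl
    have h2 := Wk.of_fun (E := E) (p := y) (l := l) (fun i hi => (hg.arc i hi).1) l le_rfl
    rw [h0, hl] at h2
    exact hp (h2.mono (by omega))
  have hreach : ∀ i j, i ≤ j → j ≤ l → ReflTransGen E (y i) (y j) := by
    intro i j hij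
    induction j, hij using Nat.le_induction with
    | base => exact fun _ => .refl
    | succ j _ ih => exact fun hj => (ih (by omega)).tail (hg.arc j (by omega)).1
  have hinj : ∀ i j, i ≤ l → j ≤ l → y i = y j → i = j := by
    intro i j hi hj h
    rcases Nat.lt_trichotomy i j with h' | h' | h'
    · exact absurd h (hg.inj i j h' hj)
    · exact h'
    · exact absurd h.symm (hg.inj j i h' hi)
  have harc : ∀ i j, i ≤ l → j ≤ l → (E (y i) (y j) ↔ j = i + 1) := by
    intro i j hi hj
    constructor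
    · intro h
      by_contra hne
      rcases Nat.lt_or_ge i j with h' | h'
      · exact hg.noshort i j (by omega) hj ⟨h, hA i hi, hA j hj⟩
      · have h3 := hreach j i h' hi
        have h4 := hreach i l hi le_rfl
        rw [hl] at h4
        exact hac (y i) h4 (TransGen.head' h h3)
    · rintro rfl
      exact (hg.arc i (by omega)).1
  refine ⟨fun i => y (l - i), by simp [hl], ?_, ?_, ?_⟩
  · intro i j hi hj hij h
    have := hinj _ _ (by omega) (by omega) h
    omega
  · intro i j hi hj
    simp only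
    rw [harc _ _ (by omega) (by omega)]
    omega
  · intro i hi1 hi
    rcases hA (l - i) (by omega) with h | h
    · exact h
    · rw [← hl] at h
      have := hinj _ _ (by omega) le_rfl h
      omega

theorem merge_of_indep {k r : ℕ} {w b b' p q : V}
    (hac : ∀ v, ReflTransGen E v w → ¬ TransGen E v v) (hb : E b w) (hb' : E b' w)
    (h1 : Wk E r p b) (h2 : Wk E r q b') (hp : ¬ Wk E (k - 1) p w) (hq : ¬ Wk E (k - 1) q w)
    (n1 : ¬ Wk E (2 * r + 1) p b') (n2 : ¬ Wk E (2 * r + 1) q b) : MergeAt E k w := by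
  obtain ⟨x, x0, xinj, xarc, xS⟩ := exists_leg hac hb h1 hp
  obtain ⟨y, y0, yinj, yarc, yS⟩ := exists_leg hac hb' h2 hq
  have c1 : ∀ z z', Span E r p b z → Span E r q b' z' → z ≠ z' ∧ ¬ E z z' ∧ ¬ E z' z := by
    rintro z z' ⟨i, j, hij, hi, hj⟩ ⟨i', j', hij', hi', hj'⟩
    refine ⟨?_, fun h => ?_, fun h => ?_⟩
    · rintro rfl
      exact n1 ((hi.trans hj').mono (by omega))
    · exact n1 (((hi.tail h).trans hj').mono (by omega))
    · exact n2 (((hi'.tail h).trans hj).mono (by omega))
  have cw : ∀ z, Span E r p b z ∨ Span E r q b' z → z ≠ w ∧ ¬ E w z := by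
    intro z hz
    have h3 : TransGen E z w := by
      rcases hz with ⟨i, j, _, _, hj⟩ | ⟨i, j, _, _, hj⟩
      · exact TransGen.tail' hj.reach hb
      · exact TransGen.tail' hj.reach hb'
    constructor
    · rintro rfl
      exact hac _ .refl h3
    · intro h
      exact hac w .refl (TransGen.head h h3)
  let f : ℤ → V := fun t => if 0 ≤ t then x t.toNat else y (-t).toNat
  have f1 : ∀ t : ℤ, 0 ≤ t → f t = x t.toNat := fun t ht => by simp [f, ht]
  have f2 : ∀ t : ℤ, t < 0 → f t = y (-t).toNat := fun t ht => by simp [f, not_le.2 ht]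
  refine ⟨f, by rw [f1 0 le_rfl]; exact x0, fun a c ha hc hne => ?_⟩
  have ha' := abs_le.1 ha
  have hc' := abs_le.1 hc
  unfold Merge
  rcases le_or_gt 0 a with h | h <;> rcases le_or_gt 0 c with h' | h'
  · rw [f1 a h, f1 c h']
    refine ⟨xinj _ _ (by omega) (by omega) (by omega), ?_⟩
    rw [xarc _ _ (by omega) (by omega)]
    omega
  · rw [f1 a h, f2 c h']
    have hcS := yS (-c).toNat (by omega) (by omega)
    rcases eq_or_lt_of_le h with h3 | h3
    · rw [← h3, Int.toNat_zero, x0]
      have := cw _ (Or.inr hcS)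
      refine ⟨this.1.symm, ⟨fun h => by omega, fun h => absurd h this.2⟩⟩
    · have := c1 _ _ (xS a.toNat (by omega) (by omega)) hcS
      exact ⟨this.1, ⟨fun h => by omega, fun h => absurd h this.2.1⟩⟩
  · rw [f2 a h, f1 c h']
    have haS := yS (-a).toNat (by omega) (by omega)
    rcases eq_or_lt_of_le h' with h3 | h3
    · rw [← h3, Int.toNat_zero, x0]
      have := cw _ (Or.inr haS)
      refine ⟨this.1, ?_⟩
      rw [← y0, yarc _ _ (by omega) (by omega)]
      omega
    · have := c1 _ _ (xS c.toNat (by omega) (by omega)) haS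
      exact ⟨this.1.symm, ⟨fun h => by omega, fun h => absurd h this.2.2⟩⟩
  · rw [f2 a h, f2 c h']
    refine ⟨yinj _ _ (by omega) (by omega) (by omega), ?_⟩
    rw [yarc _ _ (by omega) (by omega)]
    omega

/-- If no two long paths merge in `w`, then some in-neighbour of `w` is reached within distance
`4 k - 1` from all vertices at distance `k` from `w`. -/
theorem exists_canonical [Finite V] {k : ℕ} (hk : 1 ≤ k) {w p : V}
    (hac : ∀ v, ReflTransGen E v w → ¬ TransGen E v v) (hno : ¬ MergeAt E k w)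
    (hp : Wk E k p w) (hp' : ¬ Wk E (k - 1) p w) :
    ∃ b, E b w ∧ ∀ q, Wk E k q w → ¬ Wk E (k - 1) q w → Wk E (4 * k - 1) q b := by
  let P := {q : V // Wk E k q w ∧ ¬ Wk E (k - 1) q w}
  have : Nonempty P := ⟨⟨p, hp, hp'⟩⟩
  have comp : ∀ r : ℕ, ∀ q q' : P, (∀ b, (E b w ∧ Wk E r q.1 b) → (E b w ∧ Wk E (2 * r + 1) q'.1 b)) ∨
      (∀ b, (E b w ∧ Wk E r q'.1 b) → (E b w ∧ Wk E (2 * r + 1) q.1 b)) := by
    intro r q q'
    by_contra hcon
    push Not at hcon
    obtain ⟨⟨b, ⟨hb1, hb2⟩, hb3⟩, ⟨b', ⟨hb1', hb2'⟩, hb3'⟩⟩ := hcon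
    exact hno (merge_of_indep hac hb1 hb1' hb2 hb2' q.2.2 q'.2.2 (hb3' hb1') (hb3 hb1))
  obtain ⟨b, hb⟩ := two_step (P := P) (S := V) (fun q b => E b w ∧ Wk E (k - 1) q.1 b)
    (fun q b => E b w ∧ Wk E (2 * (k - 1) + 1) q.1 b)
    (fun q b => E b w ∧ Wk E (2 * (2 * (k - 1) + 1) + 1) q.1 b)
    (fun q b h => ⟨h.1, h.2.mono (by omega)⟩) (fun q => by
      obtain ⟨q, h1, h2⟩ := q
      obtain ⟨k', rfl⟩ : ∃ k', k = k' + 1 := ⟨k - 1, by omega⟩
      rcases h1 with h | ⟨z, h3, h4⟩
      · exact absurd h h2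
      · exact ⟨z, h4, h3⟩) (comp _) (comp _)
  refine ⟨b, (hb ⟨p, hp, hp'⟩).1, fun q h1 h2 => ?_⟩
  exact (hb ⟨q, h1, h2⟩).2.mono (by omega)

/-! ### The formula -/

/-- `b` is an in-neighbour of `w` that is reached, within distance `4 k - 1`, from all vertices at
distance `k` from `w`, and `s` is not within distance `k - 1` of `w` -/
def Can (E : V → V → Prop) (k : ℕ) (s w b : V) : Prop :=
  E b w ∧ ¬ Wk E (k - 1) s w ∧ ∀ q, Wk E k q w → ¬ Wk E (k - 1) q w → Wk E (4 * k - 1) q b

/-- reachability certified with at most `m` guesses -/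
def Cert (E : V → V → Prop) (k : ℕ) : ℕ → V → V → Prop
  | 0, s, d => ∃ w, EqvGen (Can E k s) d w ∧ Wk E (k - 1) s w
  | m + 1, s, d => Cert E k m s d ∨ ∃ w, EqvGen (Can E k s) d w ∧ ∃ b, E b w ∧ Cert E k m s b

theorem can_iff {k : ℕ} (hk : 1 ≤ k) {s w b : V} (h : Can E k s w b) :
    ReflTransGen E s w ↔ ReflTransGen E s b := by
  refine ⟨fun hs => ?_, fun hs => hs.tail h.1⟩
  obtain ⟨p, h1, h2, h3⟩ := exists_at_distance hk hs h.2.1
  exact h1.trans (h.2.2 p h2 h3).reach

theorem eqv_can_iff {k : ℕ} (hk : 1 ≤ k) {s w b : V} (h : EqvGen (Can E k s) w b) :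
    ReflTransGen E s w ↔ ReflTransGen E s b := by
  induction h with
  | rel a b h => exact can_iff hk h
  | refl a => exact Iff.rfl
  | symm a b _ ih => exact ih.symm
  | trans a b c _ _ h1 h2 => exact h1.trans h2

theorem cert_sound {k : ℕ} (hk : 1 ≤ k) (m : ℕ) : ∀ {s d : V}, Cert E k m s d →
    ReflTransGen E s d := by
  induction m with
  | zero =>
    rintro s d ⟨w, h1, h2⟩
    exact (eqv_can_iff hk h1).2 h2.reach
  | succ m ih =>
    rintro s d (h | ⟨w, h1, b, h2, h3⟩)
    · exact ih h
    · exact (eqv_can_iff hk h1).2 ((ih h3).tail h2)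

theorem Cert.mono {k m m' : ℕ} (h : m ≤ m') {s d : V} (hc : Cert E k m s d) : Cert E k m' s d := by
  induction m', h using Nat.le_induction with
  | base => exact hc
  | succ m' _ ih => exact Or.inl ih

theorem Cert.eqv {k m : ℕ} {s d e : V} (h : EqvGen (Can E k s) d e) (hc : Cert E k m s e) :
    Cert E k m s d := by
  induction m with
  | zero =>
    obtain ⟨w, h1, h2⟩ := hc
    exact ⟨w, h.trans _ _ _ h1, h2⟩
  | succ m ih =>
    rcases hc with hc | ⟨w, h1, h2⟩
    · exact Or.inl (ih hc)
    · exact Or.inr ⟨w, h.trans _ _ _ h1, h2⟩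

theorem FewMerges.of_reach {k m : ℕ} {d e : V} (h : FewMerges E k m d)
    (hr : ReflTransGen E e d) : FewMerges E k m e :=
  ⟨fun v hv => h.1 v (hv.trans hr), fun ⟨c, h1, h2, h3⟩ => h.2 ⟨c, h1, h2, h3.trans hr⟩⟩

/-- above a merge one merge less remains -/
theorem FewMerges.above {k m : ℕ} {d e : V} (h : FewMerges E k (m + 1) d) (hd : MergeAt E k d)
    (hr : E e d) : FewMerges E k m e := by
  refine ⟨fun v hv => h.1 v (hv.tail hr), ?_⟩
  rintro ⟨c, h1, h2, h3⟩
  refine h.2 ⟨fun i => if i ≤ m then c i else d, ?_, ?_, ?_⟩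
  · intro i hi
    by_cases h' : i ≤ m
    · simp only [h', if_true]; exact h1 i h'
    · simp only [h', if_false]; exact hd
  · intro i hi
    by_cases h' : i + 1 ≤ m
    · simp only [h', show i ≤ m by omega, if_true]; exact h2 i h'
    · simp only [h', show i ≤ m by omega, if_true, if_false]
      rw [show i = m by omega]
      exact TransGen.tail' h3 hr
  · simp only [show ¬ (m + 1 ≤ m) by omega, if_false]
    exact .refl

theorem FewMerges.not_zero {k : ℕ} {d : V} (h : FewMerges E k 0 d) : ¬ MergeAt E k d :=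
  fun hd => h.2 ⟨fun _ => d, fun _ _ => hd, fun i hi => absurd hi (Nat.not_lt_zero i), .refl⟩

theorem cert_complete [Finite V] {k : ℕ} (hk : 1 ≤ k) {s : V} (n : ℕ) : ∀ (m : ℕ) (d : V),
    FewMerges E k m d → ReflTransGen E s d → {v | ReflTransGen E v d}.ncard ≤ n →
    Cert E k m s d := by
  induction n with
  | zero =>
    intro m d _ _ hn
    have : ({v | ReflTransGen E v d} : Set V) = ∅ := (Set.ncard_eq_zero (Set.toFinite _)).1
      (Nat.le_zero.1 hn)
    have hd : d ∈ ({v | ReflTransGen E v d} : Set V) := ReflTransGen.refl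
    rw [this] at hd
    exact hd.elim
  | succ n ih =>
    intro m d hF hs hn
    -- passing to an in-neighbour
    have hdec : ∀ b, E b d → {v | ReflTransGen E v b}.ncard ≤ n := by
      intro b hb
      have h1 : ({v | ReflTransGen E v b} : Set V) ⊂ {v | ReflTransGen E v d} := by
        refine ⟨fun v hv => ReflTransGen.tail hv hb, fun hsub => ?_⟩
        have : ReflTransGen E d b := hsub (show d ∈ {v | ReflTransGen E v d} from .refl)
        exact hF.1 d .refl (TransGen.tail' this hb)
      have := Set.ncard_lt_ncard h1 (Set.toFinite _)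
      omega
    by_cases h0 : Wk E (k - 1) s d
    · exact Cert.mono (Nat.zero_le m) ⟨d, EqvGen.refl d, h0⟩
    by_cases hM : MergeAt E k d
    · rcases m with _ | m
      · exact absurd hM hF.not_zero
      · rcases ReflTransGen.cases_tail hs with h | ⟨b, h1, h2⟩
        · rw [← h] at h0
          exact absurd (Wk.refl _ _) h0
        · exact Or.inr ⟨d, EqvGen.refl d, b, h2, ih m b (hF.above hM h2) h1 (hdec b h2)⟩
    · obtain ⟨p, _, h2, h3⟩ := exists_at_distance hk hs h0
      obtain ⟨b, h4, h5⟩ := exists_canonical hk hF.1 hM h2 h3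
      have hcan : Can E k s d b := ⟨h4, h0, h5⟩
      exact Cert.eqv (EqvGen.rel _ _ hcan)
        (ih m b (hF.of_reach (.single h4)) ((can_iff hk hcan).1 hs) (hdec b h4))

end walks

theorem dfn_wk {R : BQry} (hR : Dfn2 R) (r : ℕ) : Dfn2 (fun V E => Wk (R V E) r) := by
  induction r with
  | zero => exact Dfn2.eq
  | succ r ih => exact ih.or (ih.comp hR)

theorem dfn_can {R : BQry} (hR : Dfn2 R) (k : ℕ) {n : ℕ} (i j l : Fin n) :
    Dfn (fun V E ν => Can (R V E) k (ν i) (ν j) (ν l)) := by
  have h1 : Dfn (n := n + 1) (fun V E ν => Wk (R V E) k (ν 0) (ν j.succ) →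
      ¬ Wk (R V E) (k - 1) (ν 0) (ν j.succ) → Wk (R V E) (4 * k - 1) (ν 0) (ν l.succ)) :=
    ((dfn_wk hR k).at _ _).imp (((dfn_wk hR (k - 1)).at _ _).neg.imp
      ((dfn_wk hR (4 * k - 1)).at _ _))
  exact ((hR.at l j).and (((dfn_wk hR (k - 1)).at i j).neg.and h1.all)).congr
    (fun V E ν => Iff.rfl)

theorem dfn_cert {R : BQry} (hR : Dfn2 R) (k m : ℕ) : Dfn2 (fun V E => Cert (R V E) k m) := by
  -- variables of the inner formulas: `w`, `s`, `d`
  have hc : Dfn (n := 3) (fun V E ν => EqvGen (Can (R V E) k (ν 1)) (ν 2) (ν 0)) := by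
    have h1 : Dfn (n := 5) (fun V E ν => Can (R V E) k (ν 3) (ν 0) (ν 1)) := dfn_can hR k _ _ _
    exact (h1.stc 2 0).congr (fun V E ν => Iff.rfl)
  induction m with
  | zero =>
    have h1 := (hc.and ((dfn_wk hR (k - 1)).at (n := 3) 1 0)).ex
    exact h1.congr (fun V E ν => Iff.rfl)
  | succ m ih =>
    have h2 : Dfn (n := 4) (fun V E ν => R V E (ν 0) (ν 1) ∧ Cert (R V E) k m (ν 2) (ν 0)) :=
      (hR.at 0 1).and (ih.at 2 0)
    have h1 := (hc.and h2.ex).ex
    exact (Dfn.or ih h1).congr (fun V E ν => Iff.rfl)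

theorem MergeAt.mono {V : Type} {E : V → V → Prop} {k k' : ℕ} (h : k ≤ k') {w : V}
    (hw : MergeAt E k' w) : MergeAt E k w := by
  obtain ⟨f, h0, hf⟩ := hw
  exact ⟨f, h0, fun x y hx hy => hf x y (hx.trans (by exact_mod_cast h))
    (hy.trans (by exact_mod_cast h))⟩

theorem FewMerges.mono {V : Type} {E : V → V → Prop} {k k' m : ℕ} (h : k ≤ k') {d : V}
    (hd : FewMerges E k m d) : FewMerges E k' m d :=
  ⟨hd.1, fun ⟨c, h1, h2⟩ => hd.2 ⟨c, fun i hi => (h1 i hi).mono h, h2⟩⟩

/-- One formula for all finite digraphs with few consecutive merges (or branchings). -/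
theorem exists_merge_formula (k m : ℕ) : ∃ φ : Fm 2, ∀ (V : Type) (E : V → V → Prop) (s d : V),
    (φ.Holds E ![s, d] → ReflTransGen E s d) ∧
    (Finite V → FewMerges E k m d ∨ FewBranches E k m s → ReflTransGen E s d →
      φ.Holds E ![s, d]) := by
  have h1 : Dfn2 (fun V E => Cert E (k + 1) m) := dfn_cert Dfn2.edge (k + 1) m
  have h2 : Dfn2 (fun V E => Cert (fun x y => E y x) (k + 1) m) :=
    dfn_cert Dfn2.edge.swap (k + 1) m
  obtain ⟨φ, hφ⟩ := h1.or h2.swap
  refine ⟨φ, fun V E s d => ⟨fun h => ?_, fun hfin hF h => ?_⟩⟩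
  · rw [hφ] at h
    rcases h with h | h
    · exact cert_sound (by omega) m h
    · exact reflTransGen_swap.1 (cert_sound (by omega) m h)
  · rw [hφ]
    rcases hF with hF | hF
    · exact Or.inl (cert_complete (by omega) _ m d (hF.mono (by omega)) h le_rfl)
    · refine Or.inr (cert_complete (E := fun x y => E y x) (by omega) _ m s
        (FewMerges.mono (by omega) hF) (reflTransGen_swap.2 h) le_rfl)

end Pool.Agent.W987
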