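import Mathlib
import Pool.Agent.W987.DagStar
import Pool.Agent.W987.DagUp

/-!
# Acyclic digraphs without a given connected induced subdigraph
-/

namespace Pool.Agent.W987

open Relation Pool.Agent.H534R2

/-- two arcs with a common head, which has one out-neighbour -/
def YIn (a b : Fin 4) : Prop := (a = 0 ∧ b = 2) ∨ (a = 1 ∧ b = 2) ∨ (a = 2 ∧ b = 3)

/-- the reverse of `YIn` -/
def YOut (a b : Fin 4) : Prop := YIn b a

theorem Contains.trans {V : Type} {E : V → V → Prop} {m k : ℕ} {H : Fin m → Fin m → Prop}
    {K : Fin k → Fin k → Prop} (h : Contains E H) (h' : Contains H K) : Contains E K := by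
  obtain ⟨f, f1, f2⟩ := h
  obtain ⟨g, g1, g2⟩ := h'
  exact ⟨f ∘ g, f1.comp g1, fun a b hab => (g2 a b hab).trans (f2 _ _ (g1.ne hab))⟩

section connected

variable {m : ℕ} {H : Fin m → Fin m → Prop}

/-- between a set of vertices and its complement there is an arc -/
theorem exists_change (hc : ∀ a b, EqvGen H a b) (P : Fin m → Prop) {a b : Fin m} (ha : P a)
    (hb : ¬ P b) : ∃ c d, (H c d ∨ H d c) ∧ P c ∧ ¬ P d := by
  by_contra hcon
  push Not at hcon
  have key : ∀ x y, EqvGen H x y → (P x ↔ P y) := by
    intro x y h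
    induction h with
    | rel x y h =>
      constructor
      · exact fun hx => hcon x y (Or.inl h) hx
      · exact fun hy => hcon y x (Or.inr h) hy
    | refl x => exact Iff.rfl
    | symm x y _ ih => exact ih.symm
    | trans x y z _ _ h1 h2 => exact h1.trans h2
  exact hb ((key _ _ (hc a b)).1 ha)

/-- a directed path -/
theorem contains_line (g : Fin m → ℤ) (g1 : Function.Injective g)
    (g2 : ∀ a b, a ≠ b → (H a b ↔ g b = g a + 1)) : Contains Merge H := by
  classical
  obtain ⟨K, hK⟩ : ∃ K : ℤ, ∀ a, g a ≤ K := by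
    rcases isEmpty_or_nonempty (Fin m) with h | h
    · exact ⟨0, fun a => (h.false a).elim⟩
    · obtain ⟨a, ha⟩ := Finite.exists_max g
      exact ⟨g a, ha⟩
  refine ⟨fun a => K - g a, fun a b h => g1 (by simp only at h; omega), fun a b hab => ?_⟩
  rw [g2 a b hab]
  have := hK a
  have := hK b
  simp only [Merge]
  omega

theorem classify (hc : ∀ a b, EqvGen H a b) (g : Fin m → ℤ ⊕ ℤ) (g1 : Function.Injective g)
    (g2 : ∀ a b, a ≠ b → (H a b ↔ XArc (g a) (g b))) (g0 : ∀ a, g a ≠ .inr 0)
    (gs : (∀ a r, g a = .inr r → 0 < r) ∨ (∀ a r, g a = .inr r → r < 0)) :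
    Contains H YIn ∨ Contains H YOut ∨ Contains Merge H ∨ Contains Branch H := by
  classical
  -- adjacent vertices are different
  have hadj : ∀ {c d : Fin m} {P : Fin m → Prop}, (H c d ∨ H d c) → P c → ¬ P d →
      XArc (g c) (g d) ∨ XArc (g d) (g c) := by
    intro c d P h h1 h2
    have hne : c ≠ d := by
      rintro rfl
      exact h2 h1
    rcases h with h | h
    · exact Or.inl ((g2 _ _ hne).1 h)
    · exact Or.inr ((g2 _ _ hne.symm).1 h)
  -- the coordinate on a line
  let lc : ℤ ⊕ ℤ → ℤ := fun σ => match σ with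
    | .inl t => t
    | .inr r => r
  have line : (∀ a b, a ≠ b → g a ≠ .inr 0 → g b ≠ .inr 0 →
      (lc (g a) ≠ lc (g b)) ∧ (XArc (g a) (g b) ↔ lc (g b) = lc (g a) + 1)) →
      Contains Merge H := by
    intro h
    refine contains_line (fun a => lc (g a)) (fun a b hab => ?_) (fun a b hab => ?_)
    · by_contra hne
      exact (h a b hne (g0 a) (g0 b)).1 hab
    · rw [g2 a b hab]
      exact (h a b hab (g0 a) (g0 b)).2
  by_cases hC : ∃ a r, g a = .inr r
  swap
  · -- only lane vertices
    push Not at hC
    refine Or.inr (Or.inr (Or.inl (line (fun a b hab _ _ => ?_))))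
    have hne : g a ≠ g b := g1.ne hab
    rcases ha : g a with t | r
    · rcases hb : g b with t' | r'
      · rw [ha, hb] at hne
        exact ⟨fun h => hne (by simp only [lc] at h; rw [h]), Iff.rfl⟩
      · exact absurd hb (hC _ _)
    · exact absurd ha (hC _ _)
  by_cases hN : ∃ a t, g a = .inl t ∧ t < 0
  swap
  · push Not at hN
    rcases gs with gs | gs
    · -- branching
      refine Or.inr (Or.inr (Or.inr ?_))
      refine ⟨fun a => match g a with | .inl t => t | .inr r => -r, ?_, ?_⟩
      · intro a b hab
        simp only at hab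
        apply g1
        rcases ha : g a with t | r <;> rcases hb : g b with t' | r' <;> rw [ha, hb] at hab <;>
          simp only at hab
        · rw [hab]
        · have := hN _ _ ha; have := gs _ _ hb; omega
        · have := gs _ _ ha; have := hN _ _ hb; omega
        · rw [show r = r' by omega]
      · intro a b hab
        rw [g2 a b hab]
        simp only
        rcases ha : g a with t | r <;> rcases hb : g b with t' | r' <;>
          simp only [XArc, Branch, Merge]
        · have := hN _ _ ha; have := hN _ _ hb; omega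
        · have := hN _ _ ha; have := gs _ _ hb; omega
        · have := gs _ _ ha; have := hN _ _ hb; omega
        · have := gs _ _ ha; have := gs _ _ hb; omega
    · -- a line
      refine Or.inr (Or.inr (Or.inl (line (fun a b hab _ _ => ?_))))
      have hne : g a ≠ g b := g1.ne hab
      rcases ha : g a with t | r <;> rcases hb : g b with t' | r' <;> rw [ha, hb] at hne <;>
        simp only [XArc, lc]
      · have : t ≠ t' := fun h => hne (by rw [h])
        exact ⟨this, trivial⟩
      · have := hN _ _ ha; have := gs _ _ hb; omega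
      · have := gs _ _ ha; have := hN _ _ hb; omega
      · have : r ≠ r' := fun h => hne (by rw [h])
        exact ⟨this, trivial⟩
  by_cases hP : ∃ a t, g a = .inl t ∧ 0 < t
  swap
  · push Not at hP
    rcases gs with gs | gs
    · -- a line
      refine Or.inr (Or.inr (Or.inl (line (fun a b hab _ _ => ?_))))
      have hne : g a ≠ g b := g1.ne hab
      rcases ha : g a with t | r <;> rcases hb : g b with t' | r' <;> rw [ha, hb] at hne <;>
        simp only [XArc, lc]
      · have : t ≠ t' := fun h => hne (by rw [h])
        exact ⟨this, trivial⟩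
      · have := hP _ _ ha; have := gs _ _ hb; omega
      · have := gs _ _ ha; have := hP _ _ hb; omega
      · have : r ≠ r' := fun h => hne (by rw [h])
        exact ⟨this, trivial⟩
    · -- merging
      refine Or.inr (Or.inr (Or.inl ?_))
      refine ⟨fun a => match g a with | .inl t => -t | .inr r => r, ?_, ?_⟩
      · intro a b hab
        simp only at hab
        apply g1
        rcases ha : g a with t | r <;> rcases hb : g b with t' | r' <;> rw [ha, hb] at hab <;>
          simp only at hab
        · rw [show t = t' by omega]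
        · have := hP _ _ ha; have := gs _ _ hb; omega
        · have := gs _ _ ha; have := hP _ _ hb; omega
        · rw [hab]
      · intro a b hab
        rw [g2 a b hab]
        simp only
        rcases ha : g a with t | r <;> rcases hb : g b with t' | r' <;>
          simp only [XArc, Merge]
        · have := hP _ _ ha; have := hP _ _ hb; omega
        · have := hP _ _ ha; have := gs _ _ hb; omega
        · have := gs _ _ ha; have := hP _ _ hb; omega
        · have := gs _ _ ha; have := gs _ _ hb; omega
  -- all three legs occur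
  obtain ⟨a0, r0, ha0⟩ := hC
  obtain ⟨b0, t0, hb0, ht0⟩ := hP
  obtain ⟨c0, s0, hc0, hs0⟩ := hN
  obtain ⟨c, d, hcd, ⟨r, hcr⟩, hd⟩ := exists_change hc (fun a => ∃ r, g a = .inr r)
    (a := a0) (b := b0) ⟨r0, ha0⟩ (by rintro ⟨r, hr⟩; rw [hb0] at hr; simp at hr)
  have hx := hadj hcd (P := fun a => ∃ r, g a = .inr r) ⟨r, hcr⟩ hd
  obtain ⟨td, hdt⟩ : ∃ t, g d = .inl t := by
    rcases h : g d with t | r'
    · exact ⟨t, rfl⟩
    · exact absurd ⟨r', h⟩ hd
  rw [hcr, hdt] at hx
  simp only [XArc] at hx
  have htd : td = 0 := by omega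
  subst htd
  -- the first vertex after the centre
  obtain ⟨e, f, hef, ⟨te, het, hte⟩, hf⟩ := exists_change hc (fun a => ∃ t, g a = .inl t ∧ 0 < t)
    (a := b0) (b := d) ⟨t0, hb0, ht0⟩ (by
      rintro ⟨t, h1, h2⟩
      rw [hdt] at h1
      simp only [Sum.inl.injEq] at h1
      omega)
  have hx1 := hadj hef (P := fun a => ∃ t, g a = .inl t ∧ 0 < t) ⟨te, het, hte⟩ hf
  have hte1 : te = 1 := by
    rcases h : g f with t | r'
    · rw [het, h] at hx1
      simp only [XArc] at hx1
      have : ¬ 0 < t := fun h' => hf ⟨t, h, h'⟩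
      omega
    · rw [het, h] at hx1
      simp only [XArc] at hx1
      omega
  subst hte1
  -- the last vertex before the centre
  obtain ⟨e', f', hef', ⟨te', het', hte'⟩, hf'⟩ := exists_change hc
    (fun a => ∃ t, g a = .inl t ∧ t < 0) (a := c0) (b := d) ⟨s0, hc0, hs0⟩ (by
      rintro ⟨t, h1, h2⟩
      rw [hdt] at h1
      simp only [Sum.inl.injEq] at h1
      omega)
  have hx2 := hadj hef' (P := fun a => ∃ t, g a = .inl t ∧ t < 0) ⟨te', het', hte'⟩ hf'
  have hte1' : te' = -1 := by
    rcases h : g f' with t | r'
    · rw [het', h] at hx2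
      simp only [XArc] at hx2
      have : ¬ t < 0 := fun h' => hf' ⟨t, h, h'⟩
      omega
    · rw [het', h] at hx2
      simp only [XArc] at hx2
      omega
  subst hte1'
  have hne : ∀ {x y : Fin m}, g x ≠ g y → x ≠ y := by
    rintro x y h rfl
    exact h rfl
  have key : ∀ q : Fin 4 → Fin m, (∀ i j, i ≠ j → g (q i) ≠ g (q j)) → Function.Injective q := by
    intro q hq i j hij
    by_contra h
    exact hq i j h (by rw [hij])
  rcases gs with gs | gs
  · have hr : r = 1 := by
      have := gs _ _ hcr
      omega
    subst hr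
    refine Or.inr (Or.inl ?_)
    have hq : ∀ i j : Fin 4, i ≠ j → g ((![e, c, d, e'] : Fin 4 → Fin m) i) ≠
        g ((![e, c, d, e'] : Fin 4 → Fin m) j) := by
      intro i j hij
      fin_cases i <;> fin_cases j <;> simp [het, hcr, hdt, het'] at hij ⊢
    refine ⟨![e, c, d, e'], key _ hq, fun i j hij => ?_⟩
    rw [g2 _ _ (hne (hq i j hij))]
    fin_cases i <;> fin_cases j <;> simp [het, hcr, hdt, het', YOut, YIn, XArc] at hij ⊢
  · have hr : r = -1 := by
      have := gs _ _ hcr
      omega
    subst hr
    refine Or.inl ?_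
    have hq : ∀ i j : Fin 4, i ≠ j → g ((![e', c, d, e] : Fin 4 → Fin m) i) ≠
        g ((![e', c, d, e] : Fin 4 → Fin m) j) := by
      intro i j hij
      fin_cases i <;> fin_cases j <;> simp [het, hcr, hdt, het'] at hij ⊢
    refine ⟨![e', c, d, e], key _ hq, fun i j hij => ?_⟩
    rw [g2 _ _ (hne (hq i j hij))]
    fin_cases i <;> fin_cases j <;> simp [het, hcr, hdt, het', YIn, XArc] at hij ⊢

theorem reach_of_eqv (hc : ∀ a b, EqvGen H a b) (a b : Fin m) :
    (SimpleGraph.fromRel H).Reachable a b := by
  have := hc a b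
  induction this with
  | rel a b h =>
    by_cases hab : a = b
    · rw [hab]
    · exact SimpleGraph.Adj.reachable ((SimpleGraph.fromRel_adj _ _ _).2 ⟨hab, Or.inl h⟩)
  | refl a => exact .refl _
  | symm a b _ ih => exact ih.symm
  | trans a b c _ _ h1 h2 => exact h1.trans h2

/-- connected induced subdigraphs of the gadget with long subdivisions -/
theorem classify_gadget (hc : ∀ a b, EqvGen H a b) {L N : ℕ} (hL : 2 ≤ L) (hm : m ≤ L)
    {E : Fin N → Fin N → Prop} (h : Contains (Arc (L := L) False E) H) :
    Contains H YIn ∨ Contains H YOut ∨ Contains Merge H ∨ Contains Branch H := by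
  classical
  obtain ⟨f, f1, f2⟩ := h
  by_cases hnode : ∃ h0, (f h0).1.2.1 = false ∧ (f h0).1.2.2.val = 0
  · obtain ⟨h0, hn1, hn2⟩ := hnode
    have key : ∀ (u v : Fin m) (p : (SimpleGraph.fromRel H).Walk u v), v = h0 → p.length < L →
        ∃ σ, StarR E (f h0) (f u) σ ∧ dp σ ≤ p.length := by
      intro u v p
      induction p with
      | nil =>
        rintro rfl _
        exact ⟨.inl 0, star_self hL hn1, by simp [dp]⟩
      | @cons u w v huw p ih =>
        intro hv hl
        rw [SimpleGraph.Walk.length_cons] at hl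
        obtain ⟨σ, h1, h2⟩ := ih hv (by omega)
        have h3 := (SimpleGraph.fromRel_adj _ _ _).1 huw
        obtain ⟨σ', h4, h5⟩ := star_step hL hn1 hn2 h1 (by omega) (y := f u) (by
          rcases h3.2 with h | h
          · exact Or.inr ((f2 _ _ h3.1).1 h)
          · exact Or.inl ((f2 _ _ h3.1.symm).1 h))
        exact ⟨σ', h4, by rw [SimpleGraph.Walk.length_cons]; omega⟩
    have key2 : ∀ a, ∃ σ, StarR E (f h0) (f a) σ := by
      intro a
      obtain ⟨p, hp⟩ := (reach_of_eqv hc a h0).exists_isPath
      have := hp.length_lt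
      rw [Fintype.card_fin] at this
      obtain ⟨σ, h1, _⟩ := key a h0 p rfl (by omega)
      exact ⟨σ, h1⟩
    choose g hg using key2
    refine classify hc g (fun a b hab => f1 (star_inj (hg a) (hab ▸ hg b))) (fun a b hab => ?_)
      (fun a ha => ?_) ?_
    · rw [f2 a b hab]
      exact star_arc hL hn1 hn2 (hg a) (hg b)
    · have := hg a
      rw [ha] at this
      obtain ⟨_, _, _, h4⟩ := this
      rcases h4 with ⟨h4, _⟩ | ⟨h4, _⟩ <;> exact lt_irrefl _ h4
    · rcases hp : (f h0).1.1 with _ | _
      · right
        intro a r ha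
        have := hg a
        rw [ha] at this
        obtain ⟨_, _, _, h4⟩ := this
        rcases h4 with ⟨_, h5, _⟩ | ⟨h4, _⟩
        · rw [hp] at h5; simp at h5
        · exact h4
      · left
        intro a r ha
        have := hg a
        rw [ha] at this
        obtain ⟨_, _, _, h4⟩ := this
        rcases h4 with ⟨h4, _⟩ | ⟨_, h5, _⟩
        · exact h4
        · rw [hp] at h5; simp at h5
  · push Not at hnode
    rcases isEmpty_or_nonempty (Fin m) with hemp | ⟨⟨h1⟩⟩
    · exact Or.inr (Or.inr (Or.inl (contains_line (fun _ => 0) (fun a => (hemp.false a).elim)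
        (fun a => (hemp.false a).elim))))
    refine Or.inr (Or.inr (Or.inl ?_))
    obtain ⟨⟨⟨p, κ, j⟩, τ⟩, hf1⟩ : ∃ x, f h1 = x := ⟨_, rfl⟩
    have hadj : ∀ {c d : Fin m} {P : Fin m → Prop}, (H c d ∨ H d c) → P c → ¬ P d →
        Arc False E (f c) (f d) ∨ Arc False E (f d) (f c) := by
      intro c d P h h1 h2
      have hne : c ≠ d := by
        rintro rfl
        exact h2 h1
      rcases h with h | h
      · exact Or.inl ((f2 _ _ hne).1 h)
      · exact Or.inr ((f2 _ _ hne.symm).1 h)
    by_cases hreal : 1 ≤ j.val ∧ (κ = true → p = true)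
    · have key : ∀ a, ∃ j' : Fin L, 1 ≤ j'.val ∧ f a = ((p, κ, j'), τ) := by
        intro a
        by_contra hcon
        obtain ⟨c, d, hcd, hPc, hPd⟩ := exists_change hc
          (fun a => ∃ j' : Fin L, 1 ≤ j'.val ∧ f a = ((p, κ, j'), τ)) (a := h1) (b := a)
          ⟨j, hreal.1, hf1⟩ hcon
        have hx := hadj hcd (P := fun a => ∃ j' : Fin L, 1 ≤ j'.val ∧ f a = ((p, κ, j'), τ)) hPc hPd
        obtain ⟨j', hj', hfc⟩ := hPc
        have hnd := hnode d
        rw [hfc] at hx
        obtain ⟨y, hy⟩ : ∃ y, f d = y := ⟨_, rfl⟩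
        rw [hy] at hx hnd
        apply hPd
        rw [hy]
        rcases hx with hx | hx
        · cases hx with
          | chain p κ hp j1 j2 h1 h2 τ => exact ⟨j2, by omega, rfl⟩
          | first p κ hp j1 j2 h1 h2 τ => omega
          | next p j1 j2 h1 h2 i u v v' hv =>
            rcases h2 with h2 | h2
            · exact absurd h2 (hnd rfl)
            · exact h2.1.elim
          | turn j1 j2 h1 h2 i u v v' hv hv' =>
            rcases h2 with h2 | h2
            · exact absurd h2 (hnd rfl)
            · exact h2.1.elim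
          | cross j1 j2 h1 h2 i i' u v hi h => exact absurd h2 (hnd rfl)
        · cases hx with
          | chain p κ hp j1 j2 h1 h2 τ => exact ⟨j1, h1, rfl⟩
          | first p κ hp j1 j2 h1 h2 τ => exact absurd h1 (hnd rfl)
          | next p j1 j2 h1 h2 i u v v' hv =>
            rcases h2 with h2 | h2
            · omega
            · exact h2.1.elim
          | turn j1 j2 h1 h2 i u v v' hv hv' =>
            rcases h2 with h2 | h2
            · omega
            · exact h2.1.elim
          | cross j1 j2 h1 h2 i i' u v hi h => omega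
      choose q q1 q2 using key
      refine contains_line (fun a => ((q a).val : ℤ)) (fun a b hab => f1 ?_) (fun a b hab => ?_)
      · simp only [Nat.cast_inj] at hab
        rw [q2 a, q2 b, show q a = q b from Fin.ext hab]
      · rw [f2 a b hab]
        have ha := q1 a
        have hb := q1 b
        have e1 := q2 a
        have e2 := q2 b
        rw [e1, e2]
        constructor
        · intro h
          generalize q a = qa at h ha ⊢
          generalize q b = qb at h hb ⊢
          cases h with
          | chain p κ hp j1 j2 h1 h2 τ => push_cast [h2]; rfl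
          | first p κ hp j1 j2 h1 h2 τ => omega
          | next p j1 j2 h1 h2 i u v v' hv =>
            rcases h2 with h2 | h2
            · omega
            · exact h2.1.elim
        · intro h
          exact .chain p κ hreal.2 _ _ ha (by exact_mod_cast h) τ
    · -- an isolated vertex
      have hκ : κ = true ∧ (j.val = 0 ∨ p = false) := by
        have h3 := hnode h1
        rw [hf1] at h3
        simp only at h3
        rcases κ with _ | _
        · have := h3 rfl
          exact absurd ⟨by omega, by simp⟩ hreal
        · refine ⟨rfl, ?_⟩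
          by_contra h4
          push Not at h4
          apply hreal
          refine ⟨by omega, fun _ => ?_⟩
          rcases p with _ | _
          · exact absurd rfl h4.2
          · rfl
      have hall : ∀ a, a = h1 := by
        intro a
        by_contra hcon
        obtain ⟨c, d, hcd, hPc, hPd⟩ := exists_change hc (fun a => a = h1) rfl hcon
        have hx := hadj hcd (P := fun a => a = h1) hPc hPd
        rw [hPc, hf1] at hx
        obtain ⟨y, hy⟩ : ∃ y, f d = y := ⟨_, rfl⟩
        rw [hy] at hx
        obtain ⟨rfl, h4⟩ := hκ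
        rcases hx with hx | hx
        · cases hx with
          | chain p κ hp j1 j2 h1 h2 τ =>
            rcases h4 with h4 | h4
            · omega
            · rw [hp rfl] at h4; simp at h4
          | cross j1 j2 h1 h2 i i' u v hi h =>
            rcases h4 with h4 | h4
            · omega
            · simp at h4
        · cases hx with
          | chain p κ hp j1 j2 h1 h2 τ =>
            rcases h4 with h4 | h4
            · omega
            · rw [hp rfl] at h4; simp at h4
          | first p κ hp j1 j2 h1 h2 τ =>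
            rcases h4 with h4 | h4
            · omega
            · rw [hp rfl] at h4; simp at h4
      refine contains_line (fun _ => 0) (fun a b _ => (hall a).trans (hall b).symm) (fun a b hab => ?_)
      exact absurd ((hall a).trans (hall b).symm) hab

end connected

theorem not_contains_YIn {N : ℕ} (E : Fin N → Fin N → Prop) :
    ¬ Contains (Arc (L := 2) True E) YIn := by
  rintro ⟨f, f1, f2⟩
  have a1 : Arc True E (f 0) (f 2) := (f2 0 2 (by decide)).1 (by simp [YIn])
  have a2 : Arc True E (f 1) (f 2) := (f2 1 2 (by decide)).1 (by simp [YIn])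
  have a3 : Arc True E (f 2) (f 3) := (f2 2 3 (by decide)).1 (by simp [YIn])
  have n1 : ¬ Arc True E (f 0) (f 1) := fun h => by
    have := (f2 0 1 (by decide)).2 h
    simp [YIn] at this
  have n2 : ¬ Arc True E (f 1) (f 0) := fun h => by
    have := (f2 1 0 (by decide)).2 h
    simp [YIn] at this
  rcases no_Y a1 a2 a3 (f1.ne (by decide)) n1 n2 with h | h
  · have := (f2 0 3 (by decide)).2 h
    simp [YIn] at this
  · have := (f2 1 3 (by decide)).2 h
    simp [YIn] at this

theorem not_contains_YOut {N : ℕ} (E : Fin N → Fin N → Prop) :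
    ¬ Contains (Arc (L := 2) True E) YOut := by
  rintro ⟨f, f1, f2⟩
  have a1 : Arc True E (f 2) (f 0) := (f2 2 0 (by decide)).1 (by simp [YOut, YIn])
  have a2 : Arc True E (f 2) (f 1) := (f2 2 1 (by decide)).1 (by simp [YOut, YIn])
  have a3 : Arc True E (f 3) (f 2) := (f2 3 2 (by decide)).1 (by simp [YOut, YIn])
  have n1 : ¬ Arc True E (f 0) (f 1) := fun h => by
    have := (f2 0 1 (by decide)).2 h
    simp [YOut, YIn] at this
  have n2 : ¬ Arc True E (f 1) (f 0) := fun h => by
    have := (f2 1 0 (by decide)).2 h
    simp [YOut, YIn] at this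
  rcases no_Y' a3 a1 a2 (f1.ne (by decide)) n1 n2 with h | h
  · have := (f2 3 0 (by decide)).2 h
    simp [YOut, YIn] at this
  · have := (f2 3 1 (by decide)).2 h
    simp [YOut, YIn] at this

/-- Hardness. -/
theorem ohard_free {m : ℕ} {H : Fin m → Fin m → Prop} (hc : ∀ a b, EqvGen H a b)
    (h : ¬ (Contains Merge H ∨ Contains Branch H)) :
    OHard (fun _ E => Acyclic E ∧ ¬ Contains E H) := by
  by_cases hY : Contains H YIn ∨ Contains H YOut
  · refine ohard_of True 2 le_rfl (fun N E => ⟨arc_acyclic E, fun hcon => ?_⟩)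
      (fun N E s t => gadget_reach le_rfl E s t)
    rcases hY with hY | hY
    · exact not_contains_YIn E (hcon.trans hY)
    · exact not_contains_YOut E (hcon.trans hY)
  · refine ohard_of False (m + 2) (by omega) (fun N E => ⟨arc_acyclic E, fun hcon => ?_⟩)
      (fun N E s t => gadget_reach (by omega) E s t)
    rcases classify_gadget hc (by omega) (by omega) hcon with h' | h' | h'
    · exact hY (Or.inl h')
    · exact hY (Or.inr h')
    · exact h h'

theorem exists_bound {m : ℕ} (f : Fin m → ℤ) : ∃ K : ℕ, ∀ a, |f a| ≤ K := by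
  rcases isEmpty_or_nonempty (Fin m) with h | h
  · exact ⟨0, fun a => (h.false a).elim⟩
  · obtain ⟨a, ha⟩ := Finite.exists_max (fun a => |f a|)
    exact ⟨(|f a|).toNat, fun b => by have := ha b; have := abs_nonneg (f a); omega⟩

/-- Definability. -/
theorem definable_free {m : ℕ} {H : Fin m → Fin m → Prop}
    (h : Contains Merge H ∨ Contains Branch H) :
    Definable (fun V E => Finite V ∧ Acyclic E ∧ ¬ Contains E H) := by
  rcases h with h | h
  · obtain ⟨f, f1, f2⟩ := h
    obtain ⟨K, hK⟩ := exists_bound f
    obtain ⟨φ, hφ⟩ := exists_merge_formula K 0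
    refine ⟨φ, fun V E ⟨hfin, hac, hno⟩ s d => ⟨(hφ V E s d).1, fun hsd =>
      (hφ V E s d).2 hfin (Or.inl ⟨fun v _ => hac v, ?_⟩) hsd⟩⟩
    rintro ⟨c, h1, _, _⟩
    obtain ⟨g, _, hg⟩ := h1 0 le_rfl
    exact hno ⟨fun a => g (f a), fun a b hab => by
      by_contra hne
      exact (hg _ _ (hK a) (hK b) (f1.ne hne)).1 hab, fun a b hab =>
      (f2 a b hab).trans (hg _ _ (hK a) (hK b) (f1.ne hab)).2⟩
  · obtain ⟨f, f1, f2⟩ := h
    obtain ⟨K, hK⟩ := exists_bound f
    obtain ⟨φ, hφ⟩ := exists_merge_formula K 0
    refine ⟨φ, fun V E ⟨hfin, hac, hno⟩ s d => ⟨(hφ V E s d).1, fun hsd =>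
      (hφ V E s d).2 hfin (Or.inr ⟨fun v _ hv => hac v (transGen_swap.1 hv), ?_⟩) hsd⟩⟩
    rintro ⟨c, h1, _, _⟩
    obtain ⟨g, _, hg⟩ := h1 0 le_rfl
    exact hno ⟨fun a => g (f a), fun a b hab => by
      by_contra hne
      exact (hg _ _ (hK a) (hK b) (f1.ne hne)).1 hab, fun a b hab =>
      (f2 a b hab).trans (hg _ _ (hK b) (hK a) (f1.ne hab).symm).2⟩

end Pool.Agent.W987
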