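import Mathlib

/-!
# Decision trees
-/

namespace Pool.Agent.W987

/-- Decision trees with inputs indexed by `I`. -/
inductive DT (I : Type) : Type
  | leaf (b : Bool) : DT I
  | node (i : I) (t0 t1 : DT I) : DT I

/-- The value of the tree on the input `x`: at `node i t0 t1` it continues with `t1` if `x i` holds
and with `t0` otherwise. -/
def DT.eval {I : Type} : DT I → (I → Prop) → Prop
  | .leaf b, _ => b = true
  | .node i t0 t1, x => (x i ∧ t1.eval x) ∨ (¬ x i ∧ t0.eval x)

/-- The depth: the maximal number of inputs read. -/
def DT.depth {I : Type} : DT I → ℕ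
  | .leaf _ => 0
  | .node _ t0 t1 => max t0.depth t1.depth + 1

end Pool.Agent.W987
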