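import Mathlib
import Pool.Agent.W987.DTDefs

/-!
# Random restrictions of decision trees
-/

namespace Pool.Agent.W987

open Finset

section restr

variable {I D Y : Type} [DecidableEq D] [DecidableEq Y]

/-- The input obtained from `T` by hiding the variable `d` at the place `φ d` of its cell; all other
places of the cell are off, and the inputs outside the cells are constant. -/
def inp (cell : I → Option (D × Y)) (con : I → Bool) (φ : D → Y) (T : D → Prop) (i : I) : Prop :=
  match cell i with
  | none => con i = true
  | some (d, y) => φ d = y ∧ T d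

/-- the decision tree for the restricted function; `ρ` holds the answers already known -/
def restr (cell : I → Option (D × Y)) (con : I → Bool) (φ : D → Y) :
    DT I → (D → Option Bool) → DT D
  | .leaf b, _ => .leaf b
  | .node i t0 t1, ρ =>
    match cell i with
    | none => if con i then restr cell con φ t1 ρ else restr cell con φ t0 ρ
    | some (d, y) =>
      if φ d = y then
        match ρ d with
        | some true => restr cell con φ t1 ρ
        | some false => restr cell con φ t0 ρ
        | none => .node d (restr cell con φ t0 (Function.update ρ d (some false)))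
            (restr cell con φ t1 (Function.update ρ d (some true)))
      else restr cell con φ t0 ρ

theorem eval_restr (cell : I → Option (D × Y)) (con : I → Bool) (φ : D → Y) (T : D → Prop)
    (τ : DT I) : ∀ ρ : D → Option Bool, (∀ d v, ρ d = some v → (T d ↔ v = true)) →
      ((restr cell con φ τ ρ).eval T ↔ τ.eval (inp cell con φ T)) := by
  induction τ with
  | leaf b => intro ρ _; rfl
  | node i t0 t1 ih0 ih1 =>
    intro ρ hρ
    rcases hc : cell i with _ | ⟨d, y⟩
    · have h1 : inp cell con φ T i ↔ con i = true := by simp [inp, hc]
      simp only [restr, hc, DT.eval, h1]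
      by_cases h : con i = true
      · simp [h, ih1 ρ hρ]
      · simp [h, ih0 ρ hρ]
    · have h1 : inp cell con φ T i ↔ φ d = y ∧ T d := by simp [inp, hc]
      simp only [restr, hc, DT.eval, h1]
      by_cases h : φ d = y
      · simp only [h, if_true, true_and]
        rcases hr : ρ d with _ | v
        · simp only [DT.eval]
          by_cases hT : T d
          · simp only [hT, true_and, not_true, false_and, or_false]
            apply ih1
            intro d' v hd'
            by_cases hdd : d' = d
            · subst hdd
              rw [Function.update_self] at hd'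
              have : v = true := (Option.some.inj hd').symm
              simp [this, hT]
            · rw [Function.update_of_ne hdd] at hd'
              exact hρ _ _ hd'
          · simp only [hT, false_and, not_false_eq_true, true_and, false_or]
            apply ih0
            intro d' v hd'
            by_cases hdd : d' = d
            · subst hdd
              rw [Function.update_self] at hd'
              have : v = false := (Option.some.inj hd').symm
              simp [this, hT]
            · rw [Function.update_of_ne hdd] at hd'
              exact hρ _ _ hd'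
        · have h2 := hρ d v hr
          cases v
          · have hT : ¬ T d := by simpa using h2
            simp [hT, ih0 ρ hρ]
          · have hT : T d := by simpa using h2
            simp [hT, ih1 ρ hρ]
      · simp [h, ih0 ρ hρ]

variable [Fintype D] [Fintype Y]

/-- the number of the choices with prescribed values on `S` -/
theorem count_agree (S : Finset D) (ψ : D → Y) :
    (univ.filter (fun φ : D → Y => ∀ d ∈ S, φ d = ψ d)).card * Fintype.card Y ^ S.card =
      Fintype.card Y ^ Fintype.card D := by
  classical
  have h1 : (univ.filter (fun φ : D → Y => ∀ d ∈ S, φ d = ψ d)) =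
      Fintype.piFinset (fun d => if d ∈ S then ({ψ d} : Finset Y) else univ) := by
    ext φ
    simp only [mem_filter, mem_univ, true_and, Fintype.mem_piFinset]
    constructor
    · intro h d
      by_cases hd : d ∈ S
      · simp [hd, h d hd]
      · simp [hd]
    · intro h d hd
      have := h d
      simpa [hd] using this
  rw [h1, Fintype.card_piFinset]
  have h2 : ∏ d, (if d ∈ S then ({ψ d} : Finset Y) else univ).card =
      ∏ d, (if d ∈ S then 1 else Fintype.card Y) := by
    apply Finset.prod_congr rfl
    intro d _
    split_ifs <;> simp
  rw [h2]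
  have h3 : Fintype.card Y ^ S.card = ∏ d, (if d ∈ S then Fintype.card Y else 1) := by
    rw [← Finset.prod_filter, Finset.prod_const]
    congr 2
    ext d; simp
  rw [h3, ← Finset.prod_mul_distrib]
  have h4 : ∀ d ∈ (univ : Finset D), (if d ∈ S then 1 else Fintype.card Y) *
      (if d ∈ S then Fintype.card Y else 1) = Fintype.card Y := by
    intro d _
    split_ifs <;> simp
  rw [Finset.prod_congr rfl h4, Finset.prod_const, Finset.card_univ]

/-- few choices leave a deep restricted tree -/
theorem count_deep (cell : I → Option (D × Y)) (con : I → Bool) (τ : DT I) :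
    ∀ (S : Finset D) (ψ : D → Y) (ρ : D → Option Bool) (c : ℕ), (∀ d, d ∈ S ↔ ρ d ≠ none) →
      (univ.filter (fun φ : D → Y => (∀ d ∈ S, φ d = ψ d) ∧
        c ≤ (restr cell con φ τ ρ).depth)).card * Fintype.card Y ^ (S.card + c) ≤
      (2 * τ.depth) ^ c * Fintype.card Y ^ Fintype.card D := by
  classical
  induction τ with
  | leaf b =>
    intro S ψ ρ c _
    rcases Nat.eq_zero_or_pos c with h | h
    · subst h
      simp only [pow_zero, one_mul, add_zero]
      rw [← count_agree S ψ]
      apply Nat.mul_le_mul_right
      apply Finset.card_le_card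
      intro φ hφ
      rw [mem_filter] at hφ ⊢
      exact ⟨hφ.1, hφ.2.1⟩
    · have : (univ.filter (fun φ : D → Y => (∀ d ∈ S, φ d = ψ d) ∧
          c ≤ (restr cell con φ (DT.leaf b) ρ).depth)) = ∅ := by
        rw [Finset.filter_eq_empty_iff]
        rintro φ _ ⟨_, h2⟩
        simp only [restr, DT.depth] at h2
        omega
      rw [this]
      simp
  | node i t0 t1 ih0 ih1 =>
    intro S ψ ρ c hS
    have hd0 : t0.depth ≤ (DT.node i t0 t1).depth - 1 := by simp [DT.depth]
    have hd1 : t1.depth ≤ (DT.node i t0 t1).depth - 1 := by simp [DT.depth]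
    have hdp : 1 ≤ (DT.node i t0 t1).depth := by simp [DT.depth]
    obtain ⟨r, hr⟩ : ∃ r, (DT.node i t0 t1).depth = r := ⟨_, rfl⟩
    rw [hr] at hd0 hd1 hdp ⊢
    -- subtrees without a new variable
    have hsub : ∀ t : DT I, t.depth ≤ r - 1 →
        (univ.filter (fun φ : D → Y => (∀ d ∈ S, φ d = ψ d) ∧
        c ≤ (restr cell con φ t ρ).depth)).card * Fintype.card Y ^ (S.card + c) ≤
        (2 * t.depth) ^ c * Fintype.card Y ^ Fintype.card D →
        ∀ X : Finset (D → Y), (∀ φ ∈ X, (∀ d ∈ S, φ d = ψ d) ∧
          c ≤ (restr cell con φ t ρ).depth) →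
        X.card * Fintype.card Y ^ (S.card + c) ≤
        (2 * (r - 1)) ^ c * Fintype.card Y ^ Fintype.card D := by
      intro t ht ih X hX
      have h1 : X.card ≤ (univ.filter (fun φ : D → Y => (∀ d ∈ S, φ d = ψ d) ∧
          c ≤ (restr cell con φ t ρ).depth)).card := by
        apply Finset.card_le_card
        intro φ hφ
        rw [mem_filter]
        exact ⟨mem_univ _, hX φ hφ⟩
      have h2 : (2 * t.depth) ^ c ≤ (2 * (r - 1)) ^ c := Nat.pow_le_pow_left (by omega) c
      exact (Nat.mul_le_mul_right _ h1).trans (ih.trans (Nat.mul_le_mul_right _ h2))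
    have hweak : (2 * (r - 1)) ^ c * Fintype.card Y ^ Fintype.card D ≤
        (2 * r) ^ c * Fintype.card Y ^ Fintype.card D :=
      Nat.mul_le_mul_right _ (Nat.pow_le_pow_left (by omega) c)
    rcases hc : cell i with _ | ⟨d, y⟩
    · by_cases hcon : con i = true
      · refine le_trans (hsub t1 hd1 (ih1 S ψ ρ c hS) _ ?_) hweak
        intro φ hφ
        obtain ⟨h1, h2⟩ := (mem_filter.1 hφ).2
        simp only [restr, hc, hcon, if_true] at h2
        exact ⟨h1, h2⟩
      · refine le_trans (hsub t0 hd0 (ih0 S ψ ρ c hS) _ ?_) hweak
        intro φ hφ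
        obtain ⟨h1, h2⟩ := (mem_filter.1 hφ).2
        simp only [restr, hc, hcon] at h2
        exact ⟨h1, by simpa using h2⟩
    · by_cases hd : d ∈ S
      · -- the variable is known
        by_cases hy : ψ d = y
        · rcases hr' : ρ d with _ | v
          · exact absurd hr' ((hS d).1 hd)
          · cases v
            · refine le_trans (hsub t0 hd0 (ih0 S ψ ρ c hS) _ ?_) hweak
              intro φ hφ
              obtain ⟨h1, h2⟩ := (mem_filter.1 hφ).2
              have h3 : φ d = y := (h1 d hd).trans hy
              simp only [restr, hc, h3, if_true, hr'] at h2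
              exact ⟨h1, h2⟩
            · refine le_trans (hsub t1 hd1 (ih1 S ψ ρ c hS) _ ?_) hweak
              intro φ hφ
              obtain ⟨h1, h2⟩ := (mem_filter.1 hφ).2
              have h3 : φ d = y := (h1 d hd).trans hy
              simp only [restr, hc, h3, if_true, hr'] at h2
              exact ⟨h1, h2⟩
        · refine le_trans (hsub t0 hd0 (ih0 S ψ ρ c hS) _ ?_) hweak
          intro φ hφ
          obtain ⟨h1, h2⟩ := (mem_filter.1 hφ).2
          have h3 : ¬ φ d = y := by rw [h1 d hd]; exact hy
          simp only [restr, hc, h3, if_false] at h2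
          exact ⟨h1, h2⟩
      · -- a new variable
        have hρ : ρ d = none := by
          by_contra h
          exact hd ((hS d).2 h)
        rcases Nat.eq_zero_or_pos c with h | h
        · subst h
          simp only [pow_zero, one_mul, add_zero]
          rw [← count_agree S ψ]
          apply Nat.mul_le_mul_right
          apply Finset.card_le_card
          intro φ hφ
          rw [mem_filter] at hφ ⊢
          exact ⟨hφ.1, hφ.2.1⟩
        · obtain ⟨b, hb⟩ : ∃ b, c = b + 1 := ⟨c - 1, by omega⟩
          let S' := insert d S
          have hS'c : S'.card = S.card + 1 := Finset.card_insert_of_notMem hd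
          let ψ' := Function.update ψ d y
          have hS' : ∀ v, ∀ d', d' ∈ S' ↔ Function.update ρ d (some v) d' ≠ none := by
            intro v d'
            by_cases hdd : d' = d
            · subst hdd; simp [S']
            · simp [S', hdd, hS d']
          have key : (univ.filter (fun φ : D → Y => (∀ d ∈ S, φ d = ψ d) ∧
              c ≤ (restr cell con φ (DT.node i t0 t1) ρ).depth)) ⊆
              ((univ.filter (fun φ : D → Y => (∀ d ∈ S', φ d = ψ' d) ∧
                b ≤ (restr cell con φ t0 (Function.update ρ d (some false))).depth)) ∪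
              (univ.filter (fun φ : D → Y => (∀ d ∈ S', φ d = ψ' d) ∧
                b ≤ (restr cell con φ t1 (Function.update ρ d (some true))).depth))) ∪
              (univ.filter (fun φ : D → Y => (∀ d ∈ S, φ d = ψ d) ∧
                c ≤ (restr cell con φ t0 ρ).depth)) := by
            intro φ hφ
            rw [mem_filter] at hφ
            obtain ⟨_, h1, h2⟩ := hφ
            by_cases hy : φ d = y
            · have h1' : ∀ d' ∈ S', φ d' = ψ' d' := by
                intro d' hd'
                by_cases hdd : d' = d
                · subst hdd; simp [ψ', hy]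
                · have : d' ∈ S := by simpa [S', hdd] using hd'
                  simp [ψ', hdd, h1 d' this]
              simp only [restr, hc, hy, if_true, hρ, DT.depth] at h2
              rw [hb] at h2
              have h3 : b ≤ max (restr cell con φ t0 (Function.update ρ d (some false))).depth
                  (restr cell con φ t1 (Function.update ρ d (some true))).depth := by omega
              rcases le_max_iff.1 h3 with h4 | h4
              · exact mem_union_left _ (mem_union_left _ (mem_filter.2 ⟨mem_univ _, h1', h4⟩))
              · exact mem_union_left _ (mem_union_right _ (mem_filter.2 ⟨mem_univ _, h1', h4⟩))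
            · simp only [restr, hc, hy, if_false] at h2
              exact mem_union_right _ (mem_filter.2 ⟨mem_univ _, h1, h2⟩)
          have hcard := (Finset.card_le_card key).trans ((Finset.card_union_le _ _).trans
            (Nat.add_le_add_right (Finset.card_union_le _ _) _))
          have e0 := ih0 S' ψ' _ b (hS' false)
          have e1 := ih1 S' ψ' _ b (hS' true)
          have e2 := ih0 S ψ ρ c hS
          rw [hS'c] at e0 e1
          have hexp : S.card + 1 + b = S.card + c := by omega
          rw [hexp] at e0 e1
          have e0' := e0.trans (Nat.mul_le_mul_right _ (Nat.pow_le_pow_left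
            (show 2 * t0.depth ≤ 2 * (r - 1) by omega) b))
          have e1' := e1.trans (Nat.mul_le_mul_right _ (Nat.pow_le_pow_left
            (show 2 * t1.depth ≤ 2 * (r - 1) by omega) b))
          have e2' := e2.trans (Nat.mul_le_mul_right _ (Nat.pow_le_pow_left
            (show 2 * t0.depth ≤ 2 * (r - 1) by omega) c))
          refine le_trans (Nat.mul_le_mul_right _ hcard) ?_
          rw [add_mul, add_mul]
          refine le_trans (Nat.add_le_add (Nat.add_le_add e0' e1') e2') ?_
          rw [← add_mul, ← add_mul]
          apply Nat.mul_le_mul_right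
          rw [hb, pow_succ, pow_succ]
          have h5 : (2 * (r - 1)) ^ b ≤ (2 * r) ^ b := Nat.pow_le_pow_left (by omega) b
          have h6 : (2 * (r - 1)) ^ b + (2 * (r - 1)) ^ b + (2 * (r - 1)) ^ b * (2 * (r - 1)) =
              (2 * (r - 1)) ^ b * (2 * r) := by
            obtain ⟨r', rfl⟩ : ∃ r', r = r' + 1 := ⟨r - 1, by omega⟩
            simp only [Nat.add_sub_cancel]
            ring
          rw [h6]
          exact Nat.mul_le_mul_right _ h5

/-- **Selection.** If the trees have depth at most `r` and `2 r z ≤ |Y|`, there is a choice such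
that all restricted trees have depth less than `c`, provided that there are fewer than `z ^ c`
trees. -/
theorem dt_selection {E : Type} [Fintype E] [Nonempty Y] (cell : I → Option (D × Y))
    (con : I → Bool) (τ : E → DT I) (z c : ℕ) (hr : ∀ e, 2 * (τ e).depth * z ≤ Fintype.card Y)
    (hE : Fintype.card E < z ^ c) :
    ∃ φ : D → Y, ∀ e, (restr cell con φ (τ e) (fun _ => none)).depth < c := by
  classical
  by_contra hcon
  push Not at hcon
  have hY : 0 < Fintype.card Y := Fintype.card_pos
  have h1 : (univ : Finset (D → Y)) ⊆ univ.biUnion (fun e : E => univ.filter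
      (fun φ : D → Y => (∀ d ∈ (∅ : Finset D), φ d = (fun _ => Classical.arbitrary Y) d) ∧
        c ≤ (restr cell con φ (τ e) (fun _ => none)).depth)) := by
    intro φ _
    obtain ⟨e, he⟩ := hcon φ
    rw [mem_biUnion]
    refine ⟨e, mem_univ _, mem_filter.2 ⟨mem_univ _, ?_, he⟩⟩
    intro d hd
    exact absurd hd (Finset.notMem_empty d)
  have h2 := (Finset.card_le_card h1).trans Finset.card_biUnion_le
  rw [Finset.card_univ, Fintype.card_fun] at h2
  have h3 : ∀ e : E, (univ.filter
      (fun φ : D → Y => (∀ d ∈ (∅ : Finset D), φ d = (fun _ => Classical.arbitrary Y) d) ∧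
        c ≤ (restr cell con φ (τ e) (fun _ => none)).depth)).card * z ^ c ≤
        Fintype.card Y ^ Fintype.card D := by
    intro e
    have h4 := count_deep cell con (τ e) ∅ (fun _ => Classical.arbitrary Y) (fun _ => none) c
      (by simp)
    rw [Finset.card_empty, zero_add] at h4
    have h5 : (2 * (τ e).depth) ^ c * z ^ c ≤ Fintype.card Y ^ c := by
      rw [← mul_pow]
      exact Nat.pow_le_pow_left (hr e) c
    have h6 := Nat.mul_le_mul_right (z ^ c) h4
    have h7 : (2 * (τ e).depth) ^ c * Fintype.card Y ^ Fintype.card D * z ^ c ≤
        Fintype.card Y ^ c * Fintype.card Y ^ Fintype.card D := by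
      calc _ = (2 * (τ e).depth) ^ c * z ^ c * Fintype.card Y ^ Fintype.card D := by ring
        _ ≤ _ := Nat.mul_le_mul_right _ h5
    have h8 := h6.trans h7
    refine Nat.le_of_mul_le_mul_left ?_ (pow_pos hY c)
    refine le_trans (le_of_eq ?_) h8
    ring
  have h4 : Fintype.card Y ^ Fintype.card D * z ^ c ≤
      Fintype.card E * Fintype.card Y ^ Fintype.card D := by
    refine le_trans (Nat.mul_le_mul_right _ h2) ?_
    rw [Finset.sum_mul]
    refine le_trans (Finset.sum_le_sum (fun e _ => h3 e)) ?_
    rw [Finset.sum_const, Finset.card_univ, smul_eq_mul]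
  have h5 : 0 < Fintype.card Y ^ Fintype.card D := pow_pos hY _
  have h6 : z ^ c ≤ Fintype.card E := by
    refine Nat.le_of_mul_le_mul_left ?_ h5
    rw [mul_comm (Fintype.card Y ^ Fintype.card D) (Fintype.card E)]
    exact h4
  omega

end restr

/-! ### Monotone functions with shallow decision trees -/

/-- the variables that are answered positively on the path with the answers `J` -/
def DT.pos {D : Type} : DT D → (ℕ → Bool) → List D
  | .leaf _, _ => []
  | .node d t0 t1, J => if J 0 then d :: t1.pos (fun n => J (n + 1))
      else t0.pos (fun n => J (n + 1))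

theorem DT.pos_length {D : Type} (τ : DT D) : ∀ J, (τ.pos J).length ≤ τ.depth := by
  induction τ with
  | leaf b => intro J; simp [DT.pos]
  | node d t0 t1 ih0 ih1 =>
    intro J
    simp only [DT.pos, DT.depth]
    split_ifs
    · have := ih1 (fun n => J (n + 1))
      simp only [List.length_cons]
      omega
    · have := ih0 (fun n => J (n + 1))
      omega

/-- the answers beyond the depth do not matter -/
theorem DT.pos_congr {D : Type} (τ : DT D) : ∀ J J' : ℕ → Bool, (∀ n < τ.depth, J n = J' n) →
    τ.pos J = τ.pos J' := by
  induction τ with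
  | leaf b => intro J J' _; rfl
  | node d t0 t1 ih0 ih1 =>
    intro J J' h
    simp only [DT.depth] at h
    have h0 := h 0 (by omega)
    simp only [DT.pos, h0]
    split_ifs
    · rw [ih1 _ _ (fun n hn => h (n + 1) (by omega))]
    · rw [ih0 _ _ (fun n hn => h (n + 1) (by omega))]

/-- the path of an input -/
theorem DT.exists_path {D : Type} (τ : DT D) (T : D → Prop) : ∃ J : ℕ → Bool,
    (∀ d ∈ τ.pos J, T d) ∧ ∀ T' : D → Prop, (∀ d ∈ τ.pos J, T' d) → (∀ d, T' d → T d) →
      (τ.eval T' ↔ τ.eval T) := by
  classical
  induction τ with
  | leaf b => exact ⟨fun _ => false, by simp [DT.pos], fun T' _ _ => Iff.rfl⟩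
  | node d t0 t1 ih0 ih1 =>
    by_cases hT : T d
    · obtain ⟨J, h1, h2⟩ := ih1
      refine ⟨fun n => match n with | 0 => true | n + 1 => J n, ?_, ?_⟩
      · intro d' hd'
        simp only [DT.pos, if_true, List.mem_cons] at hd'
        rcases hd' with rfl | hd'
        · exact hT
        · exact h1 d' hd'
      · intro T' h3 h4
        simp only [DT.pos, if_true, List.mem_cons] at h3
        have h5 : T' d := h3 d (Or.inl rfl)
        simp only [DT.eval, h5, hT, true_and, not_true, false_and, or_false]
        exact h2 T' (fun d' hd' => h3 d' (Or.inr hd')) h4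
    · obtain ⟨J, h1, h2⟩ := ih0
      refine ⟨fun n => match n with | 0 => false | n + 1 => J n, ?_, ?_⟩
      · intro d' hd'
        exact h1 d' (by simpa [DT.pos] using hd')
      · intro T' h3 h4
        have h5 : ¬ T' d := fun h => hT (h4 d h)
        simp only [DT.eval, h5, hT, false_and, not_false_eq_true, true_and, false_or]
        exact h2 T' (fun d' hd' => h3 d' (by simpa [DT.pos] using hd')) h4

/-- a monotone function with a decision tree of depth at most `c` is an `OR` of `2 ^ c` conjunctions
of at most `c` variables -/
theorem DT.dnf {D : Type} (τ : DT D) (c : ℕ) (hc : τ.depth ≤ c)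
    (hmono : ∀ T T' : D → Prop, (∀ d, T d → T' d) → τ.eval T → τ.eval T') :
    ∃ (L : (Fin c → Bool) → List D) (valid : (Fin c → Bool) → Prop),
      (∀ J, (L J).length ≤ c) ∧
      ∀ T, (τ.eval T ↔ ∃ J, valid J ∧ ∀ d ∈ L J, T d) := by
  classical
  let ext : (Fin c → Bool) → ℕ → Bool := fun J n => if h : n < c then J ⟨n, h⟩ else false
  refine ⟨fun J => τ.pos (ext J), fun J => τ.eval (fun d => d ∈ τ.pos (ext J)),
    fun J => (τ.pos_length _).trans hc, fun T => ⟨fun h => ?_, ?_⟩⟩
  · obtain ⟨J, h1, h2⟩ := τ.exists_path T
    have h3 : τ.pos (ext (fun j => J j.val)) = τ.pos J := by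
      apply τ.pos_congr
      intro n hn
      simp only [ext]
      rw [dif_pos (lt_of_lt_of_le hn hc)]
    refine ⟨fun j => J j.val, ?_, ?_⟩
    · show τ.eval (fun d => d ∈ τ.pos (ext (fun j => J j.val)))
      rw [h3]
      exact (h2 _ (fun d hd => hd) h1).2 h
    · show ∀ d ∈ τ.pos (ext (fun j => J j.val)), T d
      rw [h3]; exact h1
  · rintro ⟨J, h1, h2⟩
    exact hmono _ _ h2 h1

end Pool.Agent.W987
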