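import Mathlib
import Pool.Agent.W987.DTree

/-!
# Simulation of contacts which are short disjunctions of short conjunctions
-/

namespace Pool.Agent.W987

open Finset Relation

section sim

variable {D Q : Type} {c : ℕ}

/-- the nodes of the simulating network -/
abbrev SNode (Q : Type) (c : ℕ) : Type := Q ⊕ (Q × Q × (Fin c → Bool) × Fin (c + 1))

/-- unlabelled wires -/
def slink (L : Q → Q → (Fin c → Bool) → List D) (valid : Q → Q → (Fin c → Bool) → Prop) :
    SNode Q c → SNode Q c → Prop
  | .inl x, .inr (x', y', J, i) => x = x' ∧ i.val = 0 ∧ valid x' y' J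
  | .inr (_, y, _, i), .inl y' => y = y' ∧ i.val = c
  | .inr (x, y, J, i), .inr (x', y', J', i') =>
      x = x' ∧ y = y' ∧ J = J' ∧ i'.val = i.val + 1 ∧ (L x y J)[i.val]? = none
  | _, _ => False

/-- labelled wires -/
def swire (L : Q → Q → (Fin c → Bool) → List D) : SNode Q c → SNode Q c → D → Prop
  | .inr (x, y, J, i), .inr (x', y', J', i'), d =>
      x = x' ∧ y = y' ∧ J = J' ∧ i'.val = i.val + 1 ∧ (L x y J)[i.val]? = some d
  | _, _, _ => False

open Classical in
/-- the node of the original network to which a node of the simulating network is contracted -/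
noncomputable def rho (L : Q → Q → (Fin c → Bool) → List D)
    (valid : Q → Q → (Fin c → Bool) → Prop) (T : D → Prop) : SNode Q c → Q
  | .inl x => x
  | .inr (x, y, J, i) =>
      if valid x y J ∧ ∀ j < i.val, ∀ d, (L x y J)[j]? = some d → T d then x else y

theorem sim_sound (on : Q → Q → (D → Prop) → Prop) (L : Q → Q → (Fin c → Bool) → List D)
    (valid : Q → Q → (Fin c → Bool) → Prop) (hlen : ∀ x y J, (L x y J).length ≤ c)
    (hon : ∀ x y T, on x y T ↔ ∃ J, valid x y J ∧ ∀ d ∈ L x y J, T d)
    (T : D → Prop) {n n' : SNode Q c}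
    (h : slink L valid n n' ∨ ∃ d, swire L n n' d ∧ T d) :
    EqvGen (fun x y => on x y T) (rho L valid T n) (rho L valid T n') := by
  classical
  rcases n with x | ⟨x, y, J, i⟩ <;> rcases n' with x' | ⟨x', y', J', i'⟩
  · rcases h with h | ⟨d, h, _⟩
    · exact h.elim
    · exact h.elim
  · rcases h with h | ⟨d, h, _⟩
    · obtain ⟨rfl, h2, h3⟩ := h
      have : rho L valid T (Sum.inr (x, y', J', i')) = x := by
        simp only [rho]
        rw [if_pos]
        exact ⟨h3, fun j hj => by omega⟩
      rw [this]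
      exact EqvGen.refl _
    · exact h.elim
  · rcases h with h | ⟨d, h, _⟩
    · obtain ⟨rfl, h2⟩ := h
      simp only [rho]
      split_ifs with h3
      · refine EqvGen.rel _ _ ((hon _ _ _).2 ⟨J, h3.1, fun d hd => ?_⟩)
        obtain ⟨j, hj, hjd⟩ := List.mem_iff_getElem.1 hd
        refine h3.2 j ?_ d (by rw [List.getElem?_eq_getElem hj, hjd])
        have := hlen x y J
        omega
      · exact EqvGen.refl _
    · exact h.elim
  · have key : ∀ (hx : x = x') (hy : y = y') (hJ : J = J'), i'.val = i.val + 1 →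
        (∀ d, (L x y J)[i.val]? = some d → T d) → rho L valid T (Sum.inr (x, y, J, i)) =
        rho L valid T (Sum.inr (x', y', J', i')) := by
      rintro rfl rfl rfl hi hst
      simp only [rho]
      congr 1
      rw [hi]
      apply propext
      constructor
      · rintro ⟨h1, h2⟩
        refine ⟨h1, fun j hj => ?_⟩
        rcases Nat.lt_succ_iff_lt_or_eq.1 hj with h | h
        · exact h2 j h
        · rw [h]; exact hst
      · rintro ⟨h1, h2⟩
        exact ⟨h1, fun j hj => h2 j (by omega)⟩
    rcases h with h | ⟨d, h, hT⟩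
    · obtain ⟨h1, h2, h3, h4, h5⟩ := h
      rw [key h1 h2 h3 h4 (fun d hd => by rw [h5] at hd; cases hd)]
      exact EqvGen.refl _
    · obtain ⟨h1, h2, h3, h4, h5⟩ := h
      rw [key h1 h2 h3 h4 (fun d' hd' => by rw [h5] at hd'; rw [← Option.some.inj hd']; exact hT)]
      exact EqvGen.refl _

theorem sim_complete (L : Q → Q → (Fin c → Bool) → List D)
    (valid : Q → Q → (Fin c → Bool) → Prop)
    (T : D → Prop) {x y : Q} {J : Fin c → Bool} (h : valid x y J) (hJ : ∀ d ∈ L x y J, T d) :
    EqvGen (fun n n' : SNode Q c => slink L valid n n' ∨ ∃ d, swire L n n' d ∧ T d)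
      (.inl x) (.inl y) := by
  have hpath : ∀ i : ℕ, ∀ hi : i < c + 1,
      EqvGen (fun n n' : SNode Q c => slink L valid n n' ∨ ∃ d, swire L n n' d ∧ T d)
      (.inl x) (.inr (x, y, J, ⟨i, hi⟩)) := by
    intro i
    induction i with
    | zero => exact fun hi => EqvGen.rel _ _ (Or.inl ⟨rfl, rfl, h⟩)
    | succ i ih =>
      intro hi
      refine (ih (by omega)).trans _ _ _ (EqvGen.rel _ _ ?_)
      rcases hd : (L x y J)[i]? with _ | d
      · exact Or.inl ⟨rfl, rfl, rfl, rfl, hd⟩
      · exact Or.inr ⟨d, ⟨rfl, rfl, rfl, rfl, hd⟩, hJ d (List.mem_of_getElem? hd)⟩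
  exact (hpath c (by omega)).trans _ _ _ (EqvGen.rel _ _ (Or.inl ⟨rfl, rfl⟩))

theorem sim_iff (on : Q → Q → (D → Prop) → Prop) (L : Q → Q → (Fin c → Bool) → List D)
    (valid : Q → Q → (Fin c → Bool) → Prop) (hlen : ∀ x y J, (L x y J).length ≤ c)
    (hon : ∀ x y T, on x y T ↔ ∃ J, valid x y J ∧ ∀ d ∈ L x y J, T d)
    (T : D → Prop) (x y : Q) :
    EqvGen (fun n n' : SNode Q c => slink L valid n n' ∨ ∃ d, swire L n n' d ∧ T d)
      (.inl x) (.inl y) ↔ EqvGen (fun x y => on x y T) x y := by
  constructor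
  · intro h
    have key : ∀ n n', EqvGen (fun n n' : SNode Q c => slink L valid n n' ∨
        ∃ d, swire L n n' d ∧ T d) n n' →
        EqvGen (fun x y => on x y T) (rho L valid T n) (rho L valid T n') := by
      intro n n' h
      induction h with
      | rel n n' h => exact sim_sound on L valid hlen hon T h
      | refl n => exact EqvGen.refl _
      | symm n n' _ ih => exact ih.symm
      | trans n n' n'' _ _ ih1 ih2 => exact ih1.trans _ _ _ ih2
    exact key _ _ h
  · intro h
    induction h with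
    | rel x y h =>
      obtain ⟨J, h1, h2⟩ := (hon x y T).1 h
      exact sim_complete L valid T h1 h2
    | refl x => exact EqvGen.refl _
    | symm x y _ ih => exact ih.symm
    | trans x y z _ _ ih1 ih2 => exact ih1.trans _ _ _ ih2

theorem card_snode [Fintype Q] :
    Fintype.card (SNode Q c) ≤ Fintype.card Q ^ 2 * 2 ^ c * (c + 2) := by
  simp only [SNode, Fintype.card_sum, Fintype.card_prod, Fintype.card_fun, Fintype.card_fin,
    Fintype.card_bool]
  have h1 : 1 ≤ 2 ^ c := Nat.one_le_two_pow
  have h2 : Fintype.card Q ≤ Fintype.card Q ^ 2 := Nat.le_self_pow (by norm_num) _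
  have h3 : Fintype.card Q ≤ Fintype.card Q ^ 2 * 2 ^ c :=
    h2.trans (Nat.le_mul_of_pos_right _ h1)
  calc Fintype.card Q + Fintype.card Q * (Fintype.card Q * (2 ^ c * (c + 1)))
      ≤ Fintype.card Q ^ 2 * 2 ^ c + Fintype.card Q * (Fintype.card Q * (2 ^ c * (c + 1))) :=
        Nat.add_le_add_right h3 _
    _ = Fintype.card Q ^ 2 * 2 ^ c * (c + 2) := by ring

end sim

end Pool.Agent.W987
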