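import Mathlib
import Pool.Agent.H534R2.NotFlat
import Pool.Agent.W987.DnfSim

/-!
# Monotone undirected networks whose contacts have shallow decision trees: directed connectivity
-/

namespace Pool.Agent.W987

open Finset Relation H534R2.NotNet

/-- a network given by relations on a finite type of nodes -/
theorem exists_mnet {V Q : Type} [Fintype Q] (l : Q → Q → Prop) (w : Q → Q → V → V → Prop)
    (a b : Q) : ∃ N : MNet V, N.size = Fintype.card Q ∧ ∀ G : V → V → Prop, N.Accepts G ↔
      EqvGen (fun x y => l x y ∨ ∃ u v, w x y u v ∧ G u v) a b := by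
  let φ := Fintype.equivFin Q
  refine ⟨⟨Fintype.card Q, φ a, φ b, fun x y => l (φ.symm x) (φ.symm y),
    fun x y => w (φ.symm x) (φ.symm y)⟩, rfl, fun G => ?_⟩
  constructor
  · intro h
    have key : ∀ x y : Fin (Fintype.card Q), EqvGen (MNet.Pass (V := V) ⟨Fintype.card Q, φ a, φ b,
        fun x y => l (φ.symm x) (φ.symm y), fun x y => w (φ.symm x) (φ.symm y)⟩ G) x y →
        EqvGen (fun x y => l x y ∨ ∃ u v, w x y u v ∧ G u v) (φ.symm x) (φ.symm y) := by
      intro x y h
      induction h with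
      | rel x y h => exact EqvGen.rel _ _ h
      | refl x => exact EqvGen.refl _
      | symm x y _ ih => exact EqvGen.symm _ _ ih
      | trans x y z _ _ ih1 ih2 => exact EqvGen.trans _ _ _ ih1 ih2
    have := key _ _ h
    simpa using this
  · intro h
    have key : ∀ x y : Q, EqvGen (fun x y => l x y ∨ ∃ u v, w x y u v ∧ G u v) x y →
        EqvGen (MNet.Pass (V := V) ⟨Fintype.card Q, φ a, φ b,
        fun x y => l (φ.symm x) (φ.symm y), fun x y => w (φ.symm x) (φ.symm y)⟩ G)
          (φ x) (φ y) := by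
      intro x y h
      induction h with
      | rel x y h =>
        refine EqvGen.rel _ _ ?_
        show l (φ.symm (φ x)) (φ.symm (φ y)) ∨ ∃ u v, w (φ.symm (φ x)) (φ.symm (φ y)) u v ∧ G u v
        rw [Equiv.symm_apply_apply, Equiv.symm_apply_apply]
        exact h
      | refl x => exact EqvGen.refl _
      | symm x y _ ih => exact EqvGen.symm _ _ ih
      | trans x y z _ _ ih1 ih2 => exact EqvGen.trans _ _ _ ih1 ih2
    exact key _ _ h

section big

variable {W V : Type} {H : W → W → Prop} {ν : ℕ}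

/-- the arcs of the small host -/
abbrev Arc (H : W → W → Prop) : Type := {p : W × W // H p.1 p.2}

/-- the vertices of the small digraph, and the two cells of every arc of its host -/
abbrev UU (H : W → W → Prop) (ν : ℕ) : Type := W ⊕ (Arc H × Fin ν) ⊕ (Arc H × Fin ν)

open Classical in
/-- the place of a pair of vertices in the cells -/
noncomputable def cell (F : UU H ν → V) (p : V × V) : Option (Arc H × (Fin ν × Fin ν)) :=
  if h : ∃ x : Arc H × (Fin ν × Fin ν),
      p = (F (.inr (.inl (x.1, x.2.1))), F (.inr (.inr (x.1, x.2.2)))) then some h.choose else none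

open Classical in
/-- the constant arcs -/
noncomputable def con (F : UU H ν → V) (p : V × V) : Bool :=
  decide (∃ (d : Arc H) (i : Fin ν), p = (F (.inl d.1.1), F (.inr (.inl (d, i)))) ∨
    p = (F (.inr (.inr (d, i))), F (.inl d.1.2)))

theorem cell_some {F : UU H ν → V} (hF : Function.Injective F) (d : Arc H) (i j : Fin ν) :
    cell F (F (.inr (.inl (d, i))), F (.inr (.inr (d, j)))) = some (d, (i, j)) := by
  have h : ∃ x : Arc H × (Fin ν × Fin ν), (F (.inr (.inl (d, i))), F (.inr (.inr (d, j)))) =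
      (F (.inr (.inl (x.1, x.2.1))), F (.inr (.inr (x.1, x.2.2)))) := ⟨(d, (i, j)), rfl⟩
  simp only [cell, h, dif_pos]
  congr 1
  have h1 := h.choose_spec
  obtain ⟨x, hx⟩ : ∃ x, h.choose = x := ⟨_, rfl⟩
  rw [hx] at h1 ⊢
  obtain ⟨d', i', j'⟩ := x
  simp only [Prod.mk.injEq] at h1
  have h2 := Sum.inl.inj (Sum.inr.inj (hF h1.1))
  have h3 := Sum.inr.inj (Sum.inr.inj (hF h1.2))
  simp only [Prod.mk.injEq] at h2 h3
  rw [h2.1, h2.2, h3.2]

theorem inp_iff [DecidableEq (Arc H)] [DecidableEq (Fin ν × Fin ν)] {F : UU H ν → V}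
    (hF : Function.Injective F) (φ : Arc H → Fin ν × Fin ν) (T : Arc H → Prop) (u v : V) :
    inp (cell F) (con F) φ T (u, v) ↔ ∃ (d : Arc H) (i j : Fin ν),
      (u = F (.inl d.1.1) ∧ v = F (.inr (.inl (d, i)))) ∨
      (u = F (.inr (.inl (d, i))) ∧ v = F (.inr (.inr (d, j))) ∧ φ d = (i, j) ∧ T d) ∨
      (u = F (.inr (.inr (d, j))) ∧ v = F (.inl d.1.2)) := by
  constructor
  · intro h
    rcases hc : cell F (u, v) with _ | ⟨d, y⟩
    · have h1 : con F (u, v) = true := by simpa [inp, hc] using h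
      simp only [con, decide_eq_true_eq, Prod.mk.injEq] at h1
      obtain ⟨d, i, h2 | h2⟩ := h1
      · exact ⟨d, i, i, Or.inl h2⟩
      · exact ⟨d, i, i, Or.inr (Or.inr h2)⟩
    · have h1 : φ d = y ∧ T d := by simpa [inp, hc] using h
      have h2 : (u, v) = (F (.inr (.inl (d, y.1))), F (.inr (.inr (d, y.2)))) := by
        simp only [cell] at hc
        split_ifs at hc with h3
        have h4 := h3.choose_spec
        rw [Option.some.inj hc] at h4
        exact h4
      simp only [Prod.mk.injEq] at h2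
      exact ⟨d, y.1, y.2, Or.inr (Or.inl ⟨h2.1, h2.2, h1.1, h1.2⟩)⟩
  · rintro ⟨d, i, j, ⟨rfl, rfl⟩ | ⟨rfl, rfl, h1, h2⟩ | ⟨rfl, rfl⟩⟩
    · have hc : cell F (F (.inl d.1.1), F (.inr (.inl (d, i)))) = none := by
        simp only [cell]
        rw [dif_neg]
        rintro ⟨x, hx⟩
        simp only [Prod.mk.injEq] at hx
        exact absurd (hF hx.1) (by simp)
      simp only [inp, hc, con, decide_eq_true_eq]
      exact ⟨d, i, Or.inl rfl⟩
    · simp only [inp, cell_some hF]
      exact ⟨h1, h2⟩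
    · have hc : cell F (F (.inr (.inr (d, j))), F (.inl d.1.2)) = none := by
        simp only [cell]
        rw [dif_neg]
        rintro ⟨x, hx⟩
        simp only [Prod.mk.injEq] at hx
        exact absurd (hF hx.2) (by simp)
      simp only [inp, hc, con, decide_eq_true_eq]
      exact ⟨d, j, Or.inr rfl⟩

theorem big_reach [DecidableEq (Arc H)] [DecidableEq (Fin ν × Fin ν)] {F : UU H ν → V}
    (hF : Function.Injective F) (φ : Arc H → Fin ν × Fin ν)
    (G : W → W → Prop) (hG : ∀ a b, G a b → H a b) (a b : W) :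
    ReflTransGen (fun u v => inp (cell F) (con F) φ (fun d => G d.1.1 d.1.2) (u, v))
      (F (.inl a)) (F (.inl b)) ↔ ReflTransGen G a b := by
  constructor
  · intro h
    have key : ∀ v, ReflTransGen (fun u v => inp (cell F) (con F) φ (fun d => G d.1.1 d.1.2) (u, v))
        (F (.inl a)) v →
        ∃ x : UU H ν, v = F x ∧ (∀ w, x = .inl w → ReflTransGen G a w) ∧
          (∀ d i, x = .inr (.inl (d, i)) → ReflTransGen G a d.1.1) ∧
          (∀ d i, x = .inr (.inr (d, i)) → ReflTransGen G a d.1.2) := by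
      intro v hv
      induction hv with
      | refl =>
        refine ⟨.inl a, rfl, ?_, ?_, ?_⟩
        · intro w h; rw [← Sum.inl.inj h]
        · intro d i h; cases h
        · intro d i h; cases h
      | @tail v v' _ hvv ih =>
        obtain ⟨x, rfl, h1, h2, h3⟩ := ih
        obtain ⟨d, i, j, ⟨e1, e2⟩ | ⟨e1, e2, _, e3⟩ | ⟨e1, e2⟩⟩ := (inp_iff hF φ _ _ _).1 hvv
        · refine ⟨_, e2, ?_, ?_, ?_⟩
          · intro w h; cases h
          · intro d' i h
            have h' := Sum.inl.inj (Sum.inr.inj h)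
            have h4 : d = d' := congrArg Prod.fst h'
            rw [← h4]
            exact h1 _ (hF e1)
          · intro d' i h
            exact absurd (Sum.inr.inj h) (by simp)
        · refine ⟨_, e2, ?_, ?_, ?_⟩
          · intro w h; cases h
          · intro d' i h
            exact absurd (Sum.inr.inj h) (by simp)
          · intro d' i h
            have h' := Sum.inr.inj (Sum.inr.inj h)
            have h4 : d = d' := congrArg Prod.fst h'
            rw [← h4]
            exact (h2 d _ (hF e1)).tail e3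
        · refine ⟨_, e2, ?_, ?_, ?_⟩
          · intro w h
            rw [← Sum.inl.inj h]
            exact h3 d _ (hF e1)
          · intro d i h; cases h
          · intro d i h; cases h
    obtain ⟨x, hx, h1, _⟩ := key _ h
    exact h1 b (hF hx).symm
  · intro h
    induction h with
    | refl => exact .refl
    | @tail b c _ hbc ih =>
      let d : Arc H := ⟨(b, c), hG b c hbc⟩
      refine ((ih.tail (b := F (.inl b)) (c := F (.inr (.inl (d, (φ d).1)))) ?_).tail
        (c := F (.inr (.inr (d, (φ d).2)))) ?_).tail ?_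
      · exact (inp_iff hF φ _ _ _).2 ⟨d, (φ d).1, (φ d).2, Or.inl ⟨rfl, rfl⟩⟩
      · exact (inp_iff hF φ _ _ _).2
          ⟨d, (φ d).1, (φ d).2, Or.inr (Or.inl ⟨rfl, rfl, rfl, hbc⟩)⟩
      · exact (inp_iff hF φ _ _ _).2 ⟨d, (φ d).1, (φ d).2, Or.inr (Or.inr ⟨rfl, rfl⟩)⟩

end big

/-- an injection with two prescribed values -/
theorem exists_inj {U V : Type} [Fintype U] [Fintype V] {a b : U} {s t : V} (hab : a ≠ b)
    (hst : s ≠ t) (h : Fintype.card U ≤ Fintype.card V) :
    ∃ F : U → V, Function.Injective F ∧ F a = s ∧ F b = t := by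
  classical
  obtain ⟨g⟩ : Nonempty (U ↪ V) := Function.Embedding.nonempty_of_card_le h
  let σ₁ := Equiv.swap (g a) s
  let b' := σ₁ (g b)
  have hb' : b' ≠ s := by
    intro hb
    have h1 : σ₁ (g a) = s := Equiv.swap_apply_left _ _
    exact hab (g.injective (σ₁.injective (h1.trans hb.symm)))
  let σ₂ := Equiv.swap b' t
  refine ⟨fun x => σ₂ (σ₁ (g x)), ?_, ?_, ?_⟩
  · intro x y hxy
    exact g.injective (σ₁.injective (σ₂.injective hxy))
  · show σ₂ (σ₁ (g a)) = s
    have h1 : σ₁ (g a) = s := Equiv.swap_apply_left _ _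
    rw [h1]
    exact Equiv.swap_apply_of_ne_of_ne hb'.symm hst
  · exact Equiv.swap_apply_left _ _

/-- The combinatorial core: a network whose contacts have shallow decision trees gives a monotone
network for the small host. -/
theorem tree_core {V Q : Type} [Fintype V] [Fintype Q] {s t : V} (hst : s ≠ t)
    (τ : Q → Q → DT (V × V)) (a b : Q)
    (hmono : ∀ x y (G G' : V → V → Prop), (∀ u v, G u v → G' u v) →
      (τ x y).eval (fun p => G p.1 p.2) → (τ x y).eval (fun p => G' p.1 p.2))
    (hdec : ∀ G : V → V → Prop, EqvGen (fun x y => (τ x y).eval (fun p => G p.1 p.2)) a b ↔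
      ReflTransGen G s t)
    (K ν z c : ℕ) (hK : 1 ≤ K) (hν : 1 ≤ ν)
    (hV : 2 ^ (5 * K) + 2 + 2 * (2 ^ (9 * K) * ν) ≤ Fintype.card V)
    (hA : ∀ x y, 2 * (τ x y).depth * z ≤ ν * ν)
    (hcz : Fintype.card Q * Fintype.card Q < z ^ c) :
    2 ^ (K * (K - 1)) ≤ 4 * 3 ^ (K + 1) * (Fintype.card Q ^ 2 * 2 ^ c * (c + 2)) := by
  classical
  by_contra hcon
  push Not at hcon
  -- the small host
  let W := Fin (2 ^ (5 * K) + 2)
  obtain ⟨w0, w1, h01⟩ : ∃ w0 w1 : W, w0 ≠ w1 := ⟨0, 1, by
    intro h
    have := congrArg Fin.val h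
    simp at this⟩
  obtain ⟨H, hH, hbound⟩ := rounds_host K 1 hK W w0 w1 h01
    (by simp [W])
  have hHcard : Fintype.card (Arc H) ≤ 2 ^ (9 * K) := by
    have h1 : Fintype.card (Arc H) = {p : W × W | H p.1 p.2}.ncard := by
      rw [← Nat.card_coe_set_eq, Nat.card_eq_fintype_card]
      rfl
    rw [h1]
    simpa using hH
  have hU : Fintype.card (UU H ν) ≤ Fintype.card V := by
    simp only [UU, Fintype.card_sum, Fintype.card_prod, Fintype.card_fin, W]
    have := Nat.mul_le_mul_right ν hHcard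
    omega
  obtain ⟨F, hF, hFs, hFt⟩ := exists_inj (U := UU H ν) (a := .inl w0)
    (b := .inl w1) (fun h => h01 (Sum.inl.inj h)) hst hU
  have : Nonempty (Fin ν) := ⟨⟨0, hν⟩⟩
  -- the selection
  obtain ⟨φ, hφ⟩ := dt_selection (D := Arc H) (E := Q × Q) (Y := Fin ν × Fin ν) (cell F) (con F)
    (fun e => τ e.1 e.2) z c
    (by intro e; rw [Fintype.card_prod, Fintype.card_fin]; exact hA e.1 e.2)
    (by rw [Fintype.card_prod]; exact hcz)
  -- the contacts as functions of the arcs of the small host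
  let on' : Q → Q → (Arc H → Prop) → Prop := fun x y T =>
    (τ x y).eval (inp (cell F) (con F) φ T)
  have hmono' : ∀ x y (T T' : Arc H → Prop), (∀ d, T d → T' d) → on' x y T → on' x y T' := by
    intro x y T T' h
    refine hmono x y (fun u v => inp (cell F) (con F) φ T (u, v))
      (fun u v => inp (cell F) (con F) φ T' (u, v)) (fun u v huv => ?_)
    rw [inp_iff hF] at huv ⊢
    obtain ⟨d, i, j, h1 | ⟨h1, h2, h3, h4⟩ | h1⟩ := huv
    · exact ⟨d, i, j, Or.inl h1⟩
    · exact ⟨d, i, j, Or.inr (Or.inl ⟨h1, h2, h3, h _ h4⟩)⟩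
    · exact ⟨d, i, j, Or.inr (Or.inr h1)⟩
  have hdnf : ∀ x y, ∃ (L : (Fin c → Bool) → List (Arc H)) (valid : (Fin c → Bool) → Prop),
      (∀ J, (L J).length ≤ c) ∧ ∀ T, (on' x y T ↔ ∃ J, valid J ∧ ∀ d ∈ L J, T d) := by
    intro x y
    have hev : ∀ T, (restr (cell F) (con F) φ (τ x y) (fun _ => none)).eval T ↔ on' x y T :=
      fun T => eval_restr (cell F) (con F) φ T (τ x y) (fun _ => none) (fun d v h => by cases h)
    obtain ⟨L, valid, h1, h2⟩ := (restr (cell F) (con F) φ (τ x y) (fun _ => none)).dnf c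
      (hφ (x, y)).le (fun T T' h hT => (hev T').2 (hmono' x y T T' h ((hev T).1 hT)))
    exact ⟨L, valid, h1, fun T => by rw [← hev, h2]⟩
  choose L valid hlen hon using hdnf
  -- the monotone network for the small host
  obtain ⟨N, hN1, hN2⟩ := exists_mnet (V := W) (Q := SNode Q c) (slink L valid)
    (fun n n' u v => ∃ h : H u v, swire L n n' ⟨(u, v), h⟩) (.inl a) (.inl b)
  have hfalse := hbound 0 (fun _ => 0) (fun _ _ _ => N) (fun _ _ _ _ _ => rfl) (by
    intro _
    simp only [Finset.range_zero, Finset.sum_empty, zero_add]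
    rw [hN1]
    exact lt_of_le_of_lt (Nat.mul_le_mul_left _ card_snode) hcon) (by
    intro G hG
    refine ⟨fun _ _ => True, fun i hi => absurd hi (Nat.not_lt_zero i), ?_⟩
    rw [hN2]
    have h1 : (fun x y : SNode Q c => slink L valid x y ∨ ∃ u v,
        (∃ h : H u v, swire L x y ⟨(u, v), h⟩) ∧ G u v) =
        (fun n n' => slink L valid n n' ∨ ∃ d, swire L n n' d ∧ G d.1.1 d.1.2) := by
      funext n n'
      apply propext
      constructor
      · rintro (h | ⟨u, v, ⟨h, h2⟩, h3⟩)
        · exact Or.inl h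
        · exact Or.inr ⟨⟨(u, v), h⟩, h2, h3⟩
      · rintro (h | ⟨⟨⟨u, v⟩, h⟩, h2, h3⟩)
        · exact Or.inl h
        · exact Or.inr ⟨u, v, ⟨h, h2⟩, h3⟩
    rw [h1, sim_iff on' L valid hlen hon, ← big_reach hF φ G hG, hFs, hFt, ← hdec])
  simp at hfalse

end Pool.Agent.W987
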