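import Mathlib
import Pool.Agent.W987.TreeMain

/-!
# Monotone undirected networks whose contacts have shallow decision trees: the numbers
-/

namespace Pool.Agent.W987

open Finset Relation

theorem tree_bound {V Q : Type} [Fintype V] [Fintype Q] {s t : V} (hst : s ≠ t)
    (τ : Q → Q → DT (V × V)) (a b : Q)
    (hmono : ∀ x y (G G' : V → V → Prop), (∀ u v, G u v → G' u v) →
      (τ x y).eval (fun p => G p.1 p.2) → (τ x y).eval (fun p => G' p.1 p.2))
    (hdec : ∀ G : V → V → Prop, EqvGen (fun x y => (τ x y).eval (fun p => G p.1 p.2)) a b ↔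
      ReflTransGen G s t)
    (f : ℕ) (hA : ∀ x y, (τ x y).depth * f ≤ Fintype.card V ^ 2) :
    f ^ Nat.log 2 f ≤ Fintype.card Q ^ 2 ^ 22 := by
  classical
  have hbot : ¬ ReflTransGen (fun _ _ : V => False) s t := by
    intro h
    have key : ∀ v, ReflTransGen (fun _ _ : V => False) s v → v = s := by
      intro v h
      induction h with
      | refl => rfl
      | tail _ h _ => exact h.elim
    exact hst (key t h).symm
  have htop : ReflTransGen (fun _ _ : V => True) s t := .single trivial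
  have hab : a ≠ b := by
    rintro rfl
    exact hbot ((hdec _).1 (EqvGen.refl _))
  have hq2 : 2 ≤ Fintype.card Q := Fintype.one_lt_card_iff.2 ⟨a, b, hab⟩
  obtain ⟨L, hL⟩ : ∃ L, Nat.log 2 f = L := ⟨_, rfl⟩
  obtain ⟨q, hq⟩ : ∃ q, Fintype.card Q = q := ⟨_, rfl⟩
  obtain ⟨n, hn⟩ : ∃ n, Fintype.card V = n := ⟨_, rfl⟩
  rw [hL, hq]
  rw [hq] at hq2
  have hf2 : f < 2 ^ (L + 1) := by rw [← hL]; exact Nat.lt_pow_succ_log_self (by norm_num) f
  have hfL : f ^ L ≤ 2 ^ ((L + 1) * L) := by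
    rw [pow_mul]
    exact Nat.pow_le_pow_left hf2.le L
  rcases Nat.lt_or_ge L 2000 with hL2 | hL2
  · calc f ^ L ≤ 2 ^ ((L + 1) * L) := hfL
      _ ≤ 2 ^ 2 ^ 22 := by
        apply Nat.pow_le_pow_right (by norm_num)
        have : (L + 1) * L ≤ 2000 * 2000 := Nat.mul_le_mul (by omega) (by omega)
        refine this.trans (by norm_num)
      _ ≤ q ^ 2 ^ 22 := Nat.pow_le_pow_left hq2 _
  · by_contra hcon
    push Not at hcon
    have hf0 : f ≠ 0 := by
      rintro rfl
      simp at hL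
      omega
    have hLf : 2 ^ L ≤ f := by rw [← hL]; exact Nat.pow_log_le_self 2 hf0
    -- the views are small, hence `f ≤ n ^ 2`
    have hfn : f ≤ n ^ 2 := by
      by_contra hlt
      push Not at hlt
      have hleaf : ∀ x y, ∃ b, τ x y = DT.leaf b := by
        intro x y
        rcases h : τ x y with b | ⟨i, t0, t1⟩
        · exact ⟨b, rfl⟩
        · exfalso
          have h2 := hA x y
          rw [hn, h] at h2
          have h3 : 1 * f ≤ (DT.node i t0 t1).depth * f :=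
            Nat.mul_le_mul_right f (by simp [DT.depth])
          omega
      have h1 : (fun x y => (τ x y).eval (fun p => (fun _ _ : V => True) p.1 p.2)) =
          (fun x y => (τ x y).eval (fun p => (fun _ _ : V => False) p.1 p.2)) := by
        funext x y
        obtain ⟨b, hb⟩ := hleaf x y
        rw [hb]
        rfl
      apply hbot
      refine (hdec (fun _ _ : V => False)).1 ?_
      rw [← h1]
      exact (hdec (fun _ _ : V => True)).2 htop
    obtain ⟨k, hk⟩ : ∃ k, L / 100 = k + 20 := ⟨L / 100 - 20, by omega⟩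
    obtain ⟨K, hK⟩ : ∃ K, K = k + 20 := ⟨_, rfl⟩
    have hK1 : 100 * K ≤ L := by omega
    have hK2 : L + 1 ≤ 100 * K + 100 := by omega
    have h100 : 2 ^ (100 * K) ≤ f :=
      (Nat.pow_le_pow_right (by norm_num) hK1).trans hLf
    have hn50 : 2 ^ (50 * K) ≤ n := by
      by_contra h
      push Not at h
      have : n ^ 2 < (2 ^ (50 * K)) ^ 2 := Nat.pow_lt_pow_left h (by norm_num)
      rw [← pow_mul] at this
      have h3 : 50 * K * 2 = 100 * K := by ring
      rw [h3] at this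
      omega
    obtain ⟨ν, hν⟩ : ∃ ν, ν = n / 2 ^ (9 * K + 2) := ⟨_, rfl⟩
    have hpos : 0 < 2 ^ (9 * K + 2) := by positivity
    have hν1 : 1 ≤ ν := by
      rw [hν, Nat.one_le_div_iff hpos]
      exact (Nat.pow_le_pow_right (by norm_num) (by omega)).trans hn50
    have hν2 : ν * 2 ^ (9 * K + 2) ≤ n := by rw [hν]; exact Nat.div_mul_le_self _ _
    have hν3 : n ≤ ν * 2 ^ (9 * K + 3) := by
      have h1 : n < (n / 2 ^ (9 * K + 2) + 1) * 2 ^ (9 * K + 2) := by
        rw [mul_comm]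
        exact Nat.lt_mul_div_succ n hpos
      rw [← hν] at h1
      have h2 : (ν + 1) * 2 ^ (9 * K + 2) ≤ (ν + ν) * 2 ^ (9 * K + 2) :=
        Nat.mul_le_mul_right _ (by omega)
      have h3 : ν * 2 ^ (9 * K + 3) = (ν + ν) * 2 ^ (9 * K + 2) := by
        rw [show 9 * K + 3 = (9 * K + 2) + 1 by ring, pow_succ]
        ring
      omega
    have hV : 2 ^ (5 * K) + 2 + 2 * (2 ^ (9 * K) * ν) ≤ Fintype.card V := by
      rw [hn]
      have h1 : ν * 2 ^ (9 * K + 2) = 4 * (2 ^ (9 * K) * ν) := by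
        rw [pow_add]; ring
      have h2 : 2 ^ (5 * K + 2) ≤ 2 ^ (50 * K) := Nat.pow_le_pow_right (by norm_num) (by omega)
      have h3 : 2 ^ (5 * K + 2) = 4 * 2 ^ (5 * K) := by rw [pow_add]; ring
      have h4 : 2 ≤ 2 ^ (5 * K) := by
        calc 2 = 2 ^ 1 := rfl
          _ ≤ 2 ^ (5 * K) := Nat.pow_le_pow_right (by norm_num) (by omega)
      omega
    have hA' : ∀ x y, 2 * (τ x y).depth * 2 ^ K ≤ ν * ν := by
      intro x y
      obtain ⟨δ, hδ⟩ : ∃ δ, (τ x y).depth = δ := ⟨_, rfl⟩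
      have h1 := hA x y
      rw [hn, hδ] at h1
      rw [hδ]
      have h2 : n ^ 2 ≤ (ν * 2 ^ (9 * K + 3)) ^ 2 := Nat.pow_le_pow_left hν3 2
      have h3 : (ν * 2 ^ (9 * K + 3)) ^ 2 = ν * ν * 2 ^ (18 * K + 6) := by
        rw [mul_pow, ← pow_mul, show (9 * K + 3) * 2 = 18 * K + 6 by ring]; ring
      have h4 : ν * ν * 2 ^ (18 * K + 6) ≤ ν * ν * 2 ^ (98 * K) :=
        Nat.mul_le_mul_left _ (Nat.pow_le_pow_right (by norm_num) (by omega))
      have h5 : δ * 2 ^ (100 * K) ≤ δ * f := Nat.mul_le_mul_left _ h100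
      have h6 : 2 * δ * 2 ^ K * 2 ^ (98 * K) = δ * 2 ^ (99 * K + 1) := by
        rw [show 99 * K + 1 = K + 98 * K + 1 by ring, pow_succ, pow_add]; ring
      have h6' : δ * 2 ^ (99 * K + 1) ≤ δ * 2 ^ (100 * K) :=
        Nat.mul_le_mul_left _ (Nat.pow_le_pow_right (by norm_num) (by omega))
      have h7 : 2 * δ * 2 ^ K * 2 ^ (98 * K) ≤ ν * ν * 2 ^ (98 * K) := by omega
      exact Nat.le_of_mul_le_mul_right h7 (by positivity)
    -- the size
    obtain ⟨m, hm⟩ : ∃ m, Nat.log 2 q = m := ⟨_, rfl⟩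
    have hm1 : 2 ^ m ≤ q := by rw [← hm]; exact Nat.pow_log_le_self 2 (by omega)
    have hm2 : q < 2 ^ (m + 1) := by rw [← hm]; exact Nat.lt_pow_succ_log_self (by norm_num) q
    have hmC : m * 2 ^ 22 < (L + 1) * L := by
      have h1 : 2 ^ (m * 2 ^ 22) < 2 ^ ((L + 1) * L) := by
        rw [pow_mul]
        exact lt_of_le_of_lt (Nat.pow_le_pow_left hm1 _) (lt_of_lt_of_le hcon hfL)
      exact (Nat.pow_lt_pow_iff_right (by norm_num)).1 h1
    have hmK : 380 * m ≤ K * K := by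
      have h1 : (L + 1) * L ≤ (105 * K) * (105 * K) := Nat.mul_le_mul (by omega) (by omega)
      have h2 : m * 4194304 ≤ 11025 * (K * K) := by
        have : (105 * K) * (105 * K) = 11025 * (K * K) := by ring
        have h22 : (2 : ℕ) ^ 22 = 4194304 := by norm_num
        rw [h22] at hmC
        omega
      omega
    obtain ⟨c, hc⟩ : ∃ c, c = K / 16 + 1 := ⟨_, rfl⟩
    have hc1 : K + 1 ≤ 16 * c := by omega
    have hc2 : 16 * c ≤ K + 16 := by omega
    have hKc : 2 * m + 4 ≤ K * c := by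
      have h1 : K * (K + 1) ≤ K * (16 * c) := Nat.mul_le_mul_left K hc1
      have h2 : K * (16 * c) = 16 * (K * c) := by ring
      have h3 : K * (K + 1) = K * K + K := by ring
      have h4 : 20 * 20 ≤ K * K := Nat.mul_le_mul (by omega) (by omega)
      omega
    have hqq : q * q ≤ 2 ^ (2 * m + 2) := by
      calc q * q ≤ 2 ^ (m + 1) * 2 ^ (m + 1) := Nat.mul_le_mul hm2.le hm2.le
        _ = 2 ^ (2 * m + 2) := by rw [← pow_add]; congr 1; ring
    have hcz : Fintype.card Q * Fintype.card Q < (2 ^ K) ^ c := by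
      rw [hq, ← pow_mul]
      calc q * q ≤ 2 ^ (2 * m + 2) := hqq
        _ < 2 ^ (2 * m + 4) := Nat.pow_lt_pow_right (by norm_num) (by omega)
        _ ≤ 2 ^ (K * c) := Nat.pow_le_pow_right (by norm_num) hKc
    have hcore := tree_core hst τ a b hmono hdec K ν (2 ^ K) c (by omega) hν1 hV hA' hcz
    rw [hq] at hcore
    have h1 : 4 * 3 ^ (K + 1) ≤ 2 ^ (2 * K + 4) := by
      calc 4 * 3 ^ (K + 1) ≤ 4 * 4 ^ (K + 1) :=
            Nat.mul_le_mul_left 4 (Nat.pow_le_pow_left (by norm_num) _)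
        _ = 2 ^ (2 * K + 4) := by
          rw [show (4 : ℕ) = 2 ^ 2 by norm_num, ← pow_mul, ← pow_add]; congr 1; ring
    have h2 : c + 2 ≤ 2 ^ (c + 1) := by
      have := Nat.lt_two_pow_self (n := c + 1)
      omega
    have h3 : 2 ^ (K * (K - 1)) ≤ 2 ^ (2 * K + 2 * m + 2 * c + 7) := by
      calc 2 ^ (K * (K - 1)) ≤ 4 * 3 ^ (K + 1) * (q ^ 2 * 2 ^ c * (c + 2)) := hcore
        _ ≤ 2 ^ (2 * K + 4) * (2 ^ (2 * m + 2) * 2 ^ c * 2 ^ (c + 1)) := by
          apply Nat.mul_le_mul h1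
          apply Nat.mul_le_mul _ h2
          apply Nat.mul_le_mul_right
          rw [sq]
          exact hqq
        _ = 2 ^ (2 * K + 2 * m + 2 * c + 7) := by
          rw [← pow_add, ← pow_add, ← pow_add]; congr 1; ring
    have h4 : K * (K - 1) ≤ 2 * K + 2 * m + 2 * c + 7 :=
      (Nat.pow_le_pow_iff_right (by norm_num)).1 h3
    have h5 : K * (K - 1) + K = K * K := by
      rw [hK]
      have : k + 20 - 1 = k + 19 := by omega
      rw [this]; ring
    have h6 : 20 * K ≤ K * K := Nat.mul_le_mul_right K (by omega)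
    omega

end Pool.Agent.W987
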