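import Mathlib
import Pool.Agent.W987.FPDefs

/-!
# Definitions: boundaries of reachable sets and independence numbers
-/

namespace Pool.Agent.W987

open Relation Pool.Agent.H534R2

/-- The vertices that cannot be reached from `s` but have an arc to a vertex that can be reached
from `s`. -/
def InBd {V : Type} (E : V → V → Prop) (s : V) : Set V :=
  {x | ¬ ReflTransGen E s x ∧ ∃ w, ReflTransGen E s w ∧ E x w}

/-- The vertices from which `t` cannot be reached but which have an arc from a vertex from which
`t` can be reached. -/
def OutBd {V : Type} (E : V → V → Prop) (t : V) : Set V :=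
  {x | ¬ ReflTransGen E x t ∧ ∃ w, ReflTransGen E w t ∧ E w x}

/-- Every set of pairwise non-adjacent vertices in `O` has at most `k` elements. -/
def IndepLe {V : Type} (E : V → V → Prop) (O : Set V) (k : ℕ) : Prop :=
  ∀ S : Finset V, (∀ x ∈ S, x ∈ O) → (∀ x ∈ S, ∀ y ∈ S, x ≠ y → ¬ E x y) → S.card ≤ k

/-- Among the in-neighbours of every vertex at most `a` are pairwise non-adjacent, and among its
out-neighbours at most `b`. -/
def LocalIndep (a b : ℕ) (V : Type) (E : V → V → Prop) : Prop :=
  ∀ v : V, IndepLe E {x | x ≠ v ∧ E x v} a ∧ IndepLe E {x | x ≠ v ∧ E v x} b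

end Pool.Agent.W987
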