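import Mathlib
import Pool.Agent.H534R2.HFree
import Pool.Agent.W987.FPDefs

/-!
# Directed reachability along paths with few cuts

A `w`-cut of a walk without shortcuts is a step which is not covered by an arc that goes back from
one of the next `w` vertices to one of the previous `w` vertices.  Reachability along walks without
`t` pairwise non-adjacent `w`-cuts is expressed by a formula of `FO(STC)`.
-/

namespace Pool.Agent.W987

open Relation Pool.Agent.H534R2

variable {V : Type}

theorem NoShortcut.geo {E : V → V → Prop} {p : ℕ → V} {l : ℕ} (h : NoShortcut E p l) :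
    Geo E p l := ⟨h.1, h.2.1, h.2.2⟩

theorem cut_of_unmerged {C w : ℕ} (hC : 2 * w ≤ C) {E : V → V → Prop} {p : ℕ → V} {l : ℕ}
    (hp : Geo E p l) {i : ℕ} (hi : ¬ rnd C E 1 (p i) (p (i + 1))) (h1 : w ≤ i + 1)
    (h2 : i + w ≤ l) : IsCut E w p l i := by
  refine ⟨h1, h2, fun a b ha ha' hb hb' => ?_⟩
  refine no_cheap_chord (C := C) (r := 0) hp (i := i) (a := a) (b := b) hi ha hb (by omega) ?_
  have h3 := cnt_le_len (rnd C E 0) p (i + 1) b
  have h4 := cnt_le_len (rnd C E 0) p a i
  omega

theorem cuts_base {C w : ℕ} (hw : 1 ≤ w) (hC : 2 * w ≤ C) {E : V → V → Prop} {p : ℕ → V} {l : ℕ}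
    (hp : Geo E p l) (hno : ¬ HasCuts E w p l 1) : cnt (rnd C E 1) p 0 l ≤ 2 * w + 2 := by
  classical
  have hmid : ∀ i, w ≤ i + 1 → i + w ≤ l → rnd C E 1 (p i) (p (i + 1)) := by
    intro i h1 h2
    by_contra hcon
    apply hno
    refine ⟨fun _ => i, fun _ => cut_of_unmerged hC hp hcon h1 h2, ?_⟩
    intro k k' hk
    omega
  rcases Nat.lt_or_ge l (2 * w) with h | h
  · have := cnt_le_len (rnd C E 1) p 0 l
    omega
  · have h1 := cnt_add (rnd C E 1) p (Nat.zero_le (w - 1)) (show w - 1 ≤ l by omega)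
    have h2 := cnt_add (rnd C E 1) p (show w - 1 ≤ l + 1 - w by omega)
      (show l + 1 - w ≤ l by omega)
    have h3 := cnt_zero_of (rnd C E 1) p (a := w - 1) (b := l + 1 - w)
      (fun i hi hi' => hmid i (by omega) (by omega))
    have h4 := cnt_le_len (rnd C E 1) p 0 (w - 1)
    have h5 := cnt_le_len (rnd C E 1) p (l + 1 - w) l
    omega

/-- the counting step of the induction -/
theorem cuts_count (w : ℕ) (hw : 1 ≤ w) (S S' : V → V → Prop) (p : ℕ → V) (l N : ℕ)
    (hSS : ∀ a b, S a b → S' a b)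
    (h : ∀ i, i < l → ¬ S' (p i) (p (i + 1)) →
      cnt S p 0 (i - 1) ≤ N ∨ cnt S p (i + w) (l + 1 - w) = 0) :
    cnt S' p 0 l ≤ N + (2 * w + 2) := by
  classical
  let U' := (Finset.Ico 0 l).filter (fun i => ¬ S' (p i) (p (i + 1)))
  let S1 := U'.filter (fun i => cnt S p 0 (i - 1) ≤ N)
  let S2 := U'.filter (fun i => cnt S p (i + w) (l + 1 - w) = 0)
  have hU : U' ⊆ S1 ∪ S2 := by
    intro i hi
    have hi' := hi
    rw [Finset.mem_filter, Finset.mem_Ico] at hi'
    rcases h i hi'.1.2 hi'.2 with h1 | h1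
    · exact Finset.mem_union_left _ (Finset.mem_filter.2 ⟨hi, h1⟩)
    · exact Finset.mem_union_right _ (Finset.mem_filter.2 ⟨hi, h1⟩)
  have hc1 : S1.card ≤ N + 2 := by
    rcases S1.eq_empty_or_nonempty with he | hne
    · rw [he]; simp
    · obtain ⟨i, hi, hmax⟩ := S1.exists_max_image id hne
      have hi' := (Finset.mem_filter.1 hi)
      have hsub : S1 ⊆ (Finset.Ico 0 (i + 1)).filter (fun i => ¬ S (p i) (p (i + 1))) := by
        intro j hj
        have := hmax j hj
        simp only [id] at this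
        rw [Finset.mem_filter, Finset.mem_Ico]
        have hj' := (Finset.mem_filter.1 (Finset.mem_filter.1 hj).1).2
        exact ⟨by omega, fun hh => hj' (hSS _ _ hh)⟩
      have h1 : S1.card ≤ cnt S p 0 (i + 1) := Finset.card_le_card hsub
      have h2 := cnt_add S p (Nat.zero_le (i - 1)) (show i - 1 ≤ i + 1 by omega)
      have h3 := cnt_le_len S p (i - 1) (i + 1)
      have h4 := hi'.2
      omega
  have hc2 : S2.card ≤ 2 * w := by
    rcases S2.eq_empty_or_nonempty with he | hne
    · rw [he]; simp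
    · obtain ⟨i, hi, hmin⟩ := S2.exists_min_image id hne
      have hi' := (Finset.mem_filter.1 hi)
      have hsub : S2 ⊆ (Finset.Ico i l).filter (fun i => ¬ S (p i) (p (i + 1))) := by
        intro j hj
        have := hmin j hj
        simp only [id] at this
        rw [Finset.mem_filter, Finset.mem_Ico]
        have hj' := (Finset.mem_filter.1 (Finset.mem_filter.1 hj).1)
        have hj1 := (Finset.mem_Ico.1 hj'.1)
        exact ⟨by omega, fun hh => hj'.2 (hSS _ _ hh)⟩
      have h1 : S2.card ≤ cnt S p i l := Finset.card_le_card hsub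
      have h5 := cnt_le_len S p i l
      rcases Nat.lt_or_ge (l + 1 - w) (i + w) with h | h
      · omega
      · have h2 := cnt_add S p (show i ≤ i + w by omega) (show i + w ≤ l by omega)
        have h3 := cnt_add S p (show i + w ≤ l + 1 - w by omega) (show l + 1 - w ≤ l by omega)
        have h4 := hi'.2
        have h6 := cnt_le_len S p i (i + w)
        have h7 := cnt_le_len S p (l + 1 - w) l
        omega
  have : U'.card ≤ S1.card + S2.card :=
    (Finset.card_le_card hU).trans (Finset.card_union_le _ _)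
  change U'.card ≤ N + (2 * w + 2)
  omega

/-- passing from a piece of the walk to the walk -/
theorem HasCuts.of_shift {E : V → V → Prop} {w : ℕ} {p : ℕ → V} {l t a m : ℕ}
    (ham : a + m ≤ l) (h : HasCuts E w (fun k => p (a + k)) m t) :
    ∃ c : Fin t → ℕ, (∀ k, IsCut E w p l (c k) ∧ a + w ≤ c k + 1 ∧ c k + w ≤ a + m) ∧
    ∀ k k', k < k' → ∀ a b, a ≤ c k + w → c k < a + w → b ≤ c k' + w → c k' < b + w →
      a < b ∧ ¬ E (p a) (p b) ∧ ¬ E (p b) (p a) := by
  obtain ⟨c, h1, h2⟩ := h
  refine ⟨fun k => a + c k, fun k => ?_, ?_⟩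
  · obtain ⟨h3, h4, h5⟩ := h1 k
    show IsCut E w p l (a + c k) ∧ a + w ≤ a + c k + 1 ∧ a + c k + w ≤ a + m
    refine ⟨⟨by omega, by omega, fun x y hx hx' hy hy' => ?_⟩, by omega, by omega⟩
    have := h5 (x - a) (y - a) (by omega) (by omega) (by omega) (by omega)
    simp only at this
    rwa [show a + (y - a) = y by omega, show a + (x - a) = x by omega] at this
  · intro k k' hk x y h3 h4 h5 h6
    dsimp only at h3 h4 h5 h6
    obtain ⟨h7, h8, h9⟩ := h1 k
    obtain ⟨h7', h8', h9'⟩ := h1 k'
    have := h2 k k' hk (x - a) (y - a) (by omega) (by omega) (by omega) (by omega)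
    simp only at this
    rw [show a + (y - a) = y by omega, show a + (x - a) = x by omega] at this
    exact ⟨by omega, this.2⟩

/-- the geometric step of the induction -/
theorem cuts_geo {C t w : ℕ} (hw : 1 ≤ w) (ht : 1 ≤ t) (hC : (2 * w + 2) * t + (2 * w + 2) ≤ C)
    {E : V → V → Prop} {p : ℕ → V} {l : ℕ} (hp : Geo E p l)
    (IH : ∀ a m, a + m ≤ l → ¬ HasCuts E w (fun k => p (a + k)) m t →
      cnt (rnd C E t) (fun k => p (a + k)) 0 m ≤ (2 * w + 2) * t)
    (hno : ¬ HasCuts E w p l (t + 1))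
    (i : ℕ) (hil : i < l) (hi : ¬ rnd C E (t + 1) (p i) (p (i + 1))) :
    cnt (rnd C E t) p 0 (i - 1) ≤ (2 * w + 2) * t ∨
      cnt (rnd C E t) p (i + w) (l + 1 - w) = 0 := by
  classical
  by_contra hcon
  push Not at hcon
  obtain ⟨hA, hB⟩ := hcon
  apply hno
  set S := rnd C E t with hS
  set N := (2 * w + 2) * t with hN
  -- choose the left window
  have hexa : ∃ a, cnt S p a (i - 1) ≤ N := ⟨i - 1, by
    have := cnt_le_len S p (i - 1) (i - 1); omega⟩
  obtain ⟨a0, ha0, ha1, ha2⟩ : ∃ a0, a0 < i - 1 ∧ N + 1 ≤ cnt S p a0 (i - 1) ∧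
      cnt S p a0 (i - 1) ≤ N + 1 := by
    have hspec := Nat.find_spec hexa
    have hpos : Nat.find hexa ≠ 0 := by
      intro h0
      rw [h0] at hspec
      omega
    have hmin := Nat.find_min hexa (m := Nat.find hexa - 1) (by omega)
    refine ⟨Nat.find hexa - 1, ?_, by omega, ?_⟩
    · by_contra hc
      have := cnt_le_len S p (Nat.find hexa - 1) (i - 1)
      omega
    · have hle : Nat.find hexa ≤ i - 1 := by
        apply Nat.find_min' hexa
        have := cnt_le_len S p (i - 1) (i - 1); omega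
      have := cnt_add S p (show Nat.find hexa - 1 ≤ Nat.find hexa by omega) hle
      have h2 := cnt_le_len S p (Nat.find hexa - 1) (Nat.find hexa)
      omega
  -- choose the right step
  have hexv : ∃ v, i + w ≤ v ∧ v < l + 1 - w ∧ ¬ S (p v) (p (v + 1)) := by
    by_contra hcon
    push Not at hcon
    exact hB (cnt_zero_of S p (fun v h1 h2 => hcon v h1 h2))
  obtain ⟨v, ⟨hv1, hv2, hv3⟩, hvmin⟩ :
      ∃ v, (i + w ≤ v ∧ v < l + 1 - w ∧ ¬ S (p v) (p (v + 1))) ∧
      ∀ x, x < v → ¬ (i + w ≤ x ∧ x < l + 1 - w ∧ ¬ S (p x) (p (x + 1))) :=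
    ⟨Nat.find hexv, Nat.find_spec hexv, fun w hw => Nat.find_min hexv hw⟩
  have hmidz : cnt S p (i + w) v = 0 := by
    apply cnt_zero_of
    intro x h1 h2
    by_contra h3
    exact hvmin x h2 ⟨h1, by omega, h3⟩
  have hright : cnt S p (i + 1) (v + w) ≤ 2 * w - 1 := by
    have h1 := cnt_add S p (show i + 1 ≤ i + w by omega) (show i + w ≤ v + w by omega)
    have h2 := cnt_add S p (show i + w ≤ v by omega) (show v ≤ v + w by omega)
    have h3 := cnt_le_len S p (i + 1) (i + w)
    have h4 := cnt_le_len S p v (v + w)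
    omega
  -- the left cuts
  have hA' : HasCuts E w (fun k => p (a0 + k)) (i - 1 - a0) t := by
    by_contra hcon
    have h1 := IH a0 (i - 1 - a0) (by omega) hcon
    rw [cnt_shift, show a0 + (i - 1 - a0) = i - 1 by omega] at h1
    omega
  obtain ⟨c, hc1, hc2⟩ := hA'.of_shift (l := l) (by omega)
  -- the right cut
  have hv3' : ¬ rnd C E 1 (p v) (p (v + 1)) := fun h => hv3 (rnd_mono_r C E ht h)
  have hq := cut_of_unmerged (C := C) (w := w) (by omega) hp (i := v) hv3' (by omega)
    (by omega)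
  refine ⟨fun k => if h : k.val < t then c ⟨k.val, h⟩ else v, fun k => ?_, ?_⟩
  · by_cases h : k.val < t
    · simp only [h, dif_pos]; exact (hc1 _).1
    · simp only [h, dif_neg, not_false_eq_true]; exact hq
  · intro k k' hk a b ha ha' hb hb'
    by_cases h : k'.val < t
    · have h' : k.val < t := lt_trans hk h
      simp only [h, h', dif_pos] at ha ha' hb hb'
      exact hc2 ⟨k.val, h'⟩ ⟨k'.val, h⟩ hk a b ha ha' hb hb'
    · have h' : k.val < t := by
        have h1 := k'.2
        have h2 : k.val < k'.val := hk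
        omega
      simp only [h', h, dif_pos, dif_neg, not_false_eq_true] at ha ha' hb hb'
      obtain ⟨_, h3, h4⟩ := hc1 ⟨k.val, h'⟩
      refine ⟨by omega, hp.noshort a b (by omega) (by omega), ?_⟩
      intro hE
      refine no_cheap_chord (C := C) (r := t) hp hi (a := a) (b := b) (by omega) (by omega)
        (by omega) ?_ hE
      rw [← hS]
      have h5 : cnt S p (i + 1) b ≤ cnt S p (i + 1) (v + w) :=
        cnt_le_of_subset S p (le_refl _) (by omega)
      have h6 : cnt S p a i ≤ cnt S p a0 i := cnt_le_of_subset S p (by omega) (le_refl _)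
      have h7 := cnt_add S p (show a0 ≤ i - 1 by omega) (show i - 1 ≤ i by omega)
      have h8 := cnt_le_len S p (i - 1) i
      omega

theorem cuts_claim (w : ℕ) (hw : 1 ≤ w) (t : ℕ) (ht : 1 ≤ t) : ∀ (C : ℕ), (2 * w + 2) * t ≤ C →
    ∀ (E : V → V → Prop) (p : ℕ → V) (l : ℕ), Geo E p l → ¬ HasCuts E w p l t →
      cnt (rnd C E t) p 0 l ≤ (2 * w + 2) * t := by
  induction t, ht using Nat.le_induction with
  | base =>
    intro C hC E p l hp hno
    have := cuts_base (C := C) hw (by omega) hp hno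
    omega
  | succ t ht ih =>
      intro C hC E p l hp hno
      have h0 : (2 * w + 2) * (t + 1) = (2 * w + 2) * t + (2 * w + 2) := by ring
      have := cuts_count w hw (rnd C E t) (rnd C E (t + 1)) p l ((2 * w + 2) * t)
        (fun a b h => rnd_step C E t h)
        (fun i h1 h2 => cuts_geo hw ht (by omega) hp
          (fun a m ham hno' => ih C (by omega) E _ m (hp.shift a m ham) hno') hno i h1 h2)
      omega

/-- For all `w` and `t` one formula of `FO(STC)` holds only for pairs `(s, d)` such that `d` can be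
reached from `s`, and for all pairs joined by a walk without shortcuts that does not have `t`
pairwise non-adjacent `w`-cuts. -/
theorem exists_formula (w t : ℕ) (hw : 1 ≤ w) : ∃ φ : Fm 2, ∀ (V : Type) (E : V → V → Prop),
    (∀ s d : V, φ.Holds E ![s, d] → ReflTransGen E s d) ∧
    ∀ (p : ℕ → V) (l : ℕ), NoShortcut E p l → ¬ HasCuts E w p l t →
      φ.Holds E ![p 0, p l] := by
  rcases Nat.eq_zero_or_pos t with h0 | h0
  · subst h0
    refine ⟨Fm.eq 0 1, fun V E => ⟨fun s d h => ?_, fun p l _ h => ?_⟩⟩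
    · have h' : s = d := h
      subst h'
      exact .refl
    · exact absurd ⟨Fin.elim0, fun k => k.elim0, fun k => k.elim0⟩ h
  · obtain ⟨φ, hφ⟩ := dfn_Tle (dfn_rnd ((2 * w + 2) * t) t) ((2 * w + 2) * t)
    refine ⟨φ, fun V E => ⟨fun s d h => ?_, fun p l hp hno => ?_⟩⟩
    · rw [hφ] at h
      exact Tle_sound (fun a b h => (rnd_sound _ E t a b h).1) _ s d h
    · rw [hφ]
      have h1 := cuts_claim w hw t h0 _ (le_refl _) E p l hp.geo hno
      have h2 := Tle_path (rnd_equiv ((2 * w + 2) * t) E t) (Nat.zero_le l)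
        (fun i _ hi => hp.1 i hi)
      exact Tle_mono_n h1 h2

end Pool.Agent.W987
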