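import Mathlib
import Pool.Agent.W987.Cuts

/-!
# Quantifier-free interpretations that preserve directed reachability
-/

namespace Pool.Agent.W987

open Relation Pool.Agent.H534R2

theorem Hard.mono {C C' : ∀ V : Type, (V → V → Prop) → Prop} (h : Hard C)
    (hh : ∀ V E, C V E → C' V E) : Hard C' := by
  obtain ⟨c, ψ, h1, h2⟩ := h
  exact ⟨c, ψ, h1, fun V E => ⟨hh _ _ (h2 V E).1, (h2 V E).2⟩⟩

/-- definability by a quantifier-free formula -/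
def QDfn (Q : Qry 4) : Prop := ∃ φ : Fm 4, QF φ ∧ ∀ V E ν, φ.Holds (V := V) E ν ↔ Q V E ν

theorem QDfn.congr {Q Q' : Qry 4} (h : QDfn Q) (hh : ∀ V E ν, Q V E ν ↔ Q' V E ν) : QDfn Q' := by
  obtain ⟨φ, h1, h2⟩ := h
  exact ⟨φ, h1, fun V E ν => (h2 V E ν).trans (hh V E ν)⟩

theorem QDfn.eq (i j : Fin 4) : QDfn (fun _ _ ν => ν i = ν j) :=
  ⟨.eq i j, trivial, fun _ _ _ => Iff.rfl⟩

theorem QDfn.edge (i j : Fin 4) : QDfn (fun _ E ν => E (ν i) (ν j)) :=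
  ⟨.edge i j, trivial, fun _ _ _ => Iff.rfl⟩

theorem QDfn.neg {Q : Qry 4} (h : QDfn Q) : QDfn (fun V E ν => ¬ Q V E ν) := by
  obtain ⟨φ, h1, h2⟩ := h
  exact ⟨.neg φ, h1, fun V E ν => by simp [Fm.Holds, h2]⟩

theorem QDfn.and {Q Q' : Qry 4} (h : QDfn Q) (h' : QDfn Q') :
    QDfn (fun V E ν => Q V E ν ∧ Q' V E ν) := by
  obtain ⟨φ, h1, h2⟩ := h
  obtain ⟨φ', h1', h2'⟩ := h'
  exact ⟨.and φ φ', ⟨h1, h1'⟩, fun V E ν => by simp [Fm.Holds, h2, h2']⟩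

theorem QDfn.or {Q Q' : Qry 4} (h : QDfn Q) (h' : QDfn Q') :
    QDfn (fun V E ν => Q V E ν ∨ Q' V E ν) :=
  ((h.neg.and h'.neg).neg).congr (fun V E ν => by tauto)

theorem QDfn.const (p : Prop) : QDfn (fun _ _ _ => p) := by
  by_cases h : p
  · exact (QDfn.eq 0 0).congr (fun V E ν => by simp [h])
  · exact (QDfn.eq 0 0).neg.congr (fun V E ν => by simp [h])

/-- A gadget given by relations that are quantifier-free definable proves hardness. -/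
theorem hard_of {C : ∀ V : Type, (V → V → Prop) → Prop} (c : ℕ)
    (R : Fin (c + 1) → Fin (c + 1) → Qry 4) (hR : ∀ i j, QDfn (R i j))
    (h : ∀ (V : Type) (E : V → V → Prop) (F : Fin (c + 1) × V × V → Fin (c + 1) × V × V → Prop),
      (∀ x y, F x y ↔ R x.1 y.1 V E ![x.2.1, x.2.2, y.2.1, y.2.2]) →
      C _ F ∧ ∀ s t : V, ReflTransGen E s t ↔ ReflTransGen F (0, s, s) (0, t, t)) : Hard C := by
  choose φ h1 h2 using hR
  exact ⟨c, φ, h1, fun V E => h V E (interp φ E) (fun x y => h2 _ _ _ _ _)⟩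

/-! ### Directed paths with five vertices -/

/-- no loops and no digons, and every walk with five vertices has a chord that goes back two steps -/
def NoP5 (V : Type) (E : V → V → Prop) : Prop :=
  (∀ a b, E a b → ¬ E b a) ∧ ∀ p : Fin 5 → V,
    (E (p 0) (p 1) ∧ E (p 1) (p 2) ∧ E (p 2) (p 3) ∧ E (p 3) (p 4)) →
    (E (p 2) (p 0) ∨ E (p 3) (p 1) ∨ E (p 4) (p 2))

/-- the arcs of the gadget for `P5` -/
def R5 (i j : Fin 3) : Qry 4 := fun _ E ν =>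
  (i = 0 ∧ j = 1 ∧ ν 0 = ν 1 ∧ ν 0 = ν 2 ∧ E (ν 2) (ν 3)) ∨
  (i = 1 ∧ j = 2 ∧ ν 0 = ν 2 ∧ ν 1 = ν 3 ∧ E (ν 0) (ν 1)) ∨
  (i = 2 ∧ j = 0 ∧ ν 2 = ν 3 ∧ E (ν 0) (ν 1) ∧ (ν 2 = ν 0 ∨ ν 2 = ν 1))

theorem R5_dfn (i j : Fin 3) : QDfn (R5 i j) :=
  ((QDfn.const _).and ((QDfn.const _).and ((QDfn.eq 0 1).and ((QDfn.eq 0 2).and
    (QDfn.edge 2 3))))).or
  (((QDfn.const _).and ((QDfn.const _).and ((QDfn.eq 0 2).and ((QDfn.eq 1 3).and
    (QDfn.edge 0 1))))).or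
  ((QDfn.const _).and ((QDfn.const _).and ((QDfn.eq 2 3).and ((QDfn.edge 0 1).and
    ((QDfn.eq 2 0).or (QDfn.eq 2 1)))))))

theorem hard_P5 : Hard NoP5 := by
  refine hard_of 2 R5 R5_dfn (fun V E F hF => ?_)
  have hF' : ∀ (i j : Fin 3) (a b c d : V), F (i, a, b) (j, c, d) ↔
      ((i = 0 ∧ j = 1 ∧ a = b ∧ a = c ∧ E c d) ∨
      (i = 1 ∧ j = 2 ∧ a = c ∧ b = d ∧ E a b) ∨
      (i = 2 ∧ j = 0 ∧ c = d ∧ E a b ∧ (c = a ∨ c = b))) := by
    intro i j a b c d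
    rw [hF]
    rfl
  refine ⟨⟨?_, ?_⟩, fun s t => ⟨fun h => ?_, fun h => ?_⟩⟩
  · rintro ⟨i, a, b⟩ ⟨j, c, d⟩ h h'
    rw [hF'] at h h'
    rcases h with ⟨rfl, rfl, _⟩ | ⟨rfl, rfl, _⟩ | ⟨rfl, rfl, _⟩ <;>
      simp at h'
  · rintro p ⟨h0, h1, h2, h3⟩
    obtain ⟨⟨i0, a0, b0⟩, e0⟩ : ∃ x, p 0 = x := ⟨_, rfl⟩
    obtain ⟨⟨i1, a1, b1⟩, e1⟩ : ∃ x, p 1 = x := ⟨_, rfl⟩
    obtain ⟨⟨i2, a2, b2⟩, e2⟩ : ∃ x, p 2 = x := ⟨_, rfl⟩
    obtain ⟨⟨i3, a3, b3⟩, e3⟩ : ∃ x, p 3 = x := ⟨_, rfl⟩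
    obtain ⟨⟨i4, a4, b4⟩, e4⟩ : ∃ x, p 4 = x := ⟨_, rfl⟩
    rw [e0, e1, hF'] at h0
    rw [e1, e2, hF'] at h1
    rw [e2, e3, hF'] at h2
    rw [e3, e4, hF'] at h3
    rcases h0 with ⟨rfl, rfl, rfl, rfl, h0⟩ | ⟨rfl, rfl, rfl, rfl, h0⟩ | ⟨rfl, rfl, rfl, h0, h0'⟩
    · -- types 0 1 2
      left
      rw [e2, e0, hF']
      rcases h1 with ⟨h, _⟩ | ⟨_, rfl, rfl, rfl, h1⟩ | ⟨h, _⟩
      · simp at h
      · exact Or.inr (Or.inr ⟨rfl, rfl, rfl, h1, Or.inl rfl⟩)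
      · simp at h
    · -- types 1 2 0 1 2
      right; right
      rw [e4, e2, hF']
      rcases h1 with ⟨h, _⟩ | ⟨h, _⟩ | ⟨_, rfl, rfl, h1, h1'⟩
      · simp at h
      · simp at h
      · rcases h2 with ⟨_, rfl, _, rfl, h2⟩ | ⟨h, _⟩ | ⟨h, _⟩
        · rcases h3 with ⟨h, _⟩ | ⟨_, rfl, rfl, rfl, h3⟩ | ⟨h, _⟩
          · simp at h
          · exact Or.inr (Or.inr ⟨rfl, rfl, rfl, h3, Or.inl rfl⟩)
          · simp at h
        · simp at h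
        · simp at h
    · -- types 2 0 1 2
      right; left
      rw [e3, e1, hF']
      rcases h1 with ⟨_, rfl, _, rfl, h1⟩ | ⟨h, _⟩ | ⟨h, _⟩
      · rcases h2 with ⟨h, _⟩ | ⟨_, rfl, rfl, rfl, h2⟩ | ⟨h, _⟩
        · simp at h
        · exact Or.inr (Or.inr ⟨rfl, rfl, rfl, h2, Or.inl rfl⟩)
        · simp at h
      · simp at h
      · simp at h
  · induction h with
    | refl => exact .refl
    | @tail b c _ hbc ih =>
      refine ih.trans ?_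
      have s1 : F (0, b, b) (1, b, c) := (hF' _ _ _ _ _ _).2 (Or.inl ⟨rfl, rfl, rfl, rfl, hbc⟩)
      have s2 : F (1, b, c) (2, b, c) :=
        (hF' _ _ _ _ _ _).2 (Or.inr (Or.inl ⟨rfl, rfl, rfl, rfl, hbc⟩))
      have s3 : F (2, b, c) (0, c, c) :=
        (hF' _ _ _ _ _ _).2 (Or.inr (Or.inr ⟨rfl, rfl, rfl, hbc, Or.inr rfl⟩))
      exact ((ReflTransGen.single s1).tail s2).tail s3
  · have key : ∀ x, ReflTransGen F (0, s, s) x → ReflTransGen E s x.2.1 ∧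
        (x.1 = 2 → E x.2.1 x.2.2) := by
      intro x hx
      induction hx with
      | refl => exact ⟨.refl, fun h => by simp at h⟩
      | @tail y z _ hyz ih =>
        obtain ⟨i, a, b⟩ := y
        obtain ⟨j, c, d⟩ := z
        rw [hF'] at hyz
        rcases hyz with ⟨rfl, rfl, rfl, rfl, h1⟩ | ⟨rfl, rfl, rfl, rfl, h1⟩ |
          ⟨rfl, rfl, rfl, h1, h2⟩
        · exact ⟨ih.1, fun h => by simp at h⟩
        · exact ⟨ih.1, fun _ => h1⟩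
        · refine ⟨?_, fun h => by simp at h⟩
          rcases h2 with rfl | rfl
          · exact ih.1
          · exact ih.1.tail h1
    exact (key _ h).1

/-! ### Asymmetric arcs -/

/-- an arc that is not in a digon -/
def Asym {V : Type} (E : V → V → Prop) (a b : V) : Prop := E a b ∧ ¬ E b a

/-- the arcs of the gadget in which asymmetric arcs do not leave a common vertex -/
def Rout (i j : Fin 2) : Qry 4 := fun _ E ν =>
  (i = 0 ∧ j = 1 ∧ ν 0 = ν 1 ∧ ν 0 = ν 2 ∧ E (ν 2) (ν 3)) ∨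
  (i = 1 ∧ j = 0 ∧ ν 2 = ν 3 ∧ E (ν 0) (ν 1) ∧ (ν 2 = ν 0 ∨ ν 2 = ν 1))

theorem Rout_dfn (i j : Fin 2) : QDfn (Rout i j) :=
  ((QDfn.const _).and ((QDfn.const _).and ((QDfn.eq 0 1).and ((QDfn.eq 0 2).and
    (QDfn.edge 2 3))))).or
  ((QDfn.const _).and ((QDfn.const _).and ((QDfn.eq 2 3).and ((QDfn.edge 0 1).and
    ((QDfn.eq 2 0).or (QDfn.eq 2 1))))))

theorem hard_out : Hard (fun _ E => (∀ a b c, Asym E a b → Asym E a c → b = c) ∧
    ∀ a b c, Asym E a b → ¬ Asym E b c) := by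
  refine hard_of 1 Rout Rout_dfn (fun V E F hF => ?_)
  have hF' : ∀ (i j : Fin 2) (a b c d : V), F (i, a, b) (j, c, d) ↔
      ((i = 0 ∧ j = 1 ∧ a = b ∧ a = c ∧ E c d) ∨
      (i = 1 ∧ j = 0 ∧ c = d ∧ E a b ∧ (c = a ∨ c = b))) := by
    intro i j a b c d
    rw [hF]
    rfl
  have hasym : ∀ x y, Asym F x y → x.1 = 1 ∧ y = (0, x.2.2, x.2.2) := by
    rintro ⟨i, a, b⟩ ⟨j, c, d⟩ ⟨h1, h2⟩
    rw [hF'] at h1 h2
    rcases h1 with ⟨rfl, rfl, rfl, rfl, h⟩ | ⟨rfl, rfl, rfl, h, h'⟩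
    · exact absurd (Or.inr ⟨rfl, rfl, rfl, h, Or.inl rfl⟩) h2
    · rcases h' with rfl | rfl
      · exact absurd (Or.inl ⟨rfl, rfl, rfl, rfl, h⟩) h2
      · exact ⟨rfl, rfl⟩
  refine ⟨⟨?_, ?_⟩, fun s t => ⟨fun h => ?_, fun h => ?_⟩⟩
  · intro a b c h1 h2
    rw [(hasym _ _ h1).2, (hasym _ _ h2).2]
  · intro a b c h1 h2
    have h3 := (hasym _ _ h1).2
    have h4 := (hasym _ _ h2).1
    rw [h3] at h4
    simp at h4
  · induction h with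
    | refl => exact .refl
    | @tail b c _ hbc ih =>
      refine ih.trans ?_
      have s1 : F (0, b, b) (1, b, c) := (hF' _ _ _ _ _ _).2 (Or.inl ⟨rfl, rfl, rfl, rfl, hbc⟩)
      have s3 : F (1, b, c) (0, c, c) :=
        (hF' _ _ _ _ _ _).2 (Or.inr ⟨rfl, rfl, rfl, hbc, Or.inr rfl⟩)
      exact (ReflTransGen.single s1).tail s3
  · have key : ∀ x, ReflTransGen F (0, s, s) x → ReflTransGen E s x.2.1 := by
      intro x hx
      induction hx with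
      | refl => exact .refl
      | @tail y z _ hyz ih =>
        obtain ⟨i, a, b⟩ := y
        obtain ⟨j, c, d⟩ := z
        rw [hF'] at hyz
        rcases hyz with ⟨rfl, rfl, rfl, rfl, h1⟩ | ⟨rfl, rfl, rfl, h1, h2⟩
        · exact ih
        · rcases h2 with rfl | rfl
          · exact ih
          · exact ih.tail h1
    exact key _ h

/-- the arcs of the gadget in which asymmetric arcs do not enter a common vertex -/
def Rin (i j : Fin 2) : Qry 4 := fun _ E ν =>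
  (i = 0 ∧ j = 1 ∧ ν 0 = ν 1 ∧ E (ν 2) (ν 3) ∧ (ν 0 = ν 2 ∨ ν 0 = ν 3)) ∨
  (i = 1 ∧ j = 0 ∧ ν 2 = ν 3 ∧ E (ν 0) (ν 1) ∧ ν 2 = ν 1)

theorem Rin_dfn (i j : Fin 2) : QDfn (Rin i j) :=
  ((QDfn.const _).and ((QDfn.const _).and ((QDfn.eq 0 1).and ((QDfn.edge 2 3).and
    ((QDfn.eq 0 2).or (QDfn.eq 0 3)))))).or
  ((QDfn.const _).and ((QDfn.const _).and ((QDfn.eq 2 3).and ((QDfn.edge 0 1).and
    (QDfn.eq 2 1)))))

theorem hard_in : Hard (fun _ E => ∀ a b c, Asym E a c → Asym E b c → a = b) := by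
  refine hard_of 1 Rin Rin_dfn (fun V E F hF => ?_)
  have hF' : ∀ (i j : Fin 2) (a b c d : V), F (i, a, b) (j, c, d) ↔
      ((i = 0 ∧ j = 1 ∧ a = b ∧ E c d ∧ (a = c ∨ a = d)) ∨
      (i = 1 ∧ j = 0 ∧ c = d ∧ E a b ∧ c = b)) := by
    intro i j a b c d
    rw [hF]
    rfl
  have hasym : ∀ x y, Asym F x y → y.1 = 1 ∧ x = (0, y.2.1, y.2.1) := by
    rintro ⟨i, a, b⟩ ⟨j, c, d⟩ ⟨h1, h2⟩
    rw [hF'] at h1 h2
    rcases h1 with ⟨rfl, rfl, rfl, h, h'⟩ | ⟨rfl, rfl, rfl, h, h'⟩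
    · rcases h' with rfl | rfl
      · exact ⟨rfl, rfl⟩
      · exact absurd (Or.inr ⟨rfl, rfl, rfl, h, rfl⟩) h2
    · subst h'
      exact absurd (Or.inl ⟨rfl, rfl, rfl, h, Or.inr rfl⟩) h2
  refine ⟨?_, fun s t => ⟨fun h => ?_, fun h => ?_⟩⟩
  · intro a b c h1 h2
    rw [(hasym _ _ h1).2, (hasym _ _ h2).2]
  · induction h with
    | refl => exact .refl
    | @tail b c _ hbc ih =>
      refine ih.trans ?_
      have s1 : F (0, b, b) (1, b, c) :=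
        (hF' _ _ _ _ _ _).2 (Or.inl ⟨rfl, rfl, rfl, hbc, Or.inl rfl⟩)
      have s3 : F (1, b, c) (0, c, c) :=
        (hF' _ _ _ _ _ _).2 (Or.inr ⟨rfl, rfl, rfl, hbc, rfl⟩)
      exact (ReflTransGen.single s1).tail s3
  · -- `x` of type one leads only to `x.2.2`
    have key : ∀ x, ReflTransGen F (0, s, s) x → (x.1 = 0 → ReflTransGen E s x.2.1) ∧
        (x.1 = 1 → ReflTransGen E s x.2.2) := by
      intro x hx
      induction hx with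
      | refl => exact ⟨fun _ => .refl, fun _ => .refl⟩
      | @tail y z _ hyz ih =>
        obtain ⟨i, a, b⟩ := y
        obtain ⟨j, c, d⟩ := z
        rw [hF'] at hyz
        rcases hyz with ⟨rfl, rfl, rfl, h1, h2⟩ | ⟨rfl, rfl, rfl, h1, h2⟩
        · refine ⟨fun h => by simp at h, fun _ => ?_⟩
          rcases h2 with rfl | rfl
          · exact (ih.1 rfl).tail h1
          · exact ih.1 rfl
        · refine ⟨fun _ => ?_, fun h => by simp at h⟩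
          subst h2
          exact ih.2 rfl
    exact (key _ h).1 rfl

end Pool.Agent.W987
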