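import Mathlib
import Pool.Agent.W987.QFred
import Pool.Agent.W987.IBDefs

/-!
# Reachability and independence numbers of boundaries
-/

namespace Pool.Agent.W987

open Relation Pool.Agent.H534R2

section core

variable {V : Type}

/-- the vertices with a walk of at most `r` arcs to some `q i` different from `s` -/
def Shadow (E : V → V → Prop) (r : ℕ) {k : ℕ} (q : Fin k → V) (s x : V) : Prop :=
  ∃ i, q i ≠ s ∧ Tle E Eq r x (q i)

/-- one step between vertices outside the shadow, in either direction -/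
def Off (E : V → V → Prop) (r : ℕ) {k : ℕ} (q : Fin k → V) (s a b : V) : Prop :=
  E a b ∧ ¬ Shadow E r q s a ∧ ¬ Shadow E r q s b

/-- no arc leads from the component of `s` outside the shadow into the shadow -/
def Good (E : V → V → Prop) (r : ℕ) {k : ℕ} (q : Fin k → V) (s : V) : Prop :=
  ¬ Shadow E r q s s ∧ ∀ x y, EqvGen (Off E r q s) s x → E x y → ¬ Shadow E r q s y

/-- the upper approximation of reachability -/
def Up (E : V → V → Prop) (r k : ℕ) (s t : V) : Prop :=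
  ∀ q : Fin k → V, Good E r q s → EqvGen (Off E r q s) s t

theorem up_of_reach {E : V → V → Prop} {r k : ℕ} {s t : V} (h : ReflTransGen E s t) :
    Up E r k s t := by
  intro q hq
  have key : EqvGen (Off E r q s) s t ∧ ¬ Shadow E r q s t := by
    induction h with
    | refl => exact ⟨EqvGen.refl _, hq.1⟩
    | @tail b c _ hbc ih =>
      have h1 := hq.2 b c ih.1 hbc
      exact ⟨ih.1.trans _ _ _ (EqvGen.rel _ _ ⟨hbc, ih.2, h1⟩), h1⟩
  exact key.1

theorem reach_of_up {E : V → V → Prop} {r k : ℕ} {s t : V} (q : Fin k → V)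
    (hq : ∀ i, q i = s ∨ ¬ ReflTransGen E s (q i))
    (hcov : ∀ x ∈ InBd E s, Shadow E r q s x) (h : Up E r k s t) : ReflTransGen E s t := by
  have hR : ∀ x, ReflTransGen E s x → ¬ Shadow E r q s x := by
    rintro x hx ⟨i, hi, hxi⟩
    rcases hq i with h1 | h1
    · exact hi h1
    · exact h1 (hx.trans (Tle_sound (fun a b h => by rw [h]) r x _ hxi))
  have hW : ∀ x, EqvGen (Off E r q s) s x → ReflTransGen E s x := by
    have key : ∀ x y, EqvGen (Off E r q s) x y → (ReflTransGen E s x ↔ ReflTransGen E s y) := by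
      intro x y hxy
      induction hxy with
      | rel a b h =>
        refine ⟨fun h' => h'.tail h.1, fun h' => ?_⟩
        by_contra h''
        exact h.2.1 (hcov a ⟨h'', b, h', h.1⟩)
      | refl a => exact Iff.rfl
      | symm a b _ ih => exact ih.symm
      | trans a b c _ _ h1 h2 => exact h1.trans h2
    exact fun x hx => (key s x hx).1 .refl
  exact hW t (h q ⟨hR s .refl, fun x y hx hxy => hR y ((hW x hx).tail hxy)⟩)

/-- every finite digraph has an independent set that is reached from every vertex by at most two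
arcs (Chvátal and Lovász) -/
theorem quasi_kernel (E : V → V → Prop) (n : ℕ) : ∀ O : Finset V, O.card ≤ n →
    ∃ Q : Finset V, Q ⊆ O ∧ (∀ x ∈ Q, ∀ y ∈ Q, x ≠ y → ¬ E x y) ∧
      ∀ x ∈ O, ∃ q ∈ Q, x = q ∨ E x q ∨ ∃ y, E x y ∧ E y q := by
  classical
  induction n with
  | zero =>
    intro O hO
    have : O = ∅ := Finset.card_eq_zero.1 (Nat.le_zero.1 hO)
    subst this
    exact ⟨∅, Finset.Subset.refl _, by simp, by simp⟩
  | succ n ih =>
    intro O hO
    rcases O.eq_empty_or_nonempty with he | ⟨v, hv⟩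
    · subst he
      exact ⟨∅, Finset.Subset.refl _, by simp, by simp⟩
    · let O' := O.filter (fun x => x ≠ v ∧ ¬ E x v)
      have hO' : O'.card ≤ n := by
        have : O' ⊆ O.erase v := by
          intro x hx
          rw [Finset.mem_filter] at hx
          exact Finset.mem_erase.2 ⟨hx.2.1, hx.1⟩
        have := Finset.card_le_card this
        rw [Finset.card_erase_of_mem hv] at this
        omega
      obtain ⟨Q, hQ1, hQ2, hQ3⟩ := ih O' hO'
      have hQO : Q ⊆ O := hQ1.trans (Finset.filter_subset _ _)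
      by_cases h : ∃ q ∈ Q, E v q
      · obtain ⟨q, hq, hvq⟩ := h
        refine ⟨Q, hQO, hQ2, fun x hx => ?_⟩
        by_cases hxv : x = v
        · subst hxv; exact ⟨q, hq, Or.inr (Or.inl hvq)⟩
        · by_cases hE : E x v
          · exact ⟨q, hq, Or.inr (Or.inr ⟨v, hE, hvq⟩)⟩
          · exact hQ3 x (Finset.mem_filter.2 ⟨hx, hxv, hE⟩)
      · push Not at h
        refine ⟨insert v Q, ?_, ?_, fun x hx => ?_⟩
        · intro x hx
          rcases Finset.mem_insert.1 hx with rfl | hx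
          · exact hv
          · exact hQO hx
        · intro x hx y hy hxy
          rcases Finset.mem_insert.1 hx with h1 | h1 <;>
            rcases Finset.mem_insert.1 hy with h2 | h2
          · exact absurd (h1.trans h2.symm) hxy
          · rw [h1]; exact h y h2
          · rw [h2]; exact (Finset.mem_filter.1 (hQ1 h1)).2.2
          · exact hQ2 x h1 y h2 hxy
        · by_cases hxv : x = v
          · subst hxv; exact ⟨x, Finset.mem_insert_self _ _, Or.inl rfl⟩
          · by_cases hE : E x v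
            · exact ⟨v, Finset.mem_insert_self _ _, Or.inr (Or.inl hE)⟩
            · obtain ⟨q, hq, h'⟩ := hQ3 x (Finset.mem_filter.2 ⟨hx, hxv, hE⟩)
              exact ⟨q, Finset.mem_insert_of_mem hq, h'⟩

theorem reach_of_indep [Finite V] {E : V → V → Prop} {k : ℕ} {s t : V}
    (hα : IndepLe E (InBd E s) k) (h : Up E 2 k s t) : ReflTransGen E s t := by
  classical
  have hfin : (InBd E s).Finite := Set.toFinite _
  obtain ⟨Q, hQ1, hQ2, hQ3⟩ := quasi_kernel E _ hfin.toFinset le_rfl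
  have hQm : ∀ x ∈ Q, x ∈ InBd E s := fun x hx => (hfin.mem_toFinset).1 (hQ1 hx)
  have hcard : Q.card ≤ k := hα Q hQm hQ2
  let e := Q.equivFin
  let q : Fin k → V := fun i => if h : i.val < Q.card then (e.symm ⟨i.val, h⟩).1 else s
  have hqe : ∀ y (hy : y ∈ Q), ∃ i, q i = y := by
    intro y hy
    refine ⟨⟨(e ⟨y, hy⟩).val, lt_of_lt_of_le (e ⟨y, hy⟩).2 hcard⟩, ?_⟩
    simp only [q, (e ⟨y, hy⟩).2, dif_pos]
    have : (⟨(e ⟨y, hy⟩).val, (e ⟨y, hy⟩).2⟩ : Fin Q.card) = e ⟨y, hy⟩ := rfl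
    rw [this, Equiv.symm_apply_apply]
  refine reach_of_up (r := 2) q (fun i => ?_) (fun x hx => ?_) h
  · by_cases hi : i.val < Q.card
    · right
      simp only [q, hi, dif_pos]
      exact (hQm _ (e.symm ⟨i.val, hi⟩).2).1
    · left
      simp [q, hi]
  · obtain ⟨y, hy, hxy⟩ := hQ3 x ((hfin.mem_toFinset).2 hx)
    obtain ⟨i, hi⟩ := hqe y hy
    refine ⟨i, ?_, ?_⟩
    · rw [hi]
      rintro rfl
      exact (hQm _ hy).1 .refl
    · rw [hi]
      rcases hxy with rfl | h1 | ⟨z, h1, h2⟩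
      · exact Tle_refl eq_equivalence 2 x
      · exact Tle_mono_n (by norm_num : 1 ≤ 2) (Or.inr ⟨x, y, rfl, h1, rfl⟩)
      · exact Or.inr ⟨z, y, Or.inr ⟨x, z, rfl, h1, rfl⟩, h2, rfl⟩

end core

/-! ### Definability -/

theorem Dfn.exFin {n k : ℕ} {Q : Fin k → Qry n} (h : ∀ i, Dfn (Q i)) (hn : 1 ≤ n) :
    Dfn (fun V E ν => ∃ i, Q i V E ν) := by
  induction k with
  | zero =>
    refine (Dfn.eq (⟨0, hn⟩ : Fin n) ⟨0, hn⟩).neg.congr (fun V E ν => ?_)
    simp
  | succ k ih =>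
    refine ((h 0).or (ih (fun i => h i.succ))).congr (fun V E ν => ?_)
    rw [Fin.exists_fin_succ]

/-- quantification over a tuple -/
theorem dfn_all_tuple (k : ℕ) : ∀ {n : ℕ}
    (Q : ∀ V : Type, (V → V → Prop) → (Fin k → V) → (Fin n → V) → Prop),
    (∀ (m : ℕ) (iq : Fin k → Fin m) (iv : Fin n → Fin m),
      Dfn (n := m) (fun V E ν => Q V E (ν ∘ iq) (ν ∘ iv))) →
    Dfn (n := n) (fun V E ν => ∀ q, Q V E q ν) := by
  induction k with
  | zero =>
    intro n Q hQ
    refine (hQ n Fin.elim0 id).congr (fun V E ν => ?_)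
    constructor
    · intro h q
      have : q = ν ∘ Fin.elim0 := Subsingleton.elim _ _
      rw [this]
      exact h
    · intro h
      exact h _
  | succ k ih =>
    intro n Q hQ
    have h1 := ih (n := n + 1) (fun V E q ν => Q V E (Fin.cons (ν 0) q) (fun i => ν i.succ)) (by
      intro m iq iv
      refine (hQ m (Fin.cons (iv 0) iq) (fun i => iv i.succ)).congr (fun V E ν => ?_)
      have h2 : (ν ∘ (Fin.cons (iv 0) iq : Fin (k + 1) → Fin m)) =
          Fin.cons ((ν ∘ iv) 0) (ν ∘ iq) := by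
        funext i
        refine Fin.cases ?_ (fun j => ?_) i
        · simp
        · simp
      rw [h2]
      rfl)
    refine h1.all.congr (fun V E ν => ?_)
    constructor
    · intro h q
      have := h (q 0) (fun i => q i.succ)
      simp only [Fin.cons_zero, Fin.cons_succ] at this
      have h3 : (Fin.cons (q 0) (fun i => q i.succ) : Fin (k + 1) → V) = q :=
        Fin.cons_self_tail q
      rwa [h3] at this
    · intro h a q
      simp only [Fin.cons_zero, Fin.cons_succ]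
      exact h _

theorem dfn_shadow {R : BQry} (hR : Dfn2 R) (r k : ℕ) {n : ℕ} (iq : Fin k → Fin n)
    (is ix : Fin n) : Dfn (fun V E ν => Shadow (R V E) r (ν ∘ iq) (ν is) (ν ix)) := by
  refine (Dfn.exFin (Q := fun i V E ν => ν (iq i) ≠ ν is ∧
    Tle (R V E) Eq r (ν ix) (ν (iq i))) (fun i => ?_) (Nat.one_le_iff_ne_zero.2 ?_)).congr
    (fun V E ν => Iff.rfl)
  · refine (Dfn.eq (iq i) is).neg.and ?_
    have h1 : Dfn2 (fun V E => Tle (R V E) Eq r) := by
      induction r with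
      | zero => exact Dfn2.eq
      | succ j ih =>
        refine (ih.or (ih.comp (hR.comp Dfn2.eq))).congr (fun V E a b => ?_)
        constructor
        · rintro (h | ⟨c, h1, d, h2, h3⟩)
          · exact Or.inl h
          · exact Or.inr ⟨c, d, h1, h2, h3⟩
        · rintro (h | ⟨c, d, h1, h2, h3⟩)
          · exact Or.inl h
          · exact Or.inr ⟨c, h1, d, h2, h3⟩
    exact h1.at ix (iq i)
  · rintro rfl
    exact ix.elim0

theorem dfn_comp {R : BQry} (hR : Dfn2 R) (r k : ℕ) {n : ℕ} (iq : Fin k → Fin n)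
    (is i j : Fin n) :
    Dfn (fun V E ν => EqvGen (Off (R V E) r (ν ∘ iq) (ν is)) (ν i) (ν j)) := by
  have h1 : Dfn (n := n + 2) (fun V E ν => Off (R V E) r (ν ∘ fun x => (iq x).succ.succ)
      (ν is.succ.succ) (ν 0) (ν 1)) :=
    (hR.at 0 1).and ((dfn_shadow hR r k (fun x => (iq x).succ.succ) is.succ.succ 0).neg.and
      (dfn_shadow hR r k (fun x => (iq x).succ.succ) is.succ.succ 1).neg)
  exact (h1.stc i j).congr (fun V E ν => Iff.rfl)

theorem dfn_good {R : BQry} (hR : Dfn2 R) (r k : ℕ) {n : ℕ} (iq : Fin k → Fin n)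
    (is : Fin n) : Dfn (fun V E ν => Good (R V E) r (ν ∘ iq) (ν is)) := by
  have h0 := (dfn_shadow hR r k iq is is).neg
  have h1 : Dfn (n := n + 2) (fun V E ν =>
      EqvGen (Off (R V E) r (ν ∘ fun x => (iq x).succ.succ) (ν is.succ.succ))
        (ν is.succ.succ) (ν 1) → R V E (ν 1) (ν 0) →
      ¬ Shadow (R V E) r (ν ∘ fun x => (iq x).succ.succ) (ν is.succ.succ) (ν 0)) :=
    (dfn_comp hR r k _ _ _ _).imp ((hR.at 1 0).imp (dfn_shadow hR r k _ _ _).neg)
  exact (h0.and h1.all.all).congr (fun V E ν => Iff.rfl)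

theorem dfn_up {R : BQry} (hR : Dfn2 R) (r k : ℕ) : Dfn2 (fun V E => Up (R V E) r k) := by
  refine (dfn_all_tuple k (n := 2) (fun V E q ν => Good (R V E) r q (ν 0) →
    EqvGen (Off (R V E) r q (ν 0)) (ν 0) (ν 1)) (fun m iq iv => ?_)).congr
    (fun V E ν => Iff.rfl)
  exact (dfn_good hR r k iq (iv 0)).imp (dfn_comp hR r k iq (iv 0) (iv 0) (iv 1))

theorem reach_swap {V : Type} {E : V → V → Prop} {a b : V} :
    ReflTransGen (fun x y => E y x) a b ↔ ReflTransGen E b a := by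
  rw [← reflTransGen_swap]

/-- The formula for boundaries of bounded independence number. -/
theorem exists_bd_formula (k : ℕ) : ∃ φ : Fm 2, ∀ (V : Type) (E : V → V → Prop) (s t : V),
    (ReflTransGen E s t → φ.Holds E ![s, t]) ∧
    (Finite V → (IndepLe E (InBd E s) k ∨ IndepLe E (OutBd E t) k) → φ.Holds E ![s, t] →
      ReflTransGen E s t) := by
  have h1 : Dfn2 (fun V E => Up E 2 k) := dfn_up Dfn2.edge 2 k
  have h2 : Dfn2 (fun V E => Up (fun x y => E y x) 2 k) := dfn_up Dfn2.edge.swap 2 k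
  obtain ⟨φ, hφ⟩ := h1.and h2.swap
  refine ⟨φ, fun V E s t => ⟨fun h => ?_, fun hfin hk h => ?_⟩⟩
  · rw [hφ]
    exact ⟨up_of_reach h, up_of_reach (reach_swap.2 h)⟩
  · rw [hφ] at h
    rcases hk with hk | hk
    · exact reach_of_indep hk h.1
    · have hk' : IndepLe (fun x y => E y x) (InBd (fun x y => E y x) t) k := by
        intro S hS1 hS2
        refine hk S (fun x hx => ?_) (fun x hx y hy hxy => hS2 y hy x hx (Ne.symm hxy))
        obtain ⟨h3, w, h4, h5⟩ := hS1 x hx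
        exact ⟨fun h => h3 (reach_swap.2 h), w, reach_swap.1 h4, h5⟩
      exact reach_swap.1 (reach_of_indep hk' h.2)

/-! ### Local independence numbers -/

theorem inBd_of_local {V : Type} {E : V → V → Prop}
    (hE : ∀ v : V, IndepLe E {x | x ≠ v ∧ E x v} 1) (s : V) : IndepLe E (InBd E s) 1 := by
  classical
  have hadj : ∀ v x y, x ≠ v → y ≠ v → E x v → E y v → x ≠ y → E x y ∨ E y x := by
    intro v x y hx hy hxv hyv hxy
    by_contra h
    push Not at h
    have := hE v {x, y} (by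
      intro z hz
      rcases Finset.mem_insert.1 hz with rfl | hz
      · exact ⟨hx, hxv⟩
      · rw [Finset.mem_singleton.1 hz]; exact ⟨hy, hyv⟩) (by
      intro z hz z' hz' hne
      rw [Finset.mem_insert, Finset.mem_singleton] at hz hz'
      rcases hz with h1 | h1 <;> rcases hz' with h2 | h2
      · exact absurd (h1.trans h2.symm) hne
      · rw [h1, h2]; exact h.1
      · rw [h1, h2]; exact h.2
      · exact absurd (h1.trans h2.symm) hne)
    rw [Finset.card_pair hxy] at this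
    omega
  -- every vertex of the boundary has an arc to `s`
  have key : ∀ w, ReflTransGen E s w → ∀ x, ¬ ReflTransGen E s x → E x w → E x s := by
    intro w hw
    induction hw with
    | refl => exact fun x _ h => h
    | @tail b c hsb hbc ih =>
      intro x hx hxc
      by_cases hbc' : b = c
      · subst hbc'
        exact ih x hx hxc
      · have hxc' : x ≠ c := by
          rintro rfl
          exact hx (hsb.tail hbc)
        have hbx : b ≠ x := by
          rintro rfl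
          exact hx hsb
        rcases hadj c b x hbc' hxc' hbc hxc hbx with h | h
        · exact absurd (hsb.tail h) hx
        · exact ih x hx h
  intro S hS1 hS2
  refine hE s S (fun x hx => ?_) hS2
  obtain ⟨h1, w, h2, h3⟩ := hS1 x hx
  refine ⟨?_, key w h2 x h1 h3⟩
  rintro rfl
  exact h1 .refl

/-- one formula for all finite digraphs in which any two in-neighbours of a vertex are adjacent, or
any two out-neighbours -/
theorem definable_local : ∃ φ : Fm 2, ∀ (V : Type) [Finite V] (E : V → V → Prop),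
    ((∀ v : V, IndepLe E {x | x ≠ v ∧ E x v} 1) ∨ (∀ v : V, IndepLe E {x | x ≠ v ∧ E v x} 1)) →
    ∀ s t : V, φ.Holds E ![s, t] ↔ ReflTransGen E s t := by
  obtain ⟨φ, hφ⟩ := exists_bd_formula 1
  refine ⟨φ, fun V hV E h s t => ⟨(hφ V E s t).2 hV ?_, (hφ V E s t).1⟩⟩
  rcases h with h | h
  · exact Or.inl (inBd_of_local h s)
  · right
    have h' : ∀ v : V, IndepLe (fun x y => E y x) {x | x ≠ v ∧ E v x} 1 := by
      intro v S hS1 hS2
      exact h v S hS1 (fun x hx y hy hxy => hS2 y hy x hx (Ne.symm hxy))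
    have := inBd_of_local (E := fun x y => E y x) h' t
    intro S hS1 hS2
    refine this S (fun x hx => ?_) (fun x hx y hy hxy => hS2 y hy x hx (Ne.symm hxy))
    obtain ⟨h3, w, h4, h5⟩ := hS1 x hx
    exact ⟨fun h => h3 (reach_swap.1 h), w, reach_swap.2 h4, h5⟩

/-- the arcs of the gadget with local independence numbers two -/
def R2 (i j : Fin 3) : Qry 4 := fun _ E ν =>
  (i = 0 ∧ j = 1 ∧ ν 0 = ν 1 ∧ ν 0 = ν 2 ∧ E (ν 2) (ν 3)) ∨
  (i = 1 ∧ j = 1 ∧ ν 0 = ν 2 ∧ E (ν 0) (ν 1) ∧ E (ν 2) (ν 3)) ∨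
  (i = 1 ∧ j = 2 ∧ ν 0 = ν 2 ∧ ν 1 = ν 3 ∧ E (ν 0) (ν 1)) ∨
  (i = 2 ∧ j = 2 ∧ ν 1 = ν 3 ∧ E (ν 0) (ν 1) ∧ E (ν 2) (ν 3)) ∨
  (i = 2 ∧ j = 0 ∧ ν 2 = ν 3 ∧ ν 1 = ν 2 ∧ E (ν 0) (ν 1))

theorem R2_dfn (i j : Fin 3) : QDfn (R2 i j) :=
  ((QDfn.const _).and ((QDfn.const _).and ((QDfn.eq 0 1).and ((QDfn.eq 0 2).and
    (QDfn.edge 2 3))))).or
  (((QDfn.const _).and ((QDfn.const _).and ((QDfn.eq 0 2).and ((QDfn.edge 0 1).and
    (QDfn.edge 2 3))))).or
  (((QDfn.const _).and ((QDfn.const _).and ((QDfn.eq 0 2).and ((QDfn.eq 1 3).and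
    (QDfn.edge 0 1))))).or
  (((QDfn.const _).and ((QDfn.const _).and ((QDfn.eq 1 3).and ((QDfn.edge 0 1).and
    (QDfn.edge 2 3))))).or
  ((QDfn.const _).and ((QDfn.const _).and ((QDfn.eq 2 3).and ((QDfn.eq 1 2).and
    (QDfn.edge 0 1))))))))

/-- a set covered by two sets of pairwise adjacent vertices has independence number at most two -/
theorem indepLe_two {V : Type} {E : V → V → Prop} {O : Set V} (A B : V → Prop)
    (hO : ∀ x ∈ O, A x ∨ B x) (hA : ∀ x ∈ O, ∀ y ∈ O, A x → A y → x ≠ y → E x y ∨ E y x)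
    (hB : ∀ x ∈ O, ∀ y ∈ O, B x → B y → x ≠ y → E x y ∨ E y x) : IndepLe E O 2 := by
  classical
  intro S hS1 hS2
  have h1 : (S.filter A).card ≤ 1 := by
    rw [Finset.card_le_one]
    intro x hx y hy
    rw [Finset.mem_filter] at hx hy
    by_contra hxy
    rcases hA x (hS1 x hx.1) y (hS1 y hy.1) hx.2 hy.2 hxy with h | h
    · exact hS2 x hx.1 y hy.1 hxy h
    · exact hS2 y hy.1 x hx.1 (Ne.symm hxy) h
  have h2 : (S.filter (fun x => ¬ A x)).card ≤ 1 := by
    rw [Finset.card_le_one]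
    intro x hx y hy
    rw [Finset.mem_filter] at hx hy
    by_contra hxy
    have hx' : B x := (hO x (hS1 x hx.1)).resolve_left hx.2
    have hy' : B y := (hO y (hS1 y hy.1)).resolve_left hy.2
    rcases hB x (hS1 x hx.1) y (hS1 y hy.1) hx' hy' hxy with h | h
    · exact hS2 x hx.1 y hy.1 hxy h
    · exact hS2 y hy.1 x hx.1 (Ne.symm hxy) h
  have h3 := Finset.card_filter_add_card_filter_not (s := S) A
  omega

theorem hard_local : Hard (LocalIndep 2 2) := by
  refine hard_of 2 R2 R2_dfn (fun V E F hF => ?_)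
  have hF' : ∀ (i j : Fin 3) (a b c d : V), F (i, a, b) (j, c, d) ↔
      ((i = 0 ∧ j = 1 ∧ a = b ∧ a = c ∧ E c d) ∨
      (i = 1 ∧ j = 1 ∧ a = c ∧ E a b ∧ E c d) ∨
      (i = 1 ∧ j = 2 ∧ a = c ∧ b = d ∧ E a b) ∨
      (i = 2 ∧ j = 2 ∧ b = d ∧ E a b ∧ E c d) ∨
      (i = 2 ∧ j = 0 ∧ c = d ∧ b = c ∧ E a b)) := by
    intro i j a b c d
    rw [hF]
    rfl
  refine ⟨fun v => ⟨?_, ?_⟩, fun s t => ⟨fun h => ?_, fun h => ?_⟩⟩
  · obtain ⟨j, c, d⟩ := v
    -- in-neighbours: those of type two and those of type zero or one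
    refine indepLe_two (fun x => x.1 = 2) (fun x => x.1 ≠ 2)
      (fun x _ => em _) ?_ ?_
    · rintro ⟨i, a, b⟩ ⟨_, hx⟩ ⟨i', a', b'⟩ ⟨_, hy⟩ hi hi' hne
      simp only at hi hi' hx hy
      subst hi; subst hi'
      rw [hF'] at hx hy
      left
      rw [hF']
      rcases hx with ⟨h, _⟩ | ⟨h, _⟩ | ⟨h, _⟩ | ⟨_, rfl, rfl, h1, h2⟩ | ⟨_, rfl, rfl, rfl, h1⟩
      · simp at h
      · simp at h
      · simp at h
      · rcases hy with ⟨h, _⟩ | ⟨h, _⟩ | ⟨h, _⟩ | ⟨_, _, rfl, h1', h2'⟩ | ⟨_, h, _⟩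
        · simp at h
        · simp at h
        · simp at h
        · exact Or.inr (Or.inr (Or.inr (Or.inl ⟨rfl, rfl, rfl, h1, h1'⟩)))
        · simp at h
      · rcases hy with ⟨h, _⟩ | ⟨h, _⟩ | ⟨h, _⟩ | ⟨_, h, _⟩ | ⟨_, _, _, rfl, h1'⟩
        · simp at h
        · simp at h
        · simp at h
        · simp at h
        · exact Or.inr (Or.inr (Or.inr (Or.inl ⟨rfl, rfl, rfl, h1, h1'⟩)))
    · rintro ⟨i, a, b⟩ ⟨_, hx⟩ ⟨i', a', b'⟩ ⟨_, hy⟩ hi hi' hne
      simp only at hi hi' hx hy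
      rw [hF'] at hx hy
      rw [hF', hF']
      rcases hx with ⟨rfl, rfl, rfl, rfl, h1⟩ | ⟨rfl, rfl, rfl, h1, h2⟩ | ⟨rfl, rfl, rfl, rfl, h1⟩ |
        ⟨rfl, _⟩ | ⟨rfl, _⟩
      · rcases hy with ⟨rfl, _, rfl, rfl, h1'⟩ | ⟨rfl, _, rfl, h1', h2'⟩ | ⟨_, h, _⟩ |
          ⟨rfl, _⟩ | ⟨rfl, _⟩
        · exact absurd rfl hne
        · exact Or.inl (Or.inl ⟨rfl, rfl, rfl, rfl, h1'⟩)
        · simp at h
        · exact absurd rfl hi'
        · exact absurd rfl hi'
      · rcases hy with ⟨rfl, _, rfl, rfl, h1'⟩ | ⟨rfl, _, rfl, h1', h2'⟩ | ⟨_, h, _⟩ |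
          ⟨rfl, _⟩ | ⟨rfl, _⟩
        · exact Or.inr (Or.inl ⟨rfl, rfl, rfl, rfl, h1⟩)
        · exact Or.inl (Or.inr (Or.inl ⟨rfl, rfl, rfl, h1, h1'⟩))
        · simp at h
        · exact absurd rfl hi'
        · exact absurd rfl hi'
      · rcases hy with ⟨_, h, _⟩ | ⟨_, h, _⟩ | ⟨rfl, _, rfl, rfl, h1'⟩ | ⟨rfl, _⟩ | ⟨rfl, _⟩
        · simp at h
        · simp at h
        · exact absurd rfl hne
        · exact absurd rfl hi'
        · exact absurd rfl hi'
      · exact absurd rfl hi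
      · exact absurd rfl hi
  · obtain ⟨j, c, d⟩ := v
    -- out-neighbours: those of type one and those of type zero or two
    refine indepLe_two (fun x => x.1 = 1) (fun x => x.1 ≠ 1)
      (fun x _ => em _) ?_ ?_
    · rintro ⟨i, a, b⟩ ⟨_, hx⟩ ⟨i', a', b'⟩ ⟨_, hy⟩ hi hi' hne
      simp only at hi hi' hx hy
      subst hi; subst hi'
      rw [hF'] at hx hy
      left
      rw [hF']
      rcases hx with ⟨rfl, _, rfl, rfl, h1⟩ | ⟨rfl, _, rfl, h1, h2⟩ | ⟨_, h, _⟩ | ⟨_, h, _⟩ |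
        ⟨_, h, _⟩
      · rcases hy with ⟨_, _, _, rfl, h1'⟩ | ⟨h, _⟩ | ⟨h, _⟩ | ⟨h, _⟩ | ⟨h, _⟩
        · exact Or.inr (Or.inl ⟨rfl, rfl, rfl, h1, h1'⟩)
        · simp at h
        · simp at h
        · simp at h
        · simp at h
      · rcases hy with ⟨h, _⟩ | ⟨_, _, rfl, h1', h2'⟩ | ⟨_, h, _⟩ | ⟨_, h, _⟩ | ⟨_, h, _⟩
        · simp at h
        · exact Or.inr (Or.inl ⟨rfl, rfl, rfl, h2, h2'⟩)
        · simp at h
        · simp at h
        · simp at h
      · simp at h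
      · simp at h
      · simp at h
    · rintro ⟨i, a, b⟩ ⟨_, hx⟩ ⟨i', a', b'⟩ ⟨_, hy⟩ hi hi' hne
      simp only at hi hi' hx hy
      rw [hF'] at hx hy
      rw [hF', hF']
      rcases hx with ⟨_, rfl, _⟩ | ⟨_, rfl, _⟩ | ⟨rfl, rfl, rfl, rfl, h1⟩ |
        ⟨rfl, rfl, rfl, h1, h2⟩ | ⟨rfl, rfl, rfl, rfl, h1⟩
      · exact absurd rfl hi
      · exact absurd rfl hi
      · rcases hy with ⟨h, _⟩ | ⟨_, rfl, _⟩ | ⟨_, rfl, rfl, rfl, h1'⟩ | ⟨h, _⟩ | ⟨h, _⟩
        · simp at h
        · exact absurd rfl hi'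
        · exact absurd rfl hne
        · simp at h
        · simp at h
      · rcases hy with ⟨h, _⟩ | ⟨h, _⟩ | ⟨h, _⟩ | ⟨_, rfl, rfl, h1', h2'⟩ | ⟨_, rfl, rfl, rfl, h1'⟩
        · simp at h
        · simp at h
        · simp at h
        · exact Or.inl (Or.inr (Or.inr (Or.inr (Or.inl ⟨rfl, rfl, rfl, h2, h2'⟩))))
        · exact Or.inl (Or.inr (Or.inr (Or.inr (Or.inr ⟨rfl, rfl, rfl, rfl, h2⟩))))
      · rcases hy with ⟨h, _⟩ | ⟨h, _⟩ | ⟨h, _⟩ | ⟨_, rfl, rfl, h1', h2'⟩ | ⟨_, rfl, rfl, h1', h2'⟩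
        · simp at h
        · simp at h
        · simp at h
        · exact Or.inr (Or.inr (Or.inr (Or.inr (Or.inr ⟨rfl, rfl, rfl, rfl, h2'⟩))))
        · subst h1'
          exact absurd rfl hne
  · induction h with
    | refl => exact .refl
    | @tail b c _ hbc ih =>
      refine ih.trans ?_
      have s1 : F (0, b, b) (1, b, c) := (hF' _ _ _ _ _ _).2 (Or.inl ⟨rfl, rfl, rfl, rfl, hbc⟩)
      have s2 : F (1, b, c) (2, b, c) :=
        (hF' _ _ _ _ _ _).2 (Or.inr (Or.inr (Or.inl ⟨rfl, rfl, rfl, rfl, hbc⟩)))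
      have s3 : F (2, b, c) (0, c, c) :=
        (hF' _ _ _ _ _ _).2 (Or.inr (Or.inr (Or.inr (Or.inr ⟨rfl, rfl, rfl, rfl, hbc⟩))))
      exact ((ReflTransGen.single s1).tail s2).tail s3
  · have key : ∀ x, ReflTransGen F (0, s, s) x → (x.1 ≠ 2 → ReflTransGen E s x.2.1) ∧
        (x.1 = 2 → ReflTransGen E s x.2.2) := by
      intro x hx
      induction hx with
      | refl => exact ⟨fun _ => .refl, fun _ => .refl⟩
      | @tail y z _ hyz ih =>
        obtain ⟨i, a, b⟩ := y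
        obtain ⟨j, c, d⟩ := z
        rw [hF'] at hyz
        rcases hyz with ⟨rfl, rfl, rfl, rfl, h1⟩ | ⟨rfl, rfl, rfl, h1, h2⟩ |
          ⟨rfl, rfl, rfl, rfl, h1⟩ | ⟨rfl, rfl, rfl, h1, h2⟩ | ⟨rfl, rfl, rfl, rfl, h1⟩
        · exact ⟨fun _ => ih.1 (by simp), fun h => by simp at h⟩
        · exact ⟨fun _ => ih.1 (by simp), fun h => by simp at h⟩
        · exact ⟨fun h => absurd rfl h, fun _ => (ih.1 (by simp)).tail h1⟩
        · exact ⟨fun h => absurd rfl h, fun _ => ih.2 rfl⟩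
        · exact ⟨fun _ => ih.2 rfl, fun h => by simp at h⟩
    exact (key _ h).1 (by simp)

end Pool.Agent.W987
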