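import Mathlib
import Pool.Agent.W987.QFred

/-!
# Forbidden directed paths and forbidden induced subdigraphs
-/

namespace Pool.Agent.W987

open Relation Pool.Agent.H534R2

theorem Geo.injOn {V : Type} {E : V → V → Prop} {p : ℕ → V} {l : ℕ} (hp : Geo E p l) {a b : ℕ}
    (ha : a ≤ l) (hb : b ≤ l) (h : p a = p b) : a = b := by
  rcases Nat.lt_trichotomy a b with h' | h' | h'
  · exact absurd h (hp.inj _ _ h' hb)
  · exact h'
  · exact absurd h.symm (hp.inj _ _ h' ha)

theorem paths_of_cuts {V : Type} {E : V → V → Prop} {p : ℕ → V} {l t : ℕ} (hp : Geo E p l)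
    (h : HasCuts E 2 p l t) : HasPaths E 4 t := by
  obtain ⟨c, h1, h2⟩ := h
  have hc1 : ∀ k, 1 ≤ c k := fun k => by have := (h1 k).1; omega
  have hc2 : ∀ k, c k + 2 ≤ l := fun k => (h1 k).2.1
  have hsep : ∀ k k' (a b : Fin 4), k < k' → (c k - 1 + a.val < c k' - 1 + b.val ∧
      ¬ E (p (c k - 1 + a.val)) (p (c k' - 1 + b.val)) ∧
      ¬ E (p (c k' - 1 + b.val)) (p (c k - 1 + a.val))) := by
    intro k k' a b hk
    have := hc1 k
    have := hc1 k'
    exact h2 k k' hk _ _ (by omega) (by omega) (by omega) (by omega)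
  refine ⟨fun x => p (c x.1 - 1 + x.2.val), ?_, ?_, ?_⟩
  · rintro ⟨k, a⟩ ⟨k', b⟩ h
    simp only at h
    have g1 := hc1 k
    have g2 := hc2 k
    have g1' := hc1 k'
    have g2' := hc2 k'
    have h3 := Geo.injOn hp (by omega) (by omega) h
    rcases lt_trichotomy k k' with h4 | h4 | h4
    · have := (hsep k k' a b h4).1
      omega
    · subst h4
      exact Prod.ext rfl (Fin.ext (by simp only; omega))
    · have := (hsep k' k b a h4).1
      omega
  · rintro ⟨k, a⟩ ⟨k', b⟩ h h'
    simp only at h h'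
    subst h
    have g1 := hc1 k
    have g2 := hc2 k
    have := hp.arc (c k - 1 + a.val) (by omega)
    simp only
    rwa [show c k - 1 + a.val + 1 = c k - 1 + b.val by omega] at this
  · rintro ⟨k, a⟩ ⟨k', b⟩ hne h
    simp only at h ⊢
    rcases lt_trichotomy k k' with h4 | h4 | h4
    · exact (hsep k k' a b h4).2.1
    · subst h4
      have g1 := hc1 k
      have g2 := hc2 k
      have hab : a.val ≠ b.val := fun h => hne (by rw [Fin.ext h])
      rcases Nat.lt_or_ge a.val b.val with h5 | h5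
      · refine hp.noshort _ _ ?_ (by omega)
        by_contra h6
        exact h ⟨rfl, Or.inl (by omega)⟩
      · refine (h1 k).2.2 _ _ ?_ ?_ ?_ ?_
        · by_contra h6
          exact h ⟨rfl, Or.inr (by omega)⟩
        · omega
        · by_contra h6
          exact h ⟨rfl, Or.inr (by omega)⟩
        · omega
    · exact (hsep k' k b a h4).2.2

theorem HasPaths.mono {V : Type} {E : V → V → Prop} {k k' t t' : ℕ} (hk : k' ≤ k) (ht : t' ≤ t)
    (h : HasPaths E k t) : HasPaths E k' t' := by
  obtain ⟨f, h1, h2, h3⟩ := h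
  refine ⟨fun x => f (Fin.castLE ht x.1, Fin.castLE hk x.2), ?_, ?_, ?_⟩
  · rintro ⟨a, b⟩ ⟨c, d⟩ h
    have := h1 h
    simp only [Prod.mk.injEq, Fin.castLE_inj] at this
    exact Prod.ext this.1 this.2
  · rintro ⟨a, b⟩ ⟨c, d⟩ h h'
    refine h2 _ _ ?_ h'
    simp only at h
    rw [h]
  · rintro ⟨a, b⟩ ⟨c, d⟩ h h'
    refine h3 _ _ ?_ ?_
    · intro h4
      apply h
      simp only [Prod.mk.injEq, Fin.castLE_inj] at h4
      exact Prod.ext h4.1 h4.2
    · intro h4
      apply h'
      simp only [Fin.castLE_inj] at h4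
      exact h4

theorem definable_paths (k t : ℕ) (hk : k ≤ 4) : Definable (fun _ E => ¬ HasPaths E k t) := by
  obtain ⟨φ, hφ⟩ := exists_formula 2 t (by norm_num)
  refine ⟨φ, fun V E hE s d => ⟨(hφ V E).1 s d, fun h => ?_⟩⟩
  obtain ⟨p, l, hp, rfl, rfl⟩ := exists_geo h
  exact (hφ V E).2 p l ⟨hp.arc, hp.noshort, hp.inj⟩ (fun h => hE ((paths_of_cuts hp h).mono hk le_rfl))

theorem hard_paths (k t : ℕ) (hk : 5 ≤ k) (ht : 1 ≤ t) :
    Hard (fun _ E => (∀ a b, E a b → ¬ E b a) ∧ ¬ HasPaths E k t) := by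
  refine hard_P5.mono (fun V E h => ⟨h.1, fun h' => ?_⟩)
  obtain ⟨f, _, h2, h3⟩ := h'.mono hk ht
  have key : ∀ a b : Fin 5, b.val = a.val + 2 → ¬ E (f (0, b)) (f (0, a)) := by
    intro a b hab
    refine h3 _ _ ?_ ?_
    · intro h
      have := congrArg (fun x => x.2.val) h
      simp only at this
      omega
    · rintro ⟨_, h | h⟩ <;> simp only at h <;> omega
  rcases h.2 (fun i => f (0, i)) ⟨h2 _ _ rfl rfl, h2 _ _ rfl rfl, h2 _ _ rfl rfl, h2 _ _ rfl rfl⟩
    with h4 | h4 | h4
  · exact key 0 2 rfl h4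
  · exact key 1 3 rfl h4
  · exact key 2 4 rfl h4

theorem contains_of_cuts {V : Type} {E : V → V → Prop} {p : ℕ → V} {l m : ℕ} (hp : Geo E p l)
    (h : HasCuts E 1 p l m) {H : Fin m → Fin m → Prop} (hH : DisjointArcs H) : Contains E H := by
  classical
  obtain ⟨c, h1, h2⟩ := h
  have hc2 : ∀ k, c k + 1 ≤ l := fun k => (h1 k).2.1
  have hsep : ∀ k k' (a b : Fin 2), k < k' → (c k + a.val < c k' + b.val ∧
      ¬ E (p (c k + a.val)) (p (c k' + b.val)) ∧
      ¬ E (p (c k' + b.val)) (p (c k + a.val))) := by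
    intro k k' a b hk
    exact h2 k k' hk _ _ (by omega) (by omega) (by omega) (by omega)
  have hnon : ∀ k k' (a b : Fin 2), k ≠ k' → p (c k + a.val) ≠ p (c k' + b.val) ∧
      ¬ E (p (c k + a.val)) (p (c k' + b.val)) := by
    intro k k' a b hk
    have g2 := hc2 k
    have g2' := hc2 k'
    rcases lt_or_gt_of_ne hk with h | h
    · refine ⟨fun h3 => ?_, (hsep k k' a b h).2.1⟩
      have := Geo.injOn hp (by omega) (by omega) h3
      have := (hsep k k' a b h).1
      omega
    · refine ⟨fun h3 => ?_, (hsep k' k b a h).2.2⟩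
      have := Geo.injOn hp (by omega) (by omega) h3
      have := (hsep k' k b a h).1
      omega
  -- the cut and the end assigned to a vertex
  let g : Fin m → Fin m × Fin 2 := fun a =>
    if h : ∃ b, b ≠ a ∧ H b a then (h.choose, 1) else (a, 0)
  have hg0 : ∀ a, ¬ (∃ b, b ≠ a ∧ H b a) → g a = (a, 0) := fun a h => by simp [g, h]
  have hg1 : ∀ a b, b ≠ a → H b a → g a = (b, 1) := by
    intro a b hne hb
    have hex : ∃ b, b ≠ a ∧ H b a := ⟨b, hne, hb⟩
    have h3 := hex.choose_spec
    have h4 : hex.choose = b := by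
      rcases hH _ _ _ _ h3.1 hne h3.2 hb with h | h
      · exact h.1
      · exact absurd rfl h.2.2.2
    simp only [g, hex, dif_pos]
    rw [h4]
  refine ⟨fun a => p (c (g a).1 + (g a).2.val), ?_, ?_⟩
  · intro a b hab
    simp only at hab
    have h3 : (g a).1 = (g b).1 := by
      by_contra h
      exact (hnon _ _ _ _ h).1 hab
    have h4 : (g a).2 = (g b).2 := by
      rw [h3] at hab
      have := Geo.injOn hp (by have := hc2 (g b).1; omega) (by have := hc2 (g b).1; omega) hab
      exact Fin.ext (by omega)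
    by_cases ha : ∃ b, b ≠ a ∧ H b a
    · obtain ⟨a', ha1, ha2⟩ := ha
      by_cases hb : ∃ c, c ≠ b ∧ H c b
      · obtain ⟨b', hb1, hb2⟩ := hb
        rw [hg1 _ _ ha1 ha2, hg1 _ _ hb1 hb2] at h3
        simp only at h3
        subst h3
        rcases hH _ _ _ _ ha1 hb1 ha2 hb2 with h | h
        · exact h.2
        · exact absurd rfl h.1
      · rw [hg1 _ _ ha1 ha2, hg0 _ hb] at h4
        simp at h4
    · by_cases hb : ∃ c, c ≠ b ∧ H c b
      · obtain ⟨b', hb1, hb2⟩ := hb
        rw [hg1 _ _ hb1 hb2, hg0 _ ha] at h4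
        simp at h4
      · rw [hg0 _ ha, hg0 _ hb] at h3
        exact h3
  · intro a b hab
    constructor
    · intro hE
      have h3 : ¬ ∃ c, c ≠ a ∧ H c a := by
        rintro ⟨c, h4, h5⟩
        rcases hH _ _ _ _ h4 hab h5 hE with h | h
        · exact hab h.2
        · exact absurd rfl h.2.2.1
      simp only
      rw [hg0 _ h3, hg1 _ _ hab hE]
      exact hp.arc (c a) (by have := hc2 a; omega)
    · intro hE
      simp only at hE
      have h3 : (g a).1 = (g b).1 := by
        by_contra h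
        exact (hnon _ _ _ _ h).2 hE
      by_cases hb : ∃ c, c ≠ b ∧ H c b
      · obtain ⟨b', hb1, hb2⟩ := hb
        rw [hg1 _ _ hb1 hb2] at h3 hE
        by_cases ha : ∃ b, b ≠ a ∧ H b a
        · obtain ⟨a', ha1, ha2⟩ := ha
          rw [hg1 _ _ ha1 ha2] at h3
          simp only at h3
          subst h3
          rcases hH _ _ _ _ ha1 hb1 ha2 hb2 with h | h
          · exact absurd h.2 hab
          · exact absurd rfl h.1
        · rw [hg0 _ ha] at h3
          simp only at h3
          subst h3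
          exact hb2
      · rw [hg0 _ hb] at h3 hE
        by_cases ha : ∃ b, b ≠ a ∧ H b a
        · obtain ⟨a', ha1, ha2⟩ := ha
          rw [hg1 _ _ ha1 ha2] at h3 hE
          simp only at h3
          subst h3
          -- the arc goes back along a cut
          exfalso
          refine (h1 a').2.2 (c a') (c a' + 1) le_rfl (by omega) (by omega) le_rfl ?_
          simpa using hE
        · rw [hg0 _ ha] at h3
          exact absurd h3 hab

theorem definable_contains {m : ℕ} {H : Fin m → Fin m → Prop} (hH : DisjointArcs H) :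
    Definable (fun _ E => ¬ Contains E H) := by
  obtain ⟨φ, hφ⟩ := exists_formula 1 m le_rfl
  refine ⟨φ, fun V E hE s d => ⟨(hφ V E).1 s d, fun h => ?_⟩⟩
  obtain ⟨p, l, hp, rfl, rfl⟩ := exists_geo h
  exact (hφ V E).2 p l ⟨hp.arc, hp.noshort, hp.inj⟩ (fun h => hE (contains_of_cuts hp h hH))

theorem hard_contains {m : ℕ} {H : Fin m → Fin m → Prop} (hH : ¬ DisjointArcs H) :
    Hard (fun _ E => ¬ Contains E H) := by
  classical
  have himg : ∀ (V : Type) (E : V → V → Prop) (f : Fin m → V),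
      (∀ a b, a ≠ b → (H a b ↔ E (f a) (f b))) → (∀ x y, x ≠ y → H x y → ¬ H y x) →
      ∀ a b, a ≠ b → H a b → Asym E (f a) (f b) := by
    intro V E f hf hdig a b hab h
    exact ⟨(hf a b hab).1 h, fun h' => hdig a b hab h ((hf b a hab.symm).2 h')⟩
  by_cases hdig : ∀ x y, x ≠ y → H x y → ¬ H y x
  · unfold DisjointArcs at hH
    push Not at hH
    obtain ⟨a, b, c, d, hab, hcd, h1, h2, h3, h4⟩ := hH
    by_cases hac : a = c
    · -- common tail
      subst hac
      refine hard_out.mono (fun V E h hc => ?_)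
      obtain ⟨f, hf1, hf2⟩ := hc
      exact h3 rfl (hf1 (h.1 _ _ _ (himg V E f hf2 hdig _ _ hab h1)
        (himg V E f hf2 hdig _ _ hcd h2)))
    · by_cases hbd : b = d
      · -- common head
        subst hbd
        refine hard_in.mono (fun V E h hc => ?_)
        obtain ⟨f, hf1, hf2⟩ := hc
        exact hac (hf1 (h _ _ _ (himg V E f hf2 hdig _ _ hab h1)
          (himg V E f hf2 hdig _ _ hcd h2)))
      · refine hard_out.mono (fun V E h hc => ?_)
        obtain ⟨f, hf1, hf2⟩ := hc
        by_cases had : a = d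
        · subst had
          exact h.2 _ _ _ (himg V E f hf2 hdig _ _ hcd h2) (himg V E f hf2 hdig _ _ hab h1)
        · by_cases hbc : b = c
          · subst hbc
            exact h.2 _ _ _ (himg V E f hf2 hdig _ _ hab h1) (himg V E f hf2 hdig _ _ hcd h2)
          · exact absurd (h4 hac had hbc) hbd
  · push Not at hdig
    obtain ⟨x, y, hxy, h1, h2⟩ := hdig
    refine hard_P5.mono (fun V E h hc => ?_)
    obtain ⟨f, hf1, hf2⟩ := hc
    exact h.1 _ _ ((hf2 x y hxy).1 h1) ((hf2 y x hxy.symm).1 h2)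

end Pool.Agent.W987
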