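import Pool.Agent.W217.BE.Stm2

/-!
Every term of an element of the annihilator of a multigraded module is in the annihilator.
-/

set_option autoImplicit false

namespace Pool.Agent.W987.BEHOMANN

open Pool.Agent.W217.BE

theorem main : HOMANN := by
  intro A _ k M _ _ _ _ ℳ hint hX f hf α
  -- monomials shift degrees
  have hshift : ∀ (β : Fin k →₀ ℕ) (a : Fin k → ℤ) (x : M), x ∈ ℳ a →
      (MvPolynomial.monomial β (1 : A) : MvPolynomial (Fin k) A) • x ∈
        ℳ (a + fun j => (β j : ℤ)) := by
    intro β
    induction β using Finsupp.induction_linear with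
    | zero =>
      intro a x hx
      have h1 : (MvPolynomial.monomial (0 : Fin k →₀ ℕ) (1 : A) : MvPolynomial (Fin k) A) = 1 :=
        rfl
      have h2 : (a + fun j => (((0 : Fin k →₀ ℕ) j : ℕ) : ℤ)) = a := by
        funext j; simp
      rw [h1, one_smul, h2]
      exact hx
    | add β γ ihβ ihγ =>
      intro a x hx
      have h1 : (MvPolynomial.monomial (β + γ) (1 : A) : MvPolynomial (Fin k) A) =
          MvPolynomial.monomial β 1 * MvPolynomial.monomial γ 1 := by
        rw [MvPolynomial.monomial_mul, one_mul]
      have h2 : (a + fun j => (((β + γ) j : ℕ) : ℤ)) =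
          (a + fun j => (γ j : ℤ)) + fun j => (β j : ℤ) := by
        funext j
        simp only [Pi.add_apply, Finsupp.add_apply]
        push_cast
        ring
      rw [h1, mul_smul, h2]
      exact ihβ _ _ (ihγ _ _ hx)
    | single j n =>
      induction n with
      | zero =>
        intro a x hx
        have h1 : (MvPolynomial.monomial (Finsupp.single j 0 : Fin k →₀ ℕ) (1 : A) :
            MvPolynomial (Fin k) A) = 1 := by
          rw [Finsupp.single_zero]; rfl
        have h2 : (a + fun i => (((Finsupp.single j 0 : Fin k →₀ ℕ) i : ℕ) : ℤ)) = a := by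
          funext i; simp
        rw [h1, one_smul, h2]
        exact hx
      | succ n ih =>
        intro a x hx
        have h1 : (MvPolynomial.monomial (Finsupp.single j (n + 1) : Fin k →₀ ℕ) (1 : A) :
            MvPolynomial (Fin k) A) =
            MvPolynomial.monomial (Finsupp.single j n) 1 * MvPolynomial.X j := by
          rw [Finsupp.single_add, MvPolynomial.X, MvPolynomial.monomial_mul, one_mul]
        have h2 : (a + fun i => (((Finsupp.single j (n + 1) : Fin k →₀ ℕ) i : ℕ) : ℤ)) =
            (a + Pi.single j 1) + fun i => (((Finsupp.single j n : Fin k →₀ ℕ) i : ℕ) : ℤ) := by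
          funext i
          by_cases hij : i = j
          · subst hij
            simp
            ring
          · have : j ≠ i := fun h => hij h.symm
            simp [Finsupp.single_apply, this, hij]
        rw [h1, mul_smul, h2]
        exact ih _ _ (hX j a x hx)
  -- terms
  have hterm : ∀ (β : Fin k →₀ ℕ) (c : A) (a : Fin k → ℤ) (x : M), x ∈ ℳ a →
      (MvPolynomial.monomial β c : MvPolynomial (Fin k) A) • x ∈
        ℳ (a + fun j => (β j : ℤ)) := by
    intro β c a x hx
    have h1 : (MvPolynomial.monomial β c : MvPolynomial (Fin k) A) =
        c • MvPolynomial.monomial β (1 : A) := by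
      rw [MvPolynomial.smul_monomial, smul_eq_mul, mul_one]
    rw [h1, smul_assoc]
    exact (ℳ _).smul_mem c (hshift β a x hx)
  -- homogeneous elements are killed by every term
  have hhom : ∀ (a : Fin k → ℤ) (x : M), x ∈ ℳ a →
      (MvPolynomial.monomial α (MvPolynomial.coeff α f) : MvPolynomial (Fin k) A) • x = 0 := by
    intro a x hx
    by_cases hα : α ∈ f.support
    · let t : (Fin k →₀ ℕ) → (DirectSum (Fin k → ℤ) fun i => ℳ i) := fun β =>
        DirectSum.of (fun i => ℳ i) (a + fun j => (β j : ℤ))
          ⟨(MvPolynomial.monomial β (MvPolynomial.coeff β f) : MvPolynomial (Fin k) A) • x,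
            hterm β _ a x hx⟩
      have hsum : (DirectSum.coeAddMonoidHom ℳ) (∑ β ∈ f.support, t β) = 0 := by
        rw [map_sum]
        have h1 : ∀ β ∈ f.support, (DirectSum.coeAddMonoidHom ℳ) (t β) =
            (MvPolynomial.monomial β (MvPolynomial.coeff β f) : MvPolynomial (Fin k) A) • x := by
          intro β _
          exact DirectSum.coeAddMonoidHom_of ℳ _ _
        rw [Finset.sum_congr rfl h1, ← Finset.sum_smul, MvPolynomial.support_sum_monomial_coeff]
        exact Module.mem_annihilator.1 hf x
      have hzero : (∑ β ∈ f.support, t β) = 0 := by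
        apply hint.1
        rw [hsum, map_zero]
      have hev : ((∑ β ∈ f.support, t β) (a + fun j => (α j : ℤ)) : M) =
          (MvPolynomial.monomial α (MvPolynomial.coeff α f) : MvPolynomial (Fin k) A) • x := by
        have h2 : (∑ β ∈ f.support, t β) (a + fun j => (α j : ℤ)) =
            ∑ β ∈ f.support, (t β) (a + fun j => (α j : ℤ)) := by
          exact DFinsupp.finsetSum_apply _ _ _
        rw [h2, Finset.sum_eq_single α]
        · show ((DirectSum.of (fun i => ℳ i) (a + fun j => (α j : ℤ)) _) _ : M) = _
          rw [DirectSum.of_eq_same]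
        · intro β _ hβ
          apply DirectSum.of_eq_of_ne
          intro h
          apply hβ
          ext j
          have := congrFun h j
          simp only [Pi.add_apply] at this
          omega
        · intro h
          exact absurd hα h
      rw [← hev, hzero]
      rfl
    · rw [MvPolynomial.notMem_support_iff.1 hα, map_zero, zero_smul]
  rw [Module.mem_annihilator]
  intro y
  have hy : y ∈ ⨆ a, ℳ a := by
    rw [hint.submodule_iSup_eq_top]
    trivial
  induction hy using Submodule.iSup_induction' with
  | mem a x hx => exact hhom a x hx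
  | zero => exact smul_zero _
  | add x y _ _ hx hy => rw [smul_add, hx, hy, add_zero]

end Pool.Agent.W987.BEHOMANN
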