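import Pool.Agent.W960.HC.Defs

/-! Branching of a closed orbit from a simple zero of the Melnikov function. -/

set_option autoImplicit false

open Set Topology Filter MeasureTheory

namespace Pool.Agent.W987.HC

open Pool.Agent.W960.HC

lemma kp_lt_one {X : ℝ} (hX : 0 < X) : kp X < 1 := by
  unfold kp
  have h1 : X ^ 2 + 1 < Real.exp (X ^ 2) := Real.add_one_lt_exp (by positivity)
  have h2 : Real.exp (-X ^ 2) * Real.exp (X ^ 2) = 1 := by
    rw [← Real.exp_add]; simp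
  calc Real.exp (-X ^ 2) * (1 + X ^ 2) < Real.exp (-X ^ 2) * Real.exp (X ^ 2) := by
        apply mul_lt_mul_of_pos_left _ (Real.exp_pos _)
        linarith
    _ = 1 := h2

lemma kp_hasDerivAt (X : ℝ) : HasDerivAt kp (-(2 * X ^ 3 * Real.exp (-X ^ 2))) X := by
  unfold kp
  have h1 : HasDerivAt (fun X : ℝ => Real.exp (-X ^ 2)) (Real.exp (-X ^ 2) * (-(2 * X))) X := by
    have h2 : HasDerivAt (fun X : ℝ => -X ^ 2) (-(2 * X)) X :=
      (hasDerivAt_pow 2 X).neg.congr_deriv (by norm_num)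
    exact h2.exp
  have h3 : HasDerivAt (fun X : ℝ => 1 + X ^ 2) (2 * X) X := by
    simpa using (hasDerivAt_pow 2 X).const_add 1
  have h4 := h1.mul h3
  refine h4.congr_deriv ?_
  ring

lemma kp_contDiff : ContDiff ℝ 1 kp := by
  unfold kp
  fun_prop

lemma et_sq {X : ℝ} (hX : 0 < X) : et X ^ 2 = 1 - kp X := by
  unfold et
  rw [Real.sq_sqrt]
  linarith [kp_lt_one hX]

lemma et_cont : Continuous et := by
  unfold et
  exact (continuous_const.sub kp_contDiff.continuous).sqrt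

/-- a `C¹` function with positive first partial derivative at a point is strictly increasing in
the first variable near this point. -/
lemma mono_box {Φ : ℝ × ℝ → ℝ} {Ω : Set (ℝ × ℝ)} (hΩ : IsOpen Ω) (hΦ : ContDiffOn ℝ 1 Φ Ω)
    {x₀ e₀ : ℝ} (hq : (x₀, e₀) ∈ Ω) (hpos : 0 < fderiv ℝ Φ (x₀, e₀) (1, 0)) :
    ∃ ρ > 0, (∀ x ∈ Ioo (x₀ - ρ) (x₀ + ρ), ∀ ε ∈ Ioo (e₀ - ρ) (e₀ + ρ), (x, ε) ∈ Ω) ∧
      ∀ ε ∈ Ioo (e₀ - ρ) (e₀ + ρ),
        StrictMonoOn (fun x => Φ (x, ε)) (Ioo (x₀ - ρ) (x₀ + ρ)) := by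
  have hcont : ContinuousOn (fun q => fderiv ℝ Φ q (1, 0)) Ω :=
    (hΦ.continuousOn_fderiv_of_isOpen hΩ le_rfl).clm_apply continuousOn_const
  have hat : ContinuousAt (fun q => fderiv ℝ Φ q (1, 0)) (x₀, e₀) :=
    hcont.continuousAt (hΩ.mem_nhds hq)
  have hev : ∀ᶠ q in 𝓝 (x₀, e₀), 0 < fderiv ℝ Φ q (1, 0) ∧ q ∈ Ω :=
    (hat.eventually (lt_mem_nhds hpos)).and (hΩ.mem_nhds hq)
  obtain ⟨ρ, hρ, hball⟩ := Metric.eventually_nhds_iff_ball.1 hev
  have hmem : ∀ x ∈ Ioo (x₀ - ρ) (x₀ + ρ), ∀ ε ∈ Ioo (e₀ - ρ) (e₀ + ρ),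
      ((x, ε) : ℝ × ℝ) ∈ Metric.ball (x₀, e₀) ρ := by
    intro x hx ε hε
    rw [Metric.mem_ball, Prod.dist_eq, max_lt_iff, Real.dist_eq, Real.dist_eq, abs_lt, abs_lt]
    exact ⟨⟨by linarith [hx.1], by linarith [hx.2]⟩, ⟨by linarith [hε.1], by linarith [hε.2]⟩⟩
  refine ⟨ρ, hρ, fun x hx ε hε => (hball _ (hmem x hx ε hε)).2, ?_⟩
  intro ε hε
  have hder : ∀ x ∈ Ioo (x₀ - ρ) (x₀ + ρ),
      HasDerivAt (fun x => Φ (x, ε)) (fderiv ℝ Φ (x, ε) (1, 0)) x := by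
    intro x hx
    have h1 := (hball _ (hmem x hx ε hε)).2
    have h2 : DifferentiableAt ℝ Φ (x, ε) :=
      (hΦ.differentiableOn (by norm_num)).differentiableAt (hΩ.mem_nhds h1)
    have h3 : HasDerivAt (fun x : ℝ => ((x, ε) : ℝ × ℝ)) (1, 0) x :=
      (hasDerivAt_id x).prodMk (hasDerivAt_const x ε)
    exact h2.hasFDerivAt.comp_hasDerivAt x h3
  apply strictMonoOn_of_deriv_pos (convex_Ioo _ _)
  · intro x hx
    exact (hder x hx).continuousAt.continuousWithinAt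
  · intro x hx
    rw [interior_Ioo] at hx
    rw [(hder x hx).deriv]
    exact (hball _ (hmem x hx ε hε)).1

/-- the first integral along the flow -/
lemma kap_flow {a c R : ℝ} {Z : ℝ → ℝ × ℝ → ℝ → ℝ × ℝ} {W : ℝ → ℝ × ℝ → ℝ → ℝ}
    (h : Flw a c R Z W) {p : ℝ × ℝ} {ε T : ℝ} (hε : |ε| < 1)
    (hball : ∀ t ∈ Icc 0 T, ‖Z t p ε‖ < R) :
    ∀ t ∈ Icc 0 T, kap (Z t p ε) + 2 * ε * W t p ε = kap p := by
  have hder : ∀ t ∈ Icc 0 T, HasDerivAt (fun t => kap (Z t p ε) + 2 * ε * W t p ε) 0 t := by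
    intro t ht
    have h1 := h.der p ε t (hball t ht) hε
    have h2 := h.derW p ε t (hball t ht) hε
    have hx : HasDerivAt (fun t => (Z t p ε).1) (fld a c ε (Z t p ε)).1 t := h1.fst
    have hy : HasDerivAt (fun t => (Z t p ε).2) (fld a c ε (Z t p ε)).2 t := h1.snd
    have h3 : HasDerivAt (fun t => Real.exp (-(Z t p ε).1 ^ 2) *
        (1 + (Z t p ε).1 ^ 2 - (Z t p ε).2 ^ 2))
        (Real.exp (-(Z t p ε).1 ^ 2) * (-(2 * (Z t p ε).1 * (fld a c ε (Z t p ε)).1)) *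
          (1 + (Z t p ε).1 ^ 2 - (Z t p ε).2 ^ 2) + Real.exp (-(Z t p ε).1 ^ 2) *
          (2 * (Z t p ε).1 * (fld a c ε (Z t p ε)).1 -
            2 * (Z t p ε).2 * (fld a c ε (Z t p ε)).2)) t := by
      have h4 : HasDerivAt (fun t => -(Z t p ε).1 ^ 2)
          (-(2 * (Z t p ε).1 * (fld a c ε (Z t p ε)).1)) t := by
        refine (hx.pow 2).neg.congr_deriv ?_
        norm_num
      have h5 : HasDerivAt (fun t => 1 + (Z t p ε).1 ^ 2 - (Z t p ε).2 ^ 2)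
          (2 * (Z t p ε).1 * (fld a c ε (Z t p ε)).1 -
            2 * (Z t p ε).2 * (fld a c ε (Z t p ε)).2) t := by
        refine (((hx.pow 2).const_add 1).sub (hy.pow 2)).congr_deriv ?_
        norm_num
      exact h4.exp.mul h5
    have h6 : HasDerivAt (fun t => kap (Z t p ε)) _ t := h3
    refine (h6.add (h2.const_mul (2 * ε))).congr_deriv ?_
    simp only [fld, G]
    ring
  intro t ht
  have hT : 0 ≤ T := ht.1.trans ht.2
  have hconst := constant_of_has_deriv_right_zero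
    (f := fun t => kap (Z t p ε) + 2 * ε * W t p ε) (a := 0) (b := T)
    (fun t ht => (hder t ht).continuousAt.continuousWithinAt)
    (fun t ht => (hder t ⟨ht.1, ht.2.le⟩).hasDerivWithinAt) t ht
  have h0 : kap (Z 0 p ε) + 2 * ε * W 0 p ε = kap p := by
    rw [h.zero, h.wzero]; ring
  rw [← h0]
  exact hconst

lemma mono_box' {Φ : ℝ × ℝ → ℝ} {Ω : Set (ℝ × ℝ)} (hΩ : IsOpen Ω) (hΦ : ContDiffOn ℝ 1 Φ Ω)
    {x₀ e₀ v : ℝ} (hq : (x₀, e₀) ∈ Ω) (hv : HasDerivAt (fun x => Φ (x, e₀)) v x₀) (hv0 : 0 < v) :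
    ∃ ρ > 0, (∀ x ∈ Ioo (x₀ - ρ) (x₀ + ρ), ∀ ε ∈ Ioo (e₀ - ρ) (e₀ + ρ), (x, ε) ∈ Ω) ∧
      ∀ ε ∈ Ioo (e₀ - ρ) (e₀ + ρ),
        StrictMonoOn (fun x => Φ (x, ε)) (Ioo (x₀ - ρ) (x₀ + ρ)) := by
  apply mono_box hΩ hΦ hq
  have h2 : DifferentiableAt ℝ Φ (x₀, e₀) :=
    (hΦ.differentiableOn (by norm_num)).differentiableAt (hΩ.mem_nhds hq)
  have h3 : HasDerivAt (fun x : ℝ => ((x, e₀) : ℝ × ℝ)) (1, 0) x₀ :=
    (hasDerivAt_id x₀).prodMk (hasDerivAt_const x₀ e₀)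
  have h4 : HasDerivAt (fun x => Φ (x, e₀)) (fderiv ℝ Φ (x₀, e₀) (1, 0)) x₀ :=
    h2.hasFDerivAt.comp_hasDerivAt x₀ h3
  rw [h4.unique hv]
  exact hv0

theorem branch {a c R X₀ m : ℝ} (hX₀ : 0 < X₀) {Z : ℝ → ℝ × ℝ → ℝ → ℝ × ℝ} {W : ℝ → ℝ × ℝ → ℝ → ℝ}
    (h : Flw a c R Z W) {τ : ℝ × ℝ → ℝ} {δ : ℝ} (hh : Half a c R X₀ Z W τ δ)
    (h0 : Mel a c X₀ = 0) (hm : HasDerivAt (Mel a c) m X₀) (hm0 : m ≠ 0) {s : ℝ} (hs : 0 < s) :
    ∃ ε₀ > 0, ∀ ε ∈ Ioo 0 ε₀, ∃ X r : ℝ, 0 < r ∧ X₀ - δ < X - r ∧ X + r < X₀ + δ ∧ ε < δ ∧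
      W (τ (X, ε)) (0, et X) ε = 0 ∧ Z (τ (X, ε)) (0, et X) ε = (0, -et X) ∧
      (∀ t ∈ Icc 0 (τ (X, ε)), |kap (Z t (0, et X) ε) - kp X₀| < s) ∧
      (∀ X' ∈ Ioo (X - r) (X + r), X' ≠ X →
        Z (τ (X', ε)) (0, et X') ε ≠ (0, -et X')) ∧
      (∀ X' ∈ Ioo (X - r) (X + r), ∀ X'' ∈ Ioo (X - r) (X + r), X' < X'' →
        (Z (τ (X'', ε)) (0, et X'') ε).2 < (Z (τ (X', ε)) (0, et X') ε).2) := by
  have hδ := hh.hδ
  have hδ0 := hh.hδ0
  have hδ1 := hh.hδ1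
  set Ω : Set (ℝ × ℝ) := Ioo (X₀ - δ) (X₀ + δ) ×ˢ Ioo (-δ) δ with hΩdef
  have hΩ : IsOpen Ω := isOpen_Ioo.prod isOpen_Ioo
  have hq : (X₀, (0 : ℝ)) ∈ Ω := ⟨⟨by linarith, by linarith⟩, ⟨by linarith, by linarith⟩⟩
  have hpos : ∀ q ∈ Ω, 0 < q.1 := fun q hq => by linarith [hq.1.1]
  set F : ℝ × ℝ → ℝ := fun q => W (τ q) (0, et q.1) q.2 with hFdef
  have het : ContDiffOn ℝ 1 (fun q : ℝ × ℝ => et q.1) Ω := by
    have h1 : ContDiffOn ℝ 1 (fun q : ℝ × ℝ => 1 - kp q.1) Ω :=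
      (contDiff_const.sub (kp_contDiff.comp contDiff_fst)).contDiffOn
    exact h1.sqrt (fun q hq => by have := kp_lt_one (hpos q hq); linarith)
  have hF : ContDiffOn ℝ 1 F Ω := by
    have hmap : ContDiffOn ℝ 1 (fun q : ℝ × ℝ => (τ q, ((0 : ℝ), et q.1), q.2)) Ω :=
      hh.smooth.prodMk ((contDiffOn_const.prodMk het).prodMk contDiffOn_snd)
    exact (h.smW.of_le (by norm_num)).comp_contDiffOn hmap
  have hF0 : ∀ X ∈ Ioo (X₀ - δ) (X₀ + δ), F (X, 0) = 2 * Mel a c X := fun X hX => hh.mel X hX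
  have hFder : HasDerivAt (fun X => F (X, 0)) (2 * m) X₀ := by
    refine (hm.const_mul 2).congr_of_eventuallyEq ?_
    filter_upwards [isOpen_Ioo.mem_nhds (show X₀ ∈ Ioo (X₀ - δ) (X₀ + δ) from
      ⟨by linarith, by linarith⟩)] with X hX
    exact hF0 X hX
  obtain ⟨σ, hσ, hσm⟩ : ∃ σ : ℝ, σ ≠ 0 ∧ 0 < σ * (2 * m) := by
    rcases lt_or_gt_of_ne hm0 with h1 | h1
    · exact ⟨-1, by norm_num, by linarith⟩
    · exact ⟨1, one_ne_zero, by linarith⟩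
  obtain ⟨ρ₁, hρ₁, hbox₁, hmono₁⟩ := mono_box' (Φ := fun q => σ * F q) hΩ
    (contDiffOn_const.mul hF) hq (hFder.const_mul σ) hσm
  have hΦ2 : ContDiffOn ℝ 1 (fun q : ℝ × ℝ => 1 - kp q.1 + 2 * q.2 * F q) Ω := by
    have h1 : ContDiffOn ℝ 1 (fun q : ℝ × ℝ => 1 - kp q.1) Ω :=
      (contDiff_const.sub (kp_contDiff.comp contDiff_fst)).contDiffOn
    exact h1.add ((contDiffOn_const.mul contDiffOn_snd).mul hF)
  have hΦ2der : HasDerivAt (fun x : ℝ => 1 - kp x + 2 * (0 : ℝ) * F (x, 0))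
      (2 * X₀ ^ 3 * Real.exp (-X₀ ^ 2)) X₀ := by
    have h1 : (fun x : ℝ => 1 - kp x + 2 * (0 : ℝ) * F (x, 0)) = fun x => 1 - kp x := by
      funext x; ring
    rw [h1]
    exact ((kp_hasDerivAt X₀).const_sub 1).congr_deriv (by ring)
  obtain ⟨ρ₂, hρ₂, hbox₂, hmono₂⟩ := mono_box' (Φ := fun q : ℝ × ℝ => 1 - kp q.1 + 2 * q.2 * F q)
    hΩ hΦ2 hq hΦ2der (by positivity)
  obtain ⟨ρ₃, hρ₃, hkp⟩ := Metric.continuousAt_iff.1 (kp_contDiff.continuous.continuousAt (x := X₀))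
    (s / 2) (by positivity)
  set r' : ℝ := min (min ρ₁ ρ₂) (min ρ₃ δ) / 2 with hr'
  have hmin : 0 < min (min ρ₁ ρ₂) (min ρ₃ δ) :=
    lt_min (lt_min hρ₁ hρ₂) (lt_min hρ₃ hδ)
  have hr'0 : 0 < r' := by positivity
  have hr'1 : r' < ρ₁ := by
    have := (min_le_left (min ρ₁ ρ₂) (min ρ₃ δ)).trans (min_le_left ρ₁ ρ₂)
    linarith
  have hr'2 : r' < ρ₂ := by
    have := (min_le_left (min ρ₁ ρ₂) (min ρ₃ δ)).trans (min_le_right ρ₁ ρ₂)
    linarith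
  have hr'3 : r' < ρ₃ := by
    have := (min_le_right (min ρ₁ ρ₂) (min ρ₃ δ)).trans (min_le_left ρ₃ δ)
    linarith
  have hr'4 : r' < δ := by
    have := (min_le_right (min ρ₁ ρ₂) (min ρ₃ δ)).trans (min_le_right ρ₃ δ)
    linarith
  -- compactness
  have hK : IsCompact (Icc (X₀ - r') (X₀ + r') ×ˢ Icc (-r') r') := isCompact_Icc.prod isCompact_Icc
  have hKΩ : Icc (X₀ - r') (X₀ + r') ×ˢ Icc (-r') r' ⊆ Ω := by
    rintro ⟨x, e⟩ ⟨hx, he⟩
    exact ⟨⟨by linarith [hx.1], by linarith [hx.2]⟩, ⟨by linarith [he.1], by linarith [he.2]⟩⟩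
  obtain ⟨T, hT⟩ := hK.exists_bound_of_continuousOn (hh.smooth.continuousOn.mono hKΩ)
  obtain ⟨B, hB⟩ := (isCompact_Icc (a := (0 : ℝ)) (b := T)).prod hK |>.exists_bound_of_continuousOn
    (f := fun q : ℝ × ℝ × ℝ => W q.1 (0, et q.2.1) q.2.2) (by
      apply Continuous.continuousOn
      exact h.smW.continuous.comp (continuous_fst.prodMk
        ((continuous_const.prodMk (et_cont.comp (continuous_fst.comp continuous_snd))).prodMk
          (continuous_snd.comp continuous_snd))))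
  -- signs at the ends
  have hend : ∀ x ∈ Ioo (X₀ - δ) (X₀ + δ), ContinuousAt (fun ε : ℝ => σ * F (x, ε)) 0 := by
    intro x hx
    have h1 : (x, (0 : ℝ)) ∈ Ω := ⟨hx, ⟨by linarith, by linarith⟩⟩
    have h2 : ContinuousAt F (x, 0) := hF.continuousOn.continuousAt (hΩ.mem_nhds h1)
    have h3 : ContinuousAt (fun ε : ℝ => ((x, ε) : ℝ × ℝ)) 0 := by fun_prop
    exact continuousAt_const.mul (ContinuousAt.comp (f := fun ε : ℝ => ((x, ε) : ℝ × ℝ))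
      (g := F) h2 h3)
  have hzero : σ * F (X₀, 0) = 0 := by
    rw [hF0 X₀ ⟨by linarith, by linarith⟩, h0]; ring
  have hm1 := hmono₁ 0 ⟨by linarith, by linarith⟩
  have hleft : σ * F (X₀ - r', 0) < 0 := by
    have h1 : σ * F (X₀ - r', 0) < σ * F (X₀, 0) :=
      hm1 (a := X₀ - r') (b := X₀) ⟨by linarith, by linarith⟩ ⟨by linarith, by linarith⟩
        (by linarith)
    linarith
  have hright : 0 < σ * F (X₀ + r', 0) := by
    have h1 : σ * F (X₀, 0) < σ * F (X₀ + r', 0) :=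
      hm1 (a := X₀) (b := X₀ + r') ⟨by linarith, by linarith⟩ ⟨by linarith, by linarith⟩
        (by linarith)
    linarith
  have hev : ∀ᶠ ε : ℝ in 𝓝 0, σ * F (X₀ - r', ε) < 0 ∧ 0 < σ * F (X₀ + r', ε) ∧
      |2 * ε * B| < s / 2 ∧ |ε| < r' := by
    have e1 := (hend (X₀ - r') ⟨by linarith, by linarith⟩).eventually (gt_mem_nhds hleft)
    have e2 := (hend (X₀ + r') ⟨by linarith, by linarith⟩).eventually (lt_mem_nhds hright)
    have e3 : ∀ᶠ ε : ℝ in 𝓝 0, |2 * ε * B| < s / 2 := by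
      have h1 : ContinuousAt (fun ε : ℝ => |2 * ε * B|) 0 := by fun_prop
      have h2 : |2 * (0 : ℝ) * B| < s / 2 := by simpa using hs
      exact h1.eventually (gt_mem_nhds h2)
    have e4 : ∀ᶠ ε : ℝ in 𝓝 0, |ε| < r' := by
      have h1 : ContinuousAt (fun ε : ℝ => |ε|) 0 := by fun_prop
      have h2 : |(0 : ℝ)| < r' := by simpa using hr'0
      exact h1.eventually (gt_mem_nhds h2)
    exact e1.and (e2.and (e3.and e4))
  obtain ⟨ε₀, hε₀, hP⟩ := Metric.eventually_nhds_iff.1 hev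
  refine ⟨ε₀, hε₀, fun ε hε => ?_⟩
  have hdist : dist ε 0 < ε₀ := by
    rw [Real.dist_eq, sub_zero, abs_of_pos hε.1]; exact hε.2
  obtain ⟨hl, hr, hsm, hεr⟩ := hP hdist
  have hε0 : 0 < ε := hε.1
  rw [abs_of_pos hε0] at hεr
  have hcontε : ContinuousOn (fun x : ℝ => σ * F (x, ε)) (Icc (X₀ - r') (X₀ + r')) := by
    refine continuousOn_const.mul (hF.continuousOn.comp (by fun_prop) ?_)
    intro x hx
    exact hKΩ ⟨hx, ⟨by linarith, by linarith⟩⟩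
  obtain ⟨X, hX, hXF⟩ := intermediate_value_Ioo (by linarith) hcontε
    (show (0 : ℝ) ∈ Ioo (σ * F (X₀ - r', ε)) (σ * F (X₀ + r', ε)) from ⟨hl, hr⟩)
  have hXF' : F (X, ε) = 0 := by
    rcases mul_eq_zero.1 hXF with h1 | h1
    · exact absurd h1 hσ
    · exact h1
  -- values of the first integral
  have hkapflow : ∀ x ∈ Icc (X₀ - r') (X₀ + r'), ∀ t ∈ Icc 0 (τ (x, ε)),
      kap (Z t (0, et x) ε) + 2 * ε * W t (0, et x) ε = kp x := by
    intro x hx t ht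
    have hx1 : x ∈ Ioo (X₀ - δ) (X₀ + δ) := ⟨by linarith [hx.1], by linarith [hx.2]⟩
    have hx0 : 0 < x := by linarith [hx1.1]
    have h1 := kap_flow h (p := (0, et x)) (ε := ε) (T := τ (x, ε))
      (by rw [abs_of_pos hε0]; linarith) (hh.ball x hx1 ε ⟨by linarith, by linarith⟩) t ht
    rw [h1]
    have h2 := et_sq hx0
    simp only [kap]
    rw [h2]
    simp
  have hyy : ∀ x ∈ Icc (X₀ - r') (X₀ + r'),
      (Z (τ (x, ε)) (0, et x) ε).2 ^ 2 = 1 - kp x + 2 * ε * F (x, ε) := by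
    intro x hx
    have hx1 : x ∈ Ioo (X₀ - δ) (X₀ + δ) := ⟨by linarith [hx.1], by linarith [hx.2]⟩
    have he1 : ε ∈ Ioo (-δ) δ := ⟨by linarith, by linarith⟩
    have h1 := hkapflow x hx (τ (x, ε)) ⟨(hh.pos x hx1 ε he1).le, le_rfl⟩
    have h2 := hh.hit x hx1 ε he1
    simp only [kap] at h1
    rw [h2] at h1
    simp only [ne_eq, OfNat.ofNat_ne_zero, not_false_eq_true, zero_pow, neg_zero, Real.exp_zero,
      one_mul, add_zero] at h1
    simp only [hFdef]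
    linarith
  have hneg : ∀ x ∈ Icc (X₀ - r') (X₀ + r'), (Z (τ (x, ε)) (0, et x) ε).2 < 0 := by
    intro x hx
    exact hh.neg x ⟨by linarith [hx.1], by linarith [hx.2]⟩ ε ⟨by linarith, by linarith⟩
  have hhit : ∀ x ∈ Icc (X₀ - r') (X₀ + r'), (Z (τ (x, ε)) (0, et x) ε).1 = 0 := by
    intro x hx
    exact hh.hit x ⟨by linarith [hx.1], by linarith [hx.2]⟩ ε ⟨by linarith, by linarith⟩
  have hetpos : ∀ x, 0 ≤ et x := fun x => Real.sqrt_nonneg _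
  have hXI : X ∈ Icc (X₀ - r') (X₀ + r') := ⟨hX.1.le, hX.2.le⟩
  have hX0 : 0 < X := by linarith [hX.1]
  set r : ℝ := min (X - (X₀ - r')) (X₀ + r' - X) with hrdef
  have hr0 : 0 < r := lt_min (by linarith [hX.1]) (by linarith [hX.2])
  have hr1 : r ≤ X - (X₀ - r') := min_le_left _ _
  have hr2 : r ≤ X₀ + r' - X := min_le_right _ _
  have hin : ∀ x ∈ Ioo (X - r) (X + r), x ∈ Icc (X₀ - r') (X₀ + r') := fun x hx =>
    ⟨by linarith [hx.1], by linarith [hx.2]⟩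
  have hin1 : ∀ x ∈ Icc (X₀ - r') (X₀ + r'), x ∈ Ioo (X₀ - ρ₁) (X₀ + ρ₁) := fun x hx =>
    ⟨by linarith [hx.1], by linarith [hx.2]⟩
  have hin2 : ∀ x ∈ Icc (X₀ - r') (X₀ + r'), x ∈ Ioo (X₀ - ρ₂) (X₀ + ρ₂) := fun x hx =>
    ⟨by linarith [hx.1], by linarith [hx.2]⟩
  have hM1 := hmono₁ ε ⟨by linarith, by linarith⟩
  have hM2 := hmono₂ ε ⟨by linarith, by linarith⟩
  refine ⟨X, r, hr0, by linarith, by linarith, by linarith, hXF', ?_, ?_, ?_, ?_⟩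
  · -- the endpoint
    have h1 := hyy X hXI
    rw [hXF', mul_zero, add_zero, ← et_sq hX0] at h1
    have h2 := hneg X hXI
    have h3 := hetpos X
    have h4 : (Z (τ (X, ε)) (0, et X) ε).2 = -et X := by
      have h5 : ((Z (τ (X, ε)) (0, et X) ε).2 - et X) * ((Z (τ (X, ε)) (0, et X) ε).2 + et X) = 0 := by
        ring_nf
        ring_nf at h1
        linarith
      rcases mul_eq_zero.1 h5 with h6 | h6
      · linarith
      · linarith
    exact Prod.ext (hhit X hXI) h4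
  · -- the first integral stays close
    intro t ht
    have h1 := hkapflow X hXI t ht
    have h2 : |kp X - kp X₀| < s / 2 := by
      have := hkp (x := X) (by rw [Real.dist_eq, abs_lt]; constructor <;> linarith [hX.1, hX.2])
      rwa [Real.dist_eq] at this
    have hKmem : ((X, ε) : ℝ × ℝ) ∈ Icc (X₀ - r') (X₀ + r') ×ˢ Icc (-r') r' :=
      ⟨hXI, ⟨by linarith, by linarith⟩⟩
    have h3 : ‖W t (0, et X) ε‖ ≤ B := by
      refine hB (t, (X, ε)) ⟨⟨ht.1, ht.2.trans ?_⟩, hKmem⟩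
      exact (le_abs_self _).trans (hT (X, ε) hKmem)
    rw [Real.norm_eq_abs] at h3
    have h4 : |2 * ε * W t (0, et X) ε| ≤ |2 * ε * B| := by
      rw [abs_mul (2 * ε), abs_mul (2 * ε)]
      exact mul_le_mul_of_nonneg_left (h3.trans (le_abs_self B)) (abs_nonneg _)
    have h5 : kap (Z t (0, et X) ε) - kp X₀ = (kp X - kp X₀) - 2 * ε * W t (0, et X) ε := by
      linarith
    rw [h5]
    calc |(kp X - kp X₀) - 2 * ε * W t (0, et X) ε|
        ≤ |kp X - kp X₀| + |2 * ε * W t (0, et X) ε| := abs_sub _ _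
      _ < s := by linarith
  · -- no other zero
    intro x hx hxX heq
    apply hxX
    have hxI := hin x hx
    have hx0 : 0 < x := by linarith [hxI.1]
    have h1 := hyy x hxI
    rw [heq] at h1
    have h2 := et_sq hx0
    have h3 : 2 * ε * F (x, ε) = 0 := by
      have h4 : (-et x) ^ 2 = et x ^ 2 := by ring
      simp only at h1
      rw [h4, h2] at h1
      linarith
    have h4 : F (x, ε) = 0 := by
      rcases mul_eq_zero.1 h3 with h5 | h5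
      · linarith
      · exact h5
    apply hM1.injOn (hin1 x hxI) (hin1 X hXI)
    show σ * F (x, ε) = σ * F (X, ε)
    rw [h4, hXF']
  · -- monotonicity
    intro x hx x' hx' hlt
    have h1 := hyy x (hin x hx)
    have h2 := hyy x' (hin x' hx')
    have h3 : 1 - kp x + 2 * ε * F (x, ε) < 1 - kp x' + 2 * ε * F (x', ε) :=
      hM2 (hin2 x (hin x hx)) (hin2 x' (hin x' hx')) hlt
    have h4 := hneg x (hin x hx)
    have h5 := hneg x' (hin x' hx')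
    by_contra h6
    push Not at h6
    nlinarith

end Pool.Agent.W987.HC
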